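import Pool.Agent.HGC.NZ
import Pool.Agent.HGC.Char
import Pool.Agent.HGC.LocW

/-!
# Trilinear forms and matrices of linear forms

`triC T` counts the zeros of the trilinear form `∑ T i j k x_i y_j z_k`, `kerN M` counts the kernel
of a matrix.
-/

set_option autoImplicit false

open scoped BigOperators

namespace Pool.Agent.HGD

open Pool.Agent.HGC

/-- The number of zeros over `K` of the trilinear form `∑ T i j k x_i y_j z_k`. -/
noncomputable def triC {α β γ : Type} [Fintype α] [Fintype β] [Fintype γ] (T : α → β → γ → ℤ)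
    (K : Type) [Field K] : ℕ :=
  Nat.card {v : (α → K) × (β → K) × (γ → K) //
    ∑ i, ∑ j, ∑ k, (T i j k : K) * v.1 i * v.2.1 j * v.2.2 k = 0}

/-- the number of vectors in the kernel of a matrix -/
noncomputable def kerN {α β K : Type} [Fintype α] [Field K] (M : β → α → K) : ℕ :=
  Nat.card {x : α → K // ∀ j, ∑ i, M j i * x i = 0}

/-- the matrix of linear forms of a trilinear form -/
def mat {α β γ : Type} [Fintype γ] (T : α → β → γ → ℤ) {K : Type} [Field K]
    (z : γ → K) (j : β) (i : α) : K := ∑ k, (T i j k : K) * z k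

/-- the sum of an integer valued function over `K^γ` -/
noncomputable def tot {γ : Type} {K : Type} (Φ : (γ → K) → ℤ) : ℤ := ∑ᶠ z : γ → K, Φ z

theorem tot_eq {γ : Type} [Finite γ] {K : Type} [Finite K] (Φ : (γ → K) → ℤ) [Fintype (γ → K)] :
    tot Φ = ∑ z, Φ z := by
  unfold tot
  exact finsum_eq_sum_of_fintype _

theorem triC_eq {α β γ : Type} [Fintype α] [Fintype β] [Fintype γ] (T : α → β → γ → ℤ)
    (K : Type) [Field K] [Finite K] :
    (Nat.card K : ℤ) * triC T K =
      (Nat.card K : ℤ) ^ (Fintype.card α + Fintype.card β + Fintype.card γ) +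
        (Nat.card K : ℤ) ^ Fintype.card β * ((Nat.card K : ℤ) - 1) *
          tot (fun z : γ → K => (kerN (mat T z) : ℤ)) := by
  classical
  have : Fintype K := Fintype.ofFinite K
  let φ : (α → K) × (γ → K) → ((β → K) →ₗ[K] K) := fun v =>
    ∑ j, (∑ i, mat T v.2 j i * v.1 i) • LinearMap.proj j
  have hφ : ∀ v y, φ v y = ∑ i, ∑ j, ∑ k, (T i j k : K) * v.1 i * y j * v.2 k := by
    intro v y
    simp only [φ, LinearMap.sum_apply, LinearMap.smul_apply, LinearMap.proj_apply, smul_eq_mul, mat,
      Finset.sum_mul]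
    rw [Finset.sum_comm]
    refine Finset.sum_congr rfl fun i _ => Finset.sum_congr rfl fun j _ =>
      Finset.sum_congr rfl fun k _ => ?_
    ring
  have hφ0 : ∀ v, φ v = 0 ↔ ∀ j, ∑ i, mat T v.2 j i * v.1 i = 0 := by
    intro v
    constructor
    · intro h j
      have h1 := congrArg (fun ψ : (β → K) →ₗ[K] K => ψ (Pi.single j 1)) h
      simp only [φ, LinearMap.sum_apply, LinearMap.smul_apply, LinearMap.proj_apply, smul_eq_mul,
        LinearMap.zero_apply] at h1
      rw [Finset.sum_eq_single j] at h1
      · simpa using h1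
      · intro j' _ hj'
        rw [Pi.single_eq_of_ne hj', mul_zero]
      · intro h'
        exact absurd (Finset.mem_univ j) h'
    · intro h
      simp only [φ, h, zero_smul, Finset.sum_const_zero]
  have e1 : triC T K = ∑ v : (α → K) × (γ → K), Nat.card {y : β → K // φ v y = 0} := by
    unfold triC
    rw [← Nat.card_sigma]
    refine Nat.card_congr
      { toFun := fun v => ⟨(v.1.1, v.1.2.2), ⟨v.1.2.1, by rw [hφ]; exact v.2⟩⟩
        invFun := fun v => ⟨(v.1.1, v.2.1, v.1.2), by
          have := v.2.2
          rw [hφ] at this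
          exact this⟩
        left_inv := fun v => rfl
        right_inv := fun v => rfl }
  have hcard : (Nat.card (β → K) : ℤ) = (Nat.card K : ℤ) ^ Fintype.card β := by
    rw [Nat.card_fun, Nat.card_eq_fintype_card (α := β)]
    push_cast
    rfl
  have e2 : tot (fun z : γ → K => (kerN (mat T z) : ℤ)) =
      ∑ v : (α → K) × (γ → K), if φ v = 0 then (1 : ℤ) else 0 := by
    rw [tot_eq, Fintype.sum_prod_type_right]
    refine Finset.sum_congr rfl fun z _ => ?_
    unfold kerN
    rw [Nat.card_eq_fintype_card, Fintype.card_subtype, Finset.card_filter]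
    push_cast
    refine Finset.sum_congr rfl fun x _ => ?_
    simp only [hφ0]
  rw [e1, e2]
  push_cast
  rw [Finset.mul_sum]
  simp_rw [card_ker_form, Finset.sum_add_distrib]
  rw [Finset.sum_const, Finset.card_univ, Fintype.card_prod, Finset.mul_sum, hcard]
  simp only [Fintype.card_fun, Nat.card_eq_fintype_card]
  congr 1
  · simp only [nsmul_eq_mul]
    push_cast
    ring
  · refine Finset.sum_congr rfl fun v _ => ?_
    split_ifs <;> ring

theorem mat_smul {α β γ : Type} [Fintype γ] (T : α → β → γ → ℤ) {K : Type} [Field K]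
    (c : K) (z : γ → K) (j : β) (i : α) : mat T (c • z) j i = c * mat T z j i := by
  simp only [mat, Pi.smul_apply, smul_eq_mul, Finset.mul_sum]
  exact Finset.sum_congr rfl fun k _ => by ring

theorem kerN_smul {α β K : Type} [Fintype α] [Field K] (M : β → α → K) {c : K} (hc : c ≠ 0) :
    kerN (fun j i => c * M j i) = kerN M := by
  unfold kerN
  refine Nat.card_congr (Equiv.subtypeEquivRight fun x => ?_)
  refine forall_congr' fun j => ?_
  simp only [mul_assoc, ← Finset.mul_sum]
  rw [mul_eq_zero]
  simp [hc]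

/-- first coordinate zero or not -/
theorem tot_cons {d : ℕ} {K : Type} [Field K] [Finite K] (Φ : (Fin (d + 1) → K) → ℤ)
    (hΦ : ∀ (c : K) z, c ≠ 0 → Φ (c • z) = Φ z) :
    tot Φ = ((Nat.card K : ℤ) - 1) * tot (fun t : Fin d → K => Φ (Fin.cons 1 t)) +
      tot (fun t : Fin d → K => Φ (Fin.cons 0 t)) := by
  classical
  have : Fintype K := Fintype.ofFinite K
  rw [tot_eq, tot_eq, tot_eq, ← (Fin.consEquiv fun _ => K).sum_comp, Fintype.sum_prod_type]
  have h1 : ∀ c : K, ∑ t : Fin d → K, Φ ((Fin.consEquiv fun _ => K) (c, t)) =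
      if c = 0 then ∑ t : Fin d → K, Φ (Fin.cons 0 t) else ∑ t : Fin d → K, Φ (Fin.cons 1 t) := by
    intro c
    split_ifs with hc
    · subst hc
      rfl
    · let e : (Fin d → K) ≃ (Fin d → K) :=
        { toFun := fun t => c • t
          invFun := fun t => c⁻¹ • t
          left_inv := fun t => by simp [smul_smul, hc]
          right_inv := fun t => by simp [smul_smul, hc] }
      rw [← e.sum_comp]
      refine Finset.sum_congr rfl fun t _ => ?_
      have h2 : (Fin.consEquiv fun _ => K) (c, e t) = c • (Fin.cons 1 t : Fin (d + 1) → K) := by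
        funext i
        refine Fin.cases ?_ (fun i => ?_) i
        · simp [Fin.consEquiv]
        · simp [Fin.consEquiv, e]
      rw [h2]
      exact hΦ _ _ hc
  rw [Finset.sum_congr rfl fun c _ => h1 c, Finset.sum_ite]
  simp only [Finset.sum_const, nsmul_eq_mul]
  have h3 : (Finset.univ.filter fun c : K => c = 0).card = 1 := by
    rw [Finset.card_eq_one]
    exact ⟨0, by ext; simp⟩
  have h4 : ((Finset.univ.filter fun c : K => ¬c = 0).card : ℤ) = (Nat.card K : ℤ) - 1 := by
    have h5 := Finset.card_filter_add_card_filter_not (s := (Finset.univ : Finset K)) (fun c : K => c = 0)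
    rw [h3, Finset.card_univ] at h5
    rw [Nat.card_eq_fintype_card, ← h5]
    push_cast
    ring
  rw [h3, h4]
  push_cast
  ring

end Pool.Agent.HGD
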