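import Pool.Agent.HGD.Basic
import Mathlib.NumberTheory.JacobiSum.Basic
import Mathlib.NumberTheory.LegendreSymbol.QuadraticChar.Basic

/-!
# The quadratic character and zeros of quadratic forms over finite fields
-/

set_option autoImplicit false

open scoped BigOperators

namespace Pool.Agent.HGD

open Pool.Agent.HGC

/-- the number of square roots minus one -/
noncomputable def chi {K : Type} [Field K] (a : K) : ℤ := (Nat.card {w : K // w ^ 2 = a} : ℤ) - 1

theorem chi_eq {K : Type} [Field K] [Fintype K] [DecidableEq K] (h2 : ringChar K ≠ 2) (a : K) :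
    chi a = quadraticChar K a := by
  have h := quadraticChar_card_sqrts h2 a
  unfold chi
  rw [sub_eq_iff_eq_add, ← h, Nat.card_eq_fintype_card]
  congr 1
  rw [Set.toFinset_card]
  exact Fintype.card_congr (Equiv.refl _)

theorem chi_zero {K : Type} [Field K] : chi (0 : K) = 0 := by
  unfold chi
  have : Nat.card {w : K // w ^ 2 = 0} = 1 := by
    rw [Nat.card_eq_one_iff_unique]
    refine ⟨⟨fun x y => ?_⟩, ⟨⟨0, by simp⟩⟩⟩
    have hx : x.1 = 0 := by simpa using x.2
    have hy : y.1 = 0 := by simpa using y.2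
    exact Subtype.ext (hx.trans hy.symm)
  rw [this]
  simp

section

variable {K : Type} [Field K] [Finite K] (h2 : ringChar K ≠ 2)

include h2

theorem chi_mul (a b : K) : chi (a * b) = chi a * chi b := by
  classical
  have : Fintype K := Fintype.ofFinite K
  rw [chi_eq h2, chi_eq h2, chi_eq h2, map_mul]

theorem chi_sq {a : K} (ha : a ≠ 0) : chi (a * a) = 1 := by
  classical
  have : Fintype K := Fintype.ofFinite K
  rw [chi_eq h2, ← sq]
  exact quadraticChar_sq_one' ha

theorem chi_mul_self (a : K) [Decidable (a = 0)] : chi a * chi a = if a = 0 then 0 else 1 := by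
  rw [← chi_mul h2]
  split_ifs with ha
  · rw [ha, mul_zero, chi_zero]
  · exact chi_sq h2 ha

omit [Finite K] in
theorem sum_chi [Fintype K] : ∑ a : K, chi a = 0 := by
  classical
  rw [← quadraticChar_sum_zero h2]
  exact Finset.sum_congr rfl fun a _ => chi_eq h2 a

omit [Finite K] in
theorem sum_chi_one_sub [Fintype K] : ∑ s : K, chi (s * (1 - s)) = -chi (-1 : K) := by
  classical
  have h1 : (quadraticChar K) ≠ 1 := quadraticChar_ne_one h2
  have h := jacobiSum_nontrivial_inv h1
  rw [(quadraticChar_isQuadratic K).inv] at h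
  rw [chi_eq h2, ← h]
  unfold jacobiSum
  refine Finset.sum_congr rfl fun s _ => ?_
  rw [chi_eq h2, map_mul]

/-- the number of solutions of `b u² + b' v² = c` -/
theorem two_squares (b b' c : K) (hb : b ≠ 0) (hb' : b' ≠ 0) [Decidable (c = 0)] :
    (Nat.card {w : K × K // b * w.1 ^ 2 + b' * w.2 ^ 2 = c} : ℤ) =
      Nat.card K - chi (-(b * b')) + if c = 0 then Nat.card K * chi (-(b * b')) else 0 := by
  classical
  have : Fintype K := Fintype.ofFinite K
  have e1 : (Nat.card {w : K × K // b * w.1 ^ 2 + b' * w.2 ^ 2 = c} : ℤ) =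
      ∑ s : K, (Nat.card {u : K // u ^ 2 = s * b⁻¹} : ℤ) * Nat.card {v : K // v ^ 2 = (c - s) * b'⁻¹} := by
    have h1 : Nat.card {w : K × K // b * w.1 ^ 2 + b' * w.2 ^ 2 = c} =
        ∑ s : K, Nat.card ({u : K // u ^ 2 = s * b⁻¹} × {v : K // v ^ 2 = (c - s) * b'⁻¹}) := by
      rw [← Nat.card_sigma]
      refine Nat.card_congr
        { toFun := fun w => ⟨b * w.1.1 ^ 2, ⟨w.1.1, by field_simp⟩, ⟨w.1.2, ?_⟩⟩
          invFun := fun w => ⟨(w.2.1.1, w.2.2.1), ?_⟩
          left_inv := fun w => rfl
          right_inv := ?_ }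
      · rw [eq_mul_inv_iff_mul_eq₀ hb']
        linear_combination w.2
      · have h3 := w.2.1.2
        have h4 := w.2.2.2
        rw [eq_mul_inv_iff_mul_eq₀ hb] at h3
        rw [eq_mul_inv_iff_mul_eq₀ hb'] at h4
        linear_combination h3 + h4
      · rintro ⟨s, ⟨u, hu⟩, ⟨v, hv⟩⟩
        have h3 : b * u ^ 2 = s := by
          rw [hu]
          field_simp
        subst h3
        rfl
    rw [h1]
    push_cast
    exact Finset.sum_congr rfl fun s _ => by rw [Nat.card_prod]; push_cast; rfl
  have hc : ∀ a : K, (Nat.card {w : K // w ^ 2 = a} : ℤ) = 1 + chi a := by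
    intro a
    unfold chi
    ring
  have hinv : ∀ x : K, x ≠ 0 → chi x⁻¹ = chi x := by
    intro x hx
    have h3 := chi_sq h2 (inv_ne_zero hx)
    have h4 : x⁻¹ = x * (x⁻¹ * x⁻¹) := by field_simp
    rw [h4, chi_mul h2, h3, mul_one]
  have e2 : ∀ s : K, (Nat.card {u : K // u ^ 2 = s * b⁻¹} : ℤ) * Nat.card {v : K // v ^ 2 = (c - s) * b'⁻¹} =
      1 + chi s * chi b + chi (c - s) * chi b' + chi (b * b') * chi (s * (c - s)) := by
    intro s
    rw [hc, hc, chi_mul h2, chi_mul h2, hinv b hb, hinv b' hb', chi_mul h2, chi_mul h2]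
    ring
  rw [e1, Finset.sum_congr rfl fun s _ => e2 s, Finset.sum_add_distrib, Finset.sum_add_distrib,
    Finset.sum_add_distrib, ← Finset.sum_mul, ← Finset.sum_mul, ← Finset.mul_sum, sum_chi h2]
  have e3 : ∑ s : K, chi (c - s) = 0 := by
    rw [← sum_chi h2]
    exact (Equiv.subLeft c).sum_comp chi
  have e4 : ∑ s : K, chi (s * (c - s)) = if c = 0 then chi (-1 : K) * (Nat.card K - 1) else -chi (-1 : K) := by
    split_ifs with h0
    · subst h0
      have h5 : ∀ s : K, chi (s * (0 - s)) = chi (-1 : K) * if s = 0 then 0 else 1 := by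
        intro s
        rw [← chi_mul_self h2 s, ← chi_mul h2, ← chi_mul h2]
        congr 1
        ring
      rw [Finset.sum_congr rfl fun s _ => h5 s, ← Finset.mul_sum]
      congr 1
      have h6 : ∀ s : K, (if s = 0 then (0 : ℤ) else 1) = 1 - if s = 0 then 1 else 0 := by
        intro s
        split_ifs <;> rfl
      rw [Finset.sum_congr rfl fun s _ => h6 s, Finset.sum_sub_distrib]
      simp [Nat.card_eq_fintype_card]
    · rw [← sum_chi_one_sub h2]
      have h5 : ∑ s : K, chi (s * (c - s)) = ∑ s : K, chi ((s * c) * (c - s * c)) := by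
        exact (Equiv.sum_comp (Equiv.mulRight₀ c h0) (fun s => chi (s * (c - s)))).symm
      rw [h5]
      refine Finset.sum_congr rfl fun s _ => ?_
      have h6 : (s * c) * (c - s * c) = (s * (1 - s)) * (c * c) := by ring
      rw [h6, chi_mul h2, chi_sq h2 h0, mul_one]
  rw [e3, e4]
  have e5 : chi (-(b * b')) = chi (-1 : K) * chi (b * b') := by
    rw [← chi_mul h2]
    congr 1
    ring
  rw [e5]
  simp only [Finset.sum_const, Finset.card_univ, nsmul_eq_mul, mul_one, zero_mul, add_zero,
    Nat.card_eq_fintype_card]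
  split_ifs <;> ring

end

/-- the value of a quadratic form -/
def qv {n : ℕ} {K : Type} [Field K] (A : Fin n → Fin n → K) (x : Fin n → K) : K :=
  ∑ i, ∑ j, A i j * x i * x j

/-- zeros of a quadratic form -/
noncomputable def N0 {n : ℕ} {K : Type} [Field K] (A : Fin n → Fin n → K) : ℕ :=
  Nat.card {x : Fin n → K // qv A x = 0}

/-- zeros of a quadratic form plus one square -/
noncomputable def N1 {n : ℕ} {K : Type} [Field K] (A : Fin n → Fin n → K) (b : K) : ℕ :=
  Nat.card {x : K × (Fin n → K) // b * x.1 ^ 2 + qv A x.2 = 0}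

/-- zeros of a quadratic form plus two squares -/
noncomputable def N2 {n : ℕ} {K : Type} [Field K] (A : Fin n → Fin n → K) (b b' : K) : ℕ :=
  Nat.card {x : (K × K) × (Fin n → K) // b * x.1.1 ^ 2 + b' * x.1.2 ^ 2 + qv A x.2 = 0}

/-- the form left after completing the square of the variable `k` -/
def red {n : ℕ} {K : Type} [CommRing K] (A : Fin (n + 1) → Fin (n + 1) → K) (k : Fin (n + 1)) :
    Fin n → Fin n → K := fun i j =>
  4 * A k k * A (k.succAbove i) (k.succAbove j) -
    (A k (k.succAbove i) + A (k.succAbove i) k) * (A k (k.succAbove j) + A (k.succAbove j) k)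

theorem qv_red {n : ℕ} {K : Type} [Field K] (A : Fin (n + 1) → Fin (n + 1) → K) (k : Fin (n + 1))
    (x : Fin (n + 1) → K) :
    4 * A k k * qv A x = (2 * A k k * x k +
      ∑ i, (A k (k.succAbove i) + A (k.succAbove i) k) * x (k.succAbove i)) ^ 2 +
        qv (red A k) fun i => x (k.succAbove i) := by
  unfold qv red
  rw [Fin.sum_univ_succAbove _ k]
  simp_rw [Fin.sum_univ_succAbove _ k]
  have e1 : (∑ i, (A k (k.succAbove i) + A (k.succAbove i) k) * x (k.succAbove i)) ^ 2 =
      ∑ i, ∑ j, ((A k (k.succAbove i) + A (k.succAbove i) k) *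
        (A k (k.succAbove j) + A (k.succAbove j) k)) * x (k.succAbove i) * x (k.succAbove j) := by
    rw [sq, Finset.sum_mul_sum]
    refine Finset.sum_congr rfl fun i _ => Finset.sum_congr rfl fun j _ => ?_
    ring
  have e2 : ∑ i, ∑ j, (4 * A k k * A (k.succAbove i) (k.succAbove j) -
      (A k (k.succAbove i) + A (k.succAbove i) k) * (A k (k.succAbove j) + A (k.succAbove j) k)) *
        x (k.succAbove i) * x (k.succAbove j) =
      4 * A k k * ∑ i, ∑ j, A (k.succAbove i) (k.succAbove j) * x (k.succAbove i) *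
        x (k.succAbove j) -
      ∑ i, ∑ j, ((A k (k.succAbove i) + A (k.succAbove i) k) *
        (A k (k.succAbove j) + A (k.succAbove j) k)) * x (k.succAbove i) * x (k.succAbove j) := by
    rw [Finset.mul_sum, ← Finset.sum_sub_distrib]
    refine Finset.sum_congr rfl fun i _ => ?_
    rw [Finset.mul_sum, ← Finset.sum_sub_distrib]
    refine Finset.sum_congr rfl fun j _ => ?_
    ring
  rw [e2, Finset.sum_add_distrib]
  have e3 : ∑ i, (A k (k.succAbove i) + A (k.succAbove i) k) * x (k.succAbove i) =
      (∑ i, A k (k.succAbove i) * x (k.succAbove i)) +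
        ∑ i, A (k.succAbove i) k * x (k.succAbove i) := by
    rw [← Finset.sum_add_distrib]
    exact Finset.sum_congr rfl fun i _ => by ring
  have e4 : ∑ i, A k (k.succAbove i) * x k * x (k.succAbove i) =
      x k * ∑ i, A k (k.succAbove i) * x (k.succAbove i) := by
    rw [Finset.mul_sum]
    exact Finset.sum_congr rfl fun i _ => by ring
  have e5 : ∑ i, A (k.succAbove i) k * x (k.succAbove i) * x k =
      x k * ∑ i, A (k.succAbove i) k * x (k.succAbove i) := by
    rw [Finset.mul_sum]
    exact Finset.sum_congr rfl fun i _ => by ring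
  rw [e4, e5]
  rw [← e1, e3]
  ring

end Pool.Agent.HGD
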