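import Pool.Agent.HGD.PolyLin
import Pool.Agent.HGC.Univ

/-!
# Control by a family, and schemes in affine and projective spaces
-/

set_option autoImplicit false

open scoped BigOperators

namespace Pool.Agent.HGD

open Pool.Agent.HGC MvPolynomial

/-- `f` is controlled by finitely many members of the family `B`: if their zeta functions have a
meromorphic continuation then so has that of `f`, and the same for the weight parts. -/
def Controlled (B : Set PF) (f : PF) : Prop :=
  ∃ L : List PF, (∀ g ∈ L, g ∈ B) ∧ ((∀ g ∈ L, Continues g) → Continues f) ∧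
    ((∀ g ∈ L, WeightsContinue g) →
      ∀ μ, IsSpectrum f μ → ∀ w : ℤ, Continues (weightPart μ w))

/-- the version of `Controlled` with closure properties -/
def CtrlBy (B : Set PF) (f : PF) : Prop :=
  ∃ L : List PF, (∀ g ∈ L, g ∈ B) ∧ ((∀ g ∈ L, Continues g) → Continues f) ∧
    ((∀ g ∈ L, WeightsContinue g) → LocW f)

theorem admissible_ctrlBy (B : Set PF) : Admissible (CtrlBy B) where
  one := ⟨[], by simp, fun _ => admissible_continues.one, fun _ => admissible_locW.one⟩
  add := by
    rintro f g ⟨L, h1, h2, h3⟩ ⟨M, k1, k2, k3⟩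
    refine ⟨L ++ M, ?_, ?_, ?_⟩
    · intro h hh
      rcases List.mem_append.1 hh with hh | hh
      · exact h1 h hh
      · exact k1 h hh
    · intro hc
      exact admissible_continues.add (h2 fun h hh => hc h (List.mem_append_left _ hh))
        (k2 fun h hh => hc h (List.mem_append_right _ hh))
    · intro hc
      exact admissible_locW.add (h3 fun h hh => hc h (List.mem_append_left _ hh))
        (k3 fun h hh => hc h (List.mem_append_right _ hh))
  neg := by
    rintro f ⟨L, h1, h2, h3⟩
    exact ⟨L, h1, fun h => admissible_continues.neg (h2 h), fun h => admissible_locW.neg (h3 h)⟩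
  mulq := by
    rintro f ⟨L, h1, h2, h3⟩
    exact ⟨L, h1, fun h => admissible_continues.mulq (h2 h), fun h => admissible_locW.mulq (h3 h)⟩
  divq := by
    rintro f ⟨L, h1, h2, h3⟩
    exact ⟨L, h1, fun h => admissible_continues.divq (h2 h), fun h => admissible_locW.divq (h3 h)⟩
  divq1 := by
    rintro f ⟨L, h1, h2, h3⟩
    exact ⟨L, h1, fun h => admissible_continues.divq1 (h2 h),
      fun h => admissible_locW.divq1 (h3 h)⟩
  congr := by
    rintro f g hfg ⟨L, h1, h2, h3⟩
    exact ⟨L, h1, fun h => admissible_continues.congr hfg (h2 h),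
      fun h => admissible_locW.congr hfg (h3 h)⟩

theorem ctrlBy_mem {B : Set PF} {f : PF} (h : f ∈ B) : CtrlBy B f := by
  refine ⟨[f], ?_, ?_, ?_⟩
  · intro g hg
    rw [List.mem_singleton] at hg
    subst hg
    exact h
  · intro hc
    exact hc f (List.mem_singleton.2 rfl)
  · intro hc
    exact locW_of_weights (hc f (List.mem_singleton.2 rfl))

/-- from `CtrlBy` to `Controlled` -/
theorem controlled_of {B : Set PF} {N : (K : Type) → [Field K] → ℕ} (n : ℕ)
    (h : ∀ (K : Type) [Field K] [Finite K], N K ≤ Nat.card K ^ n) (hc : CtrlBy B (countPF N)) :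
    Controlled B (countPF N) := by
  obtain ⟨L, h1, h2, h3⟩ := hc
  exact ⟨L, h1, h2, fun hw μ hμ w =>
    locW_final_of admissible_continues n (norm_countPF_le n h) (h3 hw) μ hμ w⟩

theorem triC_le {α β γ : Type} [Fintype α] [Fintype β] [Fintype γ] (T : α → β → γ → ℤ)
    (K : Type) [Field K] [Finite K] :
    triC T K ≤ Nat.card K ^ (Fintype.card α + (Fintype.card β + Fintype.card γ)) := by
  unfold triC
  calc _ ≤ Nat.card ((α → K) × (β → K) × (γ → K)) :=
        Nat.card_le_card_of_injective _ Subtype.val_injective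
    _ = _ := by
        rw [Nat.card_prod, Nat.card_prod, Nat.card_fun, Nat.card_fun, Nat.card_fun, pow_add, pow_add]
        simp only [Nat.card_eq_fintype_card (α := α), Nat.card_eq_fintype_card (α := β),
          Nat.card_eq_fintype_card (α := γ)]

/-- the points where `P` does not vanish, from the hypersurface -/
theorem rel_one_of_hyp {Q : PF → Prop} (hQ : Admissible Q) {d : ℕ}
    (h : ∀ f : MvPolynomial (Fin d) ℤ, Q (countPF (affCount fun _ : Fin 1 => f))) :
    Rel Q (fun _ _ _ => 1 : RF d) := by
  intro f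
  refine hQ.congr (fun p r hr => ?_) (hQ.add (NZAux.adm_pow hQ d) (hQ.neg (h f)))
  have : Fact (p : ℕ).Prime := ⟨p.2⟩
  have : Fintype (GaloisField p r) := Fintype.ofFinite _
  classical
  simp only [relPF, countPF, tot_eq, cut]
  have h5 : (affCount (fun _ : Fin 1 => f) (GaloisField p r) : ℤ) =
      ∑ t : Fin d → GaloisField p r, if aeval t f = 0 then (1 : ℤ) else 0 := by
    unfold affCount
    rw [Nat.card_eq_fintype_card, Fintype.card_subtype, Finset.card_filter]
    push_cast
    exact Finset.sum_congr rfl fun t _ => by simp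
  have h6 : ∑ t : Fin d → GaloisField p r, (if aeval t f = 0 then (0 : ℤ) else 1) =
      ((p : ℕ) ^ r) ^ d - affCount (fun _ : Fin 1 => f) (GaloisField p r) := by
    rw [h5, eq_sub_iff_add_eq, ← Finset.sum_add_distrib]
    have h7 : ∀ t : Fin d → GaloisField p r,
        ((if aeval t f = 0 then (0 : ℤ) else 1) + if aeval t f = 0 then (1 : ℤ) else 0) = 1 := by
      intro t
      split_ifs <;> simp
    rw [Finset.sum_congr rfl fun t _ => h7 t, Finset.sum_const, Finset.card_univ, Fintype.card_fun,
      Fintype.card_fin, ← Nat.card_eq_fintype_card, NZAux.card_gf p hr]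
    simp
  rw [h6]
  push_cast
  ring

/-- systems of polynomials, from `Rel` -/
theorem rel_system {Q : PF → Prop} (hQ : Admissible Q) {d m : ℕ}
    (P : Fin m → MvPolynomial (Fin d) ℤ) (h : Rel Q (fun _ _ _ => 1 : RF d)) :
    Q (countPF (affCount P)) := by
  classical
  have key : ∀ (m : ℕ) (P : Fin m → MvPolynomial (Fin d) ℤ),
      Rel Q (fun _ _ t => if ∀ i, aeval t (P i) = 0 then 1 else 0 : RF d) := by
    intro m
    induction m with
    | zero =>
      intro P
      exact rel_congr hQ (fun K _ _ t => by simp) h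
    | succ m ih =>
      intro P
      refine rel_cases hQ (P 0) (Φ₁ := fun _ _ _ => 0) ?_ (ih fun i => P i.succ) ?_ ?_
      · exact rel_congr hQ (fun K _ _ t => by ring) (rel_add hQ h (rel_neg hQ h))
      · intro K _ _ t ht
        rw [if_neg]
        intro h1
        exact ht (h1 0)
      · intro K _ _ t ht
        simp only [Fin.forall_fin_succ, ht, true_and]
  refine hQ.congr (fun p r hr => ?_) (key m P 1)
  have : Fact (p : ℕ).Prime := ⟨p.2⟩
  have : Fintype (GaloisField p r) := Fintype.ofFinite _
  simp only [relPF, countPF, tot_eq, cut]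
  have h5 : (affCount P (GaloisField p r) : ℤ) =
      ∑ t : Fin d → GaloisField p r, if ∀ i, aeval t (P i) = 0 then (1 : ℤ) else 0 := by
    unfold affCount
    rw [Nat.card_eq_fintype_card, Fintype.card_subtype, Finset.card_filter]
    push_cast
    rfl
  have h6 : ((affCount P (GaloisField p r) : ℕ) : ℂ) =
      ((affCount P (GaloisField p r) : ℤ) : ℂ) := by push_cast; rfl
  rw [h6, h5]
  congr 1
  refine Finset.sum_congr rfl fun t _ => ?_
  simp

/-- from dimension `n + 1` to dimension `n` for systems -/
theorem aff_pred {Q : PF → Prop} (hQ : Admissible Q) {n : ℕ}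
    (h : ∀ (m : ℕ) (P : Fin m → MvPolynomial (Fin (n + 1)) ℤ), Q (countPF (affCount P)))
    (m : ℕ) (P : Fin m → MvPolynomial (Fin n) ℤ) : Q (countPF (affCount P)) :=
  rel_system hQ P (rel_one_pred hQ (rel_one_of_hyp hQ fun f => h 1 fun _ => f))

/-- cones over projective schemes -/
theorem cone_of_aff {Q : PF → Prop} (hQ : Admissible Q) :
    ∀ (n : ℕ), (0 < n → ∀ (m : ℕ) (P : Fin m → MvPolynomial (Fin (n - 1)) ℤ),
      Q (countPF (affCount P))) → ∀ (m : ℕ) (P : Fin m → MvPolynomial (Fin n) ℤ),
        (∀ i, ∃ k, 1 ≤ k ∧ (P i).IsHomogeneous k) → Q (countPF (affCount P)) := by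
  intro n
  induction n with
  | zero =>
    intro _ m P hP
    refine hQ.congr (fun p r hr => ?_) hQ.one
    have : Fact (p : ℕ).Prime := ⟨p.2⟩
    simp only [countPF]
    have h1 : affCount P (GaloisField p r) = 1 := by
      unfold affCount
      rw [Nat.card_eq_one_iff_unique]
      refine ⟨⟨fun x y => Subtype.ext (Subsingleton.elim _ _)⟩, ⟨⟨0, fun i => ?_⟩⟩⟩
      obtain ⟨k, hk, hk'⟩ := hP i
      exact aeval_zero_of_isHomogeneous hk hk'
    rw [h1]
    simp
  | succ n ih =>
    intro h m P hP
    have h' : ∀ (m : ℕ) (P : Fin m → MvPolynomial (Fin n) ℤ), Q (countPF (affCount P)) :=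
      h (Nat.succ_pos n)
    -- the part at infinity
    let P0 : Fin m → MvPolynomial (Fin n) ℤ := fun i => aeval (Fin.cons 0 X) (P i)
    let P1 : Fin m → MvPolynomial (Fin n) ℤ := fun i => aeval (Fin.cons 1 X) (P i)
    have e0 : ∀ (K : Type) [Field K] (t : Fin n → K) (i : Fin m),
        aeval t (P0 i) = aeval (Fin.cons 0 t : Fin (n + 1) → K) (P i) := by
      intro K _ t i
      simp only [P0]
      rw [← AlgHom.comp_apply]
      congr 1
      refine algHom_ext fun j => ?_
      refine Fin.cases ?_ (fun j => ?_) j <;> simp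
    have e1 : ∀ (K : Type) [Field K] (t : Fin n → K) (i : Fin m),
        aeval t (P1 i) = aeval (Fin.cons 1 t : Fin (n + 1) → K) (P i) := by
      intro K _ t i
      simp only [P1]
      rw [← AlgHom.comp_apply]
      congr 1
      refine algHom_ext fun j => ?_
      refine Fin.cases ?_ (fun j => ?_) j <;> simp
    have hq1 : Q fun p r => (((p : ℕ) : ℂ) ^ r - 1) * countPF (affCount P1) p r :=
      hQ.congr (fun p r _ => by ring) (hQ.add (hQ.mulq (h' m P1)) (hQ.neg (h' m P1)))
    refine hQ.congr (fun p r hr => ?_) (hQ.add hq1 (h' m P0))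
    have : Fact (p : ℕ).Prime := ⟨p.2⟩
    have : Fintype (GaloisField p r) := Fintype.ofFinite _
    classical
    have hcount : ∀ (k : ℕ) (R : Fin m → MvPolynomial (Fin k) ℤ),
        (affCount R (GaloisField p r) : ℤ) =
          tot fun t : Fin k → GaloisField p r => if ∀ i, aeval t (R i) = 0 then (1 : ℤ) else 0 := by
      intro k R
      unfold affCount
      rw [tot_eq, Nat.card_eq_fintype_card, Fintype.card_subtype, Finset.card_filter]
      push_cast
      rfl
    have h6 := tot_cons (K := GaloisField p r)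
      (fun z : Fin (n + 1) → GaloisField p r => if ∀ i, aeval z (P i) = 0 then (1 : ℤ) else 0)
      (fun c z hc => by
        have : (∀ i, aeval (c • z) (P i) = 0) ↔ ∀ i, aeval z (P i) = 0 := by
          refine forall_congr' fun i => ?_
          obtain ⟨k, hk, hk'⟩ := hP i
          rw [aeval_smul_of_isHomogeneous hk', mul_eq_zero]
          simp [hc]
        simp only [this])
    have h7 : (affCount P (GaloisField p r) : ℤ) =
        ((p : ℕ) ^ r - 1) * affCount P1 (GaloisField p r) + affCount P0 (GaloisField p r) := by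
      rw [hcount, hcount, hcount, h6, NZAux.card_gf p hr]
      simp only [e0, e1]
      push_cast
      ring
    have h8 := congrArg (Int.cast : ℤ → ℂ) h7
    push_cast at h8
    simp only [countPF]
    linear_combination -h8

/-- projective schemes -/
theorem proj_of_aff {Q : PF → Prop} (hQ : Admissible Q) {d : ℕ}
    (h : ∀ (m : ℕ) (P : Fin m → MvPolynomial (Fin d) ℤ), Q (countPF (affCount P)))
    (m : ℕ) (P : Fin m → MvPolynomial (Fin (d + 1)) ℤ)
    (hP : ∀ i, ∃ k, 1 ≤ k ∧ (P i).IsHomogeneous k) : Q (countPF (projCount P)) := by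
  have key := cone_of_aff hQ (d + 1) (fun _ => h) m P hP
  choose k hk hPk using hP
  refine hQ.divq1 (hQ.congr (fun p r hr => ?_) (hQ.add key (hQ.neg hQ.one)))
  have : Fact (p : ℕ).Prime := ⟨p.2⟩
  have h1 := aff_proj P k hk hPk (GaloisField p r)
  rw [NZAux.card_gf p hr] at h1
  have h2 := congrArg (Int.cast : ℤ → ℂ) h1
  push_cast at h2
  simp only [countPF]
  linear_combination h2

end Pool.Agent.HGD
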