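import Pool.Agent.HGD.Sys

/-!
# Double covers from systems of quadrics
-/

set_option autoImplicit false

open scoped BigOperators

namespace Pool.Agent.HGD

open Pool.Agent.HGC MvPolynomial

theorem card_affine_form {V K : Type} [AddCommGroup V] [Field K] [Module K V] [Finite V] [Finite K]
    (φ : V →ₗ[K] K) (c : K) [Decidable (φ = 0)] [Decidable (c = 0)] :
    (Nat.card K : ℤ) * Nat.card {z : V // φ z + c = 0} =
      Nat.card V * if φ = 0 then (if c = 0 then (Nat.card K : ℤ) else 0) else 1 := by
  classical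
  by_cases h : φ = 0
  · rw [if_pos h]
    split_ifs with hc
    · rw [Nat.card_congr (Equiv.subtypeUnivEquiv fun z => by rw [h, hc]; simp)]
      ring
    · have : IsEmpty {z : V // φ z + c = 0} := by
        refine ⟨fun z => hc ?_⟩
        have h5 : φ z.1 + c = 0 := z.2
        have h6 : φ z.1 = 0 := congrArg (fun ψ : V →ₗ[K] K => ψ z.1) h
        rwa [h6, zero_add] at h5
      have h7 : Nat.card {z : V // φ z + c = 0} = 0 := Nat.card_of_isEmpty
      rw [h7]
      simp
  · rw [if_neg h, mul_one]
    obtain ⟨y0, hy0⟩ := LinearMap.surjective_of_ne_zero h (-c)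
    have h1 : Nat.card {z : V // φ z + c = 0} = Nat.card {z : V // φ z = 0} := by
      refine Nat.card_congr (Equiv.subtypeEquiv (Equiv.subRight y0) fun z => ?_)
      simp only [Equiv.subRight_apply, map_sub, hy0, sub_neg_eq_add]
    rw [h1, card_ker_form, if_neg h, add_zero]

/-- equations linear in one group of variables -/
theorem lin_count {U J K : Type} [Finite U] [Fintype J] [Field K] [Finite K] (r : U → J → K)
    (s : U → K) :
    (Nat.card K : ℤ) * Nat.card {w : U × (J → K) // ∑ j, w.2 j * r w.1 j + s w.1 = 0} =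
      (Nat.card K : ℤ) ^ Fintype.card J * (Nat.card U - Nat.card {u : U // ∀ j, r u j = 0}) +
        (Nat.card K : ℤ) ^ (Fintype.card J + 1) *
          Nat.card {u : U // (∀ j, r u j = 0) ∧ s u = 0} := by
  classical
  have : Fintype K := Fintype.ofFinite K
  have : Fintype U := Fintype.ofFinite U
  let φ : U → ((J → K) →ₗ[K] K) := fun u => ∑ j, r u j • LinearMap.proj j
  have hφ : ∀ u y, φ u y = ∑ j, y j * r u j := by
    intro u y
    simp only [φ, LinearMap.sum_apply, LinearMap.smul_apply, LinearMap.proj_apply, smul_eq_mul]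
    exact Finset.sum_congr rfl fun j _ => mul_comm _ _
  have hφ0 : ∀ u, φ u = 0 ↔ ∀ j, r u j = 0 := by
    intro u
    constructor
    · intro h j
      have h1 := congrArg (fun ψ : (J → K) →ₗ[K] K => ψ (Pi.single j 1)) h
      simp only [hφ, LinearMap.zero_apply] at h1
      rw [Finset.sum_eq_single j] at h1
      · simpa using h1
      · intro k _ hk
        rw [Pi.single_eq_of_ne hk, zero_mul]
      · intro h'
        exact absurd (Finset.mem_univ j) h'
    · intro h
      simp only [φ, h, zero_smul, Finset.sum_const_zero]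
  have e1 : (Nat.card {w : U × (J → K) // ∑ j, w.2 j * r w.1 j + s w.1 = 0} : ℤ) =
      ∑ u : U, (Nat.card {y : J → K // φ u y + s u = 0} : ℤ) := by
    have h1 : Nat.card {w : U × (J → K) // ∑ j, w.2 j * r w.1 j + s w.1 = 0} =
        ∑ u : U, Nat.card {y : J → K // φ u y + s u = 0} := by
      rw [← Nat.card_sigma]
      exact Nat.card_congr
        { toFun := fun w => ⟨w.1.1, ⟨w.1.2, by rw [hφ]; exact w.2⟩⟩
          invFun := fun w => ⟨(w.1, w.2.1), by
            have := w.2.2
            rw [hφ] at this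
            exact this⟩
          left_inv := fun w => rfl
          right_inv := fun w => rfl }
    rw [h1]
    push_cast
    rfl
  have e2 : (Nat.card {u : U // ∀ j, r u j = 0} : ℤ) = ∑ u : U, if φ u = 0 then (1 : ℤ) else 0 := by
    rw [Nat.card_eq_fintype_card, Fintype.card_subtype, Finset.card_filter]
    push_cast
    exact Finset.sum_congr rfl fun u _ => by simp only [hφ0]
  have e3 : (Nat.card {u : U // (∀ j, r u j = 0) ∧ s u = 0} : ℤ) =
      ∑ u : U, if φ u = 0 then (if s u = 0 then (1 : ℤ) else 0) else 0 := by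
    rw [Nat.card_eq_fintype_card, Fintype.card_subtype, Finset.card_filter]
    push_cast
    refine Finset.sum_congr rfl fun u _ => ?_
    simp only [hφ0]
    split_ifs <;> simp_all
  have e4 : (Nat.card U : ℤ) = ∑ u : U, (1 : ℤ) := by simp [Nat.card_eq_fintype_card]
  have hcard : (Nat.card (J → K) : ℤ) = (Nat.card K : ℤ) ^ Fintype.card J := by
    rw [Nat.card_fun, Nat.card_eq_fintype_card (α := J)]
    push_cast
    rfl
  rw [e1, e2, e3, e4, Finset.mul_sum, ← Finset.sum_sub_distrib, Finset.mul_sum, Finset.mul_sum,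
    ← Finset.sum_add_distrib]
  refine Finset.sum_congr rfl fun u _ => ?_
  rw [card_affine_form, hcard]
  split_ifs <;> ring

/-- the curve `a c ^ 2 = v ^ 2` -/
theorem card_cone {K : Type} [Field K] [Finite K] (a : K) :
    (Nat.card {w : K × K // a * w.1 ^ 2 = w.2 ^ 2} : ℤ) =
      1 + ((Nat.card K : ℤ) - 1) * Nat.card {w : K // w ^ 2 = a} := by
  classical
  have : Fintype K := Fintype.ofFinite K
  have e1 : Nat.card {w : K × K // a * w.1 ^ 2 = w.2 ^ 2} =
      ∑ c : K, Nat.card {v : K // a * c ^ 2 = v ^ 2} := by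
    rw [← Nat.card_sigma]
    exact Nat.card_congr
      { toFun := fun w => ⟨w.1.1, ⟨w.1.2, w.2⟩⟩
        invFun := fun w => ⟨(w.1, w.2.1), w.2.2⟩
        left_inv := fun w => rfl
        right_inv := fun w => rfl }
  have e2 : ∀ c : K, (Nat.card {v : K // a * c ^ 2 = v ^ 2} : ℤ) =
      (if c = 0 then 1 else 0) + (1 - if c = 0 then 1 else 0) * Nat.card {w : K // w ^ 2 = a} := by
    intro c
    split_ifs with hc
    · subst hc
      have : Nat.card {v : K // a * 0 ^ 2 = v ^ 2} = 1 := by
        rw [Nat.card_eq_one_iff_unique]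
        refine ⟨⟨fun x y => ?_⟩, ⟨⟨0, by simp⟩⟩⟩
        have hx : x.1 = 0 := by
          have := x.2
          simpa using this.symm
        have hy : y.1 = 0 := by
          have := y.2
          simpa using this.symm
        exact Subtype.ext (hx.trans hy.symm)
      rw [this]
      simp
    · have : Nat.card {v : K // a * c ^ 2 = v ^ 2} = Nat.card {w : K // w ^ 2 = a} := by
        refine Nat.card_congr (Equiv.subtypeEquiv (Equiv.divRight₀ c hc) fun v => ?_)
        rw [Equiv.divRight₀_apply, div_pow, div_eq_iff (pow_ne_zero 2 hc)]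
        exact eq_comm
      rw [this]
      simp
  rw [e1]
  push_cast
  rw [Finset.sum_congr rfl fun c _ => e2 c, Finset.sum_add_distrib, ← Finset.sum_mul,
    Finset.sum_sub_distrib]
  simp [Nat.card_eq_fintype_card]

section

variable {d : ℕ}

/-- the terms of an equation as polynomials -/
noncomputable def tp {V ι : Type} (u : V → ι) (k : Fin (d + 1)) :
    Option (Fin (d + 1) × V) → MvPolynomial ι ℤ
  | none => 0
  | some w => if w.1 = k then X (u w.2) else 0

theorem sum_tp {V ι : Type} (u : V → ι) {K : Type} [Field K] (z : Fin (d + 1) → K) (x : ι → K)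
    (o : Option (Fin (d + 1) × V)) :
    ∑ k, z k * aeval x (tp u k o) = val z (fun v => x (u v)) o := by
  rcases o with _ | w
  · simp [tp, val]
  · simp only [tp, val]
    rw [Finset.sum_eq_single w.1 (fun k _ hk => ?_) (fun h => absurd (Finset.mem_univ _) h)]
    · rw [if_pos rfl, aeval_X]
    · rw [if_neg (fun h => hk h.symm), map_zero, mul_zero]

theorem tp_homog {V ι : Type} (u : V → ι) (k : Fin (d + 1)) (o : Option (Fin (d + 1) × V)) :
    (tp u k o).IsHomogeneous 1 := by
  rcases o with _ | w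
  · exact isHomogeneous_zero _ _ _
  · simp only [tp]
    split_ifs
    · exact isHomogeneous_X _ _
    · exact isHomogeneous_zero _ _ _

/-- the variables of the quadrics -/
abbrev VQ (V J : Type) : Type := (V ⊕ J) ⊕ Unit

/-- the quadrics -/
noncomputable def qs {V J : Type} [Fintype J] (tm : J → Fin 3 → Option (Fin (d + 1) × V))
    (v1 vf : V) (k : Fin (d + 1)) : MvPolynomial (VQ V J) ℤ :=
  ∑ j, X (Sum.inl (Sum.inr j)) * ∑ l, tp (fun v => Sum.inl (Sum.inl v)) k (tm j l) +
    if k = 0 then X (Sum.inl (Sum.inl v1)) * X (Sum.inl (Sum.inl vf)) - X (Sum.inr ()) * X (Sum.inr ())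
    else 0

theorem qs_homog {V J : Type} [Fintype J] (tm : J → Fin 3 → Option (Fin (d + 1) × V))
    (v1 vf : V) (k : Fin (d + 1)) : (qs tm v1 vf k).IsHomogeneous 2 := by
  unfold qs
  refine IsHomogeneous.add ?_ ?_
  · refine IsHomogeneous.sum _ _ _ fun j _ => ?_
    exact IsHomogeneous.mul (m := 1) (n := 1) (isHomogeneous_X _ _)
      (IsHomogeneous.sum _ _ _ fun l _ => tp_homog _ _ _)
  · split_ifs
    · exact IsHomogeneous.sub (IsHomogeneous.mul (m := 1) (n := 1) (isHomogeneous_X _ _)
        (isHomogeneous_X _ _)) (IsHomogeneous.mul (m := 1) (n := 1) (isHomogeneous_X _ _)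
        (isHomogeneous_X _ _))
    · exact isHomogeneous_zero _ _ _

theorem sum_qs {V J : Type} [Fintype J] (tm : J → Fin 3 → Option (Fin (d + 1) × V))
    (v1 vf : V) {K : Type} [Field K] (z : Fin (d + 1) → K) (x : VQ V J → K) :
    ∑ k, z k * aeval x (qs tm v1 vf k) =
      ∑ j, x (Sum.inl (Sum.inr j)) * ∑ l, val z (fun v => x (Sum.inl (Sum.inl v))) (tm j l) +
        z 0 * (x (Sum.inl (Sum.inl v1)) * x (Sum.inl (Sum.inl vf)) -
          x (Sum.inr ()) * x (Sum.inr ())) := by
  unfold qs
  simp only [map_add, mul_add, Finset.sum_add_distrib]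
  congr 1
  · simp only [map_sum, map_mul, aeval_X, Finset.mul_sum]
    rw [Finset.sum_comm]
    refine Finset.sum_congr rfl fun j _ => ?_
    rw [Finset.sum_comm]
    refine Finset.sum_congr rfl fun l _ => ?_
    rw [← sum_tp (fun v => (Sum.inl (Sum.inl v) : VQ V J)) z x (tm j l), Finset.mul_sum]
    refine Finset.sum_congr rfl fun k _ => ?_
    ring
  · rw [Finset.sum_eq_single 0 (fun k _ hk => ?_) (fun h => absurd (Finset.mem_univ _) h)]
    · rw [if_pos rfl]
      simp
    · rw [if_neg hk, map_zero, mul_zero]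

/-- the count of zeros at `z = (1, t)` -/
theorem zc_qs {V J : Type} [Fintype V] [Fintype J] (tm : J → Fin 3 → Option (Fin (d + 1) × V))
    (v1 vf : V) {K : Type} [Field K] [Finite K] (t : Fin d → K) (gv : V → K) (h1 : gv v1 = 1)
    (hsol : ∀ u : V → K, (∀ j, ∑ l, val (Fin.cons 1 t : Fin (d + 1) → K) u (tm j l) = 0) ↔
      ∀ v, u v = gv v * u v1) :
    (zc (qs tm v1 vf) (Fin.cons 1 t : Fin (d + 1) → K) : ℤ) =
      (Nat.card K : ℤ) ^ Fintype.card J * ((Nat.card K : ℤ) ^ Fintype.card V - Nat.card K + 1 +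
        ((Nat.card K : ℤ) - 1) * Nat.card {w : K // w ^ 2 = gv vf}) := by
  classical
  have : Fintype K := Fintype.ofFinite K
  let r : (V → K) × K → J → K := fun u j => ∑ l, val (Fin.cons 1 t : Fin (d + 1) → K) u.1 (tm j l)
  let s : (V → K) × K → K := fun u => u.1 v1 * u.1 vf - u.2 * u.2
  have e0 : zc (qs tm v1 vf) (Fin.cons 1 t : Fin (d + 1) → K) =
      Nat.card {w : ((V → K) × K) × (J → K) // ∑ j, w.2 j * r w.1 j + s w.1 = 0} := by
    unfold zc
    let e : (VQ V J → K) ≃ ((V → K) × K) × (J → K) :=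
      { toFun := fun x => ((fun v => x (Sum.inl (Sum.inl v)), x (Sum.inr ())),
          fun j => x (Sum.inl (Sum.inr j)))
        invFun := fun w => Sum.elim (Sum.elim w.1.1 w.2) fun _ => w.1.2
        left_inv := fun x => by
          funext i
          rcases i with (v | j) | u <;> rfl
        right_inv := fun w => rfl }
    refine Nat.card_congr (Equiv.subtypeEquiv e fun x => ?_)
    rw [sum_qs, Fin.cons_zero, one_mul]
    rfl
  have e1 : Nat.card {u : (V → K) × K // ∀ j, r u j = 0} = Nat.card K * Nat.card K := by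
    rw [← Nat.card_prod]
    refine Nat.card_congr
      { toFun := fun u => (u.1.1 v1, u.1.2)
        invFun := fun w => ⟨(fun v => gv v * w.1, w.2), (hsol _).2 fun v => ?_⟩
        left_inv := fun u => ?_
        right_inv := fun w => ?_ }
    · show gv v * w.1 = gv v * (gv v1 * w.1)
      rw [h1, one_mul]
    · apply Subtype.ext
      refine Prod.ext ?_ rfl
      funext v
      exact ((hsol u.1.1).1 u.2 v).symm
    · refine Prod.ext ?_ rfl
      show gv v1 * w.1 = w.1
      rw [h1, one_mul]
  have e2 : Nat.card {u : (V → K) × K // (∀ j, r u j = 0) ∧ s u = 0} =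
      Nat.card {w : K × K // gv vf * w.1 ^ 2 = w.2 ^ 2} := by
    refine Nat.card_congr
      { toFun := fun u => ⟨(u.1.1 v1, u.1.2), ?_⟩
        invFun := fun w => ⟨(fun v => gv v * w.1.1, w.1.2), (hsol _).2 fun v => ?_, ?_⟩
        left_inv := fun u => ?_
        right_inv := fun w => ?_ }
    · have h2 := (hsol u.1.1).1 u.2.1 vf
      have h3 : u.1.1 v1 * u.1.1 vf - u.1.2 * u.1.2 = 0 := u.2.2
      rw [h2] at h3
      show gv vf * u.1.1 v1 ^ 2 = u.1.2 ^ 2
      linear_combination h3
    · show gv v * w.1.1 = gv v * (gv v1 * w.1.1)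
      rw [h1, one_mul]
    · show gv v1 * w.1.1 * (gv vf * w.1.1) - w.1.2 * w.1.2 = 0
      rw [h1]
      linear_combination w.2
    · apply Subtype.ext
      refine Prod.ext ?_ rfl
      funext v
      exact ((hsol u.1.1).1 u.2.1 v).symm
    · apply Subtype.ext
      refine Prod.ext ?_ rfl
      show gv v1 * w.1.1 = w.1.1
      rw [h1, one_mul]
  have e3 := lin_count r s
  rw [← e0, e1, e2, card_cone, Nat.card_prod, Nat.card_fun] at e3
  have hq : (Nat.card K : ℤ) ≠ 0 := by
    have : 0 < Nat.card K := Nat.card_pos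
    exact_mod_cast this.ne'
  apply mul_left_cancel₀ hq
  rw [e3]
  push_cast
  simp only [Nat.card_eq_fintype_card]
  ring

end

/-- double covers from systems of `d + 1` quadrics -/
theorem dbl_of_quad {Q : PF → Prop} (hQ : Admissible Q) {d : ℕ}
    (h : ∀ (n : ℕ) (P : Fin (d + 1) → MvPolynomial (Fin n) ℤ), (∀ k, (P k).IsHomogeneous 2) →
      Q (countPF (projCount P))) (f : MvPolynomial (Fin d) ℤ) : Q (countPF (dblCount f)) := by
  classical
  -- cones, with general index types
  have h1 : ∀ {ι : Type} [Fintype ι] (P : Fin (d + 1) → MvPolynomial ι ℤ),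
      (∀ k, (P k).IsHomogeneous 2) → Q (relPF (fun _ _ z => (zc P z : ℕ) : RF (d + 1))) := by
    intro ι _ P hP
    let e := Fintype.equivFin ι
    have hP' : ∀ k, (rename e (P k)).IsHomogeneous 2 := fun k =>
      (hP k).rename_isHomogeneous
    have h2 := h _ (fun k => rename e (P k)) hP'
    have h3 := hQ.congr (g := fun p r => (((p : ℕ) : ℂ) ^ r - 1) *
      countPF (projCount fun k => rename e (P k)) p r)
      (fun p r _ => by ring) (hQ.add (hQ.mulq h2) (hQ.neg h2))
    have h4 : Q (countPF (affCount fun k => rename e (P k))) := by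
      refine hQ.congr (fun p r hr => ?_) (hQ.add hQ.one h3)
      have : Fact (p : ℕ).Prime := ⟨p.2⟩
      have h1 := aff_proj (fun k => rename e (P k)) (fun _ => 2) (fun _ => by norm_num) hP'
        (GaloisField p r)
      rw [NZAux.card_gf p hr] at h1
      have h2 := congrArg (Int.cast : ℤ → ℂ) h1
      push_cast at h2
      simp only [countPF]
      linear_combination -h2
    have hpow : ∀ (n : ℕ) {f : PF}, Q f → Q fun p r => (((p : ℕ) : ℂ) ^ r) ^ n * f p r := by
      intro n f hf
      induction n with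
      | zero => exact hQ.congr (fun p r _ => by ring) hf
      | succ n ih => exact hQ.congr (fun p r _ => by ring) (hQ.mulq ih)
    have h5 := hQ.congr (g := fun p r => (((p : ℕ) : ℂ) ^ r - 1) *
      countPF (affCount fun k => rename e (P k)) p r)
      (fun p r _ => by ring) (hQ.add (hQ.mulq h4) (hQ.neg h4))
    refine hQ.divq (hQ.congr (fun p r hr => ?_) (hQ.add
      (NZAux.adm_pow hQ (Fintype.card ι + (d + 1))) (hpow (d + 1) h5)))
    have : Fact (p : ℕ).Prime := ⟨p.2⟩
    have h6 := cayley P (GaloisField p r)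
    have h7 : affC P (GaloisField p r) = affCount (fun k => rename e (P k)) (GaloisField p r) := by
      unfold affC affCount
      refine Nat.card_congr (Equiv.subtypeEquiv (Equiv.arrowCongr e (Equiv.refl _)) fun x => ?_)
      refine forall_congr' fun k => ?_
      rw [aeval_rename]
      have : (Equiv.arrowCongr e (Equiv.refl (GaloisField p r))) x ∘ e = x := by
        funext i
        simp
      rw [this]
    rw [h7, NZAux.card_gf p hr] at h6
    have h8 := congrArg (Int.cast : ℤ → ℂ) h6
    push_cast at h8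
    simp only [countPF, relPF]
    linear_combination -h8
  -- the linear system
  obtain ⟨F, hF, hP⟩ := PL.exists_good (n := d) (m := 1) fun _ => f
  have hf : f ∈ F := hP 0
  let P0 : Fin 0 → MvPolynomial (Fin d) ℤ := fun i => i.elim0
  let tm := PL.tm P0 F hF.2.1 (fun i => i.elim0)
  let v1 : F := ⟨1, hF.1⟩
  let vf : F := ⟨f, hf⟩
  have hsol : ∀ (K : Type) [Field K] (t : Fin d → K) (u : F → K),
      (∀ j, ∑ l, val (Fin.cons 1 t : Fin (d + 1) → K) u (tm j l) = 0) ↔
        ∀ v, u v = aeval t v.1 * u v1 := by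
    intro K _ t u
    constructor
    · intro hu v
      exact PL.value_eq P0 F hF.2.1 (fun i => i.elim0) hF t u hu v.1 (hF.2.2 _ v.2) v.2
    · intro hu
      rw [PL.sys_iff]
      refine ⟨fun q => ?_, fun q => ?_, ?_, fun i => i.elim0⟩
      · have h1 : aeval t q.1.1.1 + aeval t q.1.2.1.1 + aeval t q.1.2.2.1 = (0 : K) := by
          rw [← map_add, ← map_add, q.2, map_zero]
        rw [hu q.1.1, hu q.1.2.1, hu q.1.2.2]
        linear_combination u v1 * h1
      · have h1 : t q.1.1 * aeval t q.1.2.1.1 + aeval t q.1.2.2.1 = (0 : K) := by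
          have h5 : aeval t (X q.1.1 * q.1.2.1.1 + q.1.2.2.1) = (0 : K) := by rw [q.2, map_zero]
          rwa [map_add, map_mul, aeval_X] at h5
        rw [hu q.1.2.1, hu q.1.2.2]
        linear_combination u v1 * h1
      · rw [hu]
        simp
  -- the part `z_0 ≠ 0`
  let R := qs tm v1 vf
  let R0 : Fin (d + 1) → MvPolynomial (VQ F (PL.Jt F 0)) ℤ := Function.update R 0 0
  have hR0 : ∀ k, (R0 k).IsHomogeneous 2 := by
    intro k
    by_cases hk : k = 0
    · subst hk
      simp only [R0, Function.update_self]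
      exact isHomogeneous_zero _ _ _
    · simp only [R0, Function.update_of_ne hk]
      exact qs_homog _ _ _ _
  have r1 := h1 R (qs_homog tm v1 vf)
  have r2 := h1 R0 hR0
  have hz : ∀ (K : Type) [Field K] (c : K) (t : Fin d → K),
      zc R0 (Fin.cons c t : Fin (d + 1) → K) = zc R (Fin.cons 0 t) := by
    intro K _ c t
    unfold zc
    refine Nat.card_congr (Equiv.subtypeEquivRight fun x => ?_)
    rw [Fin.sum_univ_succ, Fin.sum_univ_succ]
    simp [R0]
  have r0 : Q (relPF (fun _ _ t => (zc R (Fin.cons 0 t) : ℕ) : RF d)) := by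
    refine hQ.divq (hQ.congr (fun p r hr => ?_) r2)
    have : Fact (p : ℕ).Prime := ⟨p.2⟩
    simp only [relPF]
    rw [tot_cons _ (fun c z hc => by rw [zc_smul _ _ hc]), NZAux.card_gf p hr]
    simp only [hz]
    push_cast
    ring
  have r3 : Q (relPF (fun _ _ t => (zc R (Fin.cons 1 t) : ℕ) : RF d)) := by
    refine hQ.divq1 (hQ.congr (fun p r hr => ?_) (hQ.add r1 (hQ.neg r0)))
    have : Fact (p : ℕ).Prime := ⟨p.2⟩
    simp only [relPF]
    rw [tot_cons _ (fun c z hc => by rw [zc_smul _ _ hc]), NZAux.card_gf p hr]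
    push_cast
    ring
  -- the double cover
  have r4 : Q (fun p r => ((((p : ℕ) : ℂ) ^ r) ^ Fintype.card F - ((p : ℕ) : ℂ) ^ r + 1) *
      (((p : ℕ) : ℂ) ^ r) ^ d) := by
    have a1 := NZAux.adm_pow hQ (Fintype.card F + d)
    have a2 := NZAux.adm_pow hQ (d + 1)
    have a3 := NZAux.adm_pow hQ d
    refine hQ.congr (fun p r _ => ?_) (hQ.add (hQ.add a1 (hQ.neg a2)) a3)
    ring
  refine hQ.divq1 (NZAux.adm_divq_pow hQ (Fintype.card (PL.Jt F 0)) ?_)
  have hpow : ∀ (n : ℕ) {f : PF}, Q f → Q fun p r => (((p : ℕ) : ℂ) ^ r) ^ n * f p r := by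
    intro n f hf
    induction n with
    | zero => exact hQ.congr (fun p r _ => by ring) hf
    | succ n ih => exact hQ.congr (fun p r _ => by ring) (hQ.mulq ih)
  refine hQ.congr (fun p r hr => ?_) (hQ.add r3
    (hQ.neg (hpow (Fintype.card (PL.Jt F 0)) r4)))
  have : Fact (p : ℕ).Prime := ⟨p.2⟩
  have : Fintype (GaloisField p r) := Fintype.ofFinite _
  have h2 : (dblCount f (GaloisField p r) : ℤ) =
      ∑ t : Fin d → GaloisField p r, (Nat.card {w : GaloisField p r // w ^ 2 = aeval t f} : ℤ) := by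
    have h3 : dblCount f (GaloisField p r) = ∑ t : Fin d → GaloisField p r,
        Nat.card {w : GaloisField p r // w ^ 2 = aeval t f} := by
      unfold dblCount
      rw [← Nat.card_sigma]
      exact Nat.card_congr
        { toFun := fun v => ⟨v.1.2, ⟨v.1.1, v.2⟩⟩
          invFun := fun v => ⟨(v.2.1, v.1), v.2.2⟩
          left_inv := fun v => rfl
          right_inv := fun v => rfl }
    rw [h3]
    push_cast
    rfl
  have h3 : ∀ t : Fin d → GaloisField p r, (zc R (Fin.cons 1 t : Fin (d + 1) → GaloisField p r) : ℤ) =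
      ((p : ℕ) ^ r : ℤ) ^ Fintype.card (PL.Jt F 0) * (((p : ℕ) ^ r : ℤ) ^ Fintype.card F -
        (p : ℕ) ^ r + 1 + (((p : ℕ) ^ r : ℤ) - 1) *
          Nat.card {w : GaloisField p r // w ^ 2 = aeval t f}) := by
    intro t
    have h4 := zc_qs tm v1 vf t (fun v => aeval t v.1) (map_one _) (hsol _ t)
    rw [NZAux.card_gf p hr] at h4
    rw [h4]
    push_cast
    rfl
  have h5 : (tot fun t : Fin d → GaloisField p r =>
      (zc R (Fin.cons 1 t : Fin (d + 1) → GaloisField p r) : ℤ)) =
      ((p : ℕ) ^ r : ℤ) ^ Fintype.card (PL.Jt F 0) * ((((p : ℕ) ^ r : ℤ) ^ Fintype.card F -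
        (p : ℕ) ^ r + 1) * ((p : ℕ) ^ r : ℤ) ^ d + (((p : ℕ) ^ r : ℤ) - 1) *
          dblCount f (GaloisField p r)) := by
    rw [tot_eq, Finset.sum_congr rfl fun t _ => h3 t, ← Finset.mul_sum, Finset.sum_add_distrib,
      ← Finset.mul_sum, h2, Finset.sum_const, Finset.card_univ, Fintype.card_fun,
      Fintype.card_fin, ← Nat.card_eq_fintype_card (α := GaloisField p r), NZAux.card_gf p hr]
    simp only [nsmul_eq_mul]
    push_cast
    ring
  simp only [relPF, countPF]
  rw [h5]
  push_cast
  ring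

end Pool.Agent.HGD
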