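import Pool.Agent.HGD.Ctl

/-!
# Continuation of zeta functions: dimension of schemes and format of trilinear forms

For every `d` the zeta functions (and their weight parts) of the closed subschemes of affine and of
projective `d`-space over `ℤ` are controlled by those of the trilinear forms `∑ x_i y_j z_k` with
`d + 1` variables `z`, the sum over a set of triples in which every `x_i` and every `y_j` occurs
at most three times; and the zeta functions of all trilinear forms `∑ T_{ijk} x_i y_j z_k` with
`d + 1` variables `z` and integers `T_{ijk}` are controlled by those of the hypersurfaces in affine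
`d`-space.
-/

set_option autoImplicit false

namespace Pool.Agent.HGD.FormatDim

open Pool.Agent.HGC Pool.Agent.HGD

/-- the point counts of the hypersurfaces `f = 0` in affine `d`-space, `f` with integer coefficients -/
def Hyp (d : ℕ) : Set PF :=
  {g | ∃ f : MvPolynomial (Fin d) ℤ, g = countPF (affCount fun _ : Fin 1 => f)}

/-- the point counts of the closed subschemes of affine and of projective `d`-space over `ℤ` -/
def Sch (d : ℕ) : Set PF :=
  {g | (∃ (m : ℕ) (P : Fin m → MvPolynomial (Fin d) ℤ), g = countPF (affCount P)) ∨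
    ∃ (m : ℕ) (P : Fin m → MvPolynomial (Fin (d + 1)) ℤ),
      (∀ i, ∃ k, 1 ≤ k ∧ (P i).IsHomogeneous k) ∧ g = countPF (projCount P)}

/-- the point counts of the forms `∑ x_i y_j z_k` with `d + 1` variables `z`, the sum over a set of
triples in which every `x_i` and every `y_j` occurs at most three times -/
def Hyg (d : ℕ) : Set PF :=
  {g | ∃ (a b : ℕ) (H : Finset (Fin a × Fin b × Fin (d + 1))), XYDeg 3 H ∧
    g = countPF (cubicCount H)}

/-- the point counts of the trilinear forms with `d + 1` variables `z` and integer coefficients -/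
def Tri (d : ℕ) : Set PF :=
  {g | ∃ (a b : ℕ) (T : Fin a → Fin b → Fin (d + 1) → ℤ), g = countPF (triC T)}

theorem result (d : ℕ) :
    (∀ f ∈ Sch d, Controlled (Hyg d) f) ∧ (∀ f ∈ Tri d, Controlled (Hyp d) f) ∧
      [∀ f ∈ Hyp d, Continues f, ∀ f ∈ Sch d, Continues f, ∀ f ∈ Hyg d, Continues f,
        ∀ f ∈ Tri d, Continues f].TFAE := by
  have h1 : ∀ f ∈ Sch d, Controlled (Hyg d) f := by
    have hH : ∀ (a b : ℕ) (H : Finset (Fin a × Fin b × Fin (d + 1))), XYDeg 3 H →
        CtrlBy (Hyg d) (countPF (cubicCount H)) := fun a b H h => ctrlBy_mem ⟨a, b, H, h, rfl⟩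
    have key : ∀ (m : ℕ) (P : Fin m → MvPolynomial (Fin d) ℤ),
        CtrlBy (Hyg d) (countPF (affCount P)) := fun m P =>
      aff_of_cubic (admissible_ctrlBy _) hH P
    rintro f (⟨m, P, rfl⟩ | ⟨m, P, hP, rfl⟩)
    · exact controlled_of d (fun K _ _ => affCount_le P K) (key m P)
    · exact controlled_of (d + 1) (fun K _ _ => projCount_le P hP K)
        (proj_of_aff (admissible_ctrlBy _) key m P hP)
  have h2 : ∀ f ∈ Tri d, Controlled (Hyp d) f := by
    rintro f ⟨a, b, T, rfl⟩
    refine controlled_of _ (fun K _ _ => triC_le T K) ?_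
    refine cubic_of_rel (admissible_ctrlBy _) T ?_
    exact tri_of_rel (admissible_ctrlBy _) (d + 1) (fun _ =>
      rel_one_of_hyp (admissible_ctrlBy _) fun f => ctrlBy_mem (B := Hyp d) ⟨f, rfl⟩) a b T
  have hc : ∀ {B : Set PF} {f : PF}, Controlled B f → (∀ g ∈ B, Continues g) → Continues f := by
    rintro B f ⟨L, k1, k2, -⟩ h
    exact k2 fun g hg => h g (k1 g hg)
  refine ⟨h1, h2, ?_⟩
  tfae_have 1 → 4 := fun h f hf => hc (h2 f hf) h
  tfae_have 4 → 3 := by
    rintro h _ ⟨a, b, H, -, rfl⟩
    refine h _ ⟨a, b, ten H, ?_⟩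
    exact NZAux.countPF_congr fun K _ => cubic_ten H K
  tfae_have 3 → 2 := fun h f hf => hc (h1 f hf) h
  tfae_have 2 → 1 := by
    rintro h _ ⟨f, rfl⟩
    exact h _ (Or.inl ⟨1, fun _ => f, rfl⟩)
  tfae_finish

end Pool.Agent.HGD.FormatDim
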