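import Pool.Agent.HGD.Rel
import Pool.Agent.HGC.Compile

/-!
# Linear systems with few terms as hypergraphs

A system of linear equations in unknowns indexed by `V`, with at most three terms in each equation and
all coefficients in `{z_0, …, z_d}`, is written as a hypergraph in which every `x`-vertex and every
`y`-vertex has degree at most three.
-/

set_option autoImplicit false

open scoped BigOperators

namespace Pool.Agent.HGD

open Pool.Agent.HGC

/-- Every `x`-vertex and every `y`-vertex lies in at most `d` edges. -/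
def XYDeg {α β γ : Type} (d : ℕ) (H : Finset (α × β × γ)) : Prop :=
  (∀ i, {e | e ∈ H ∧ e.1 = i}.ncard ≤ d) ∧ ∀ j, {e | e ∈ H ∧ e.2.1 = j}.ncard ≤ d

open Classical in
/-- the tensor of a hypergraph -/
noncomputable def ten {α β γ : Type} (H : Finset (α × β × γ)) (i : α) (j : β) (k : γ) : ℤ :=
  if (i, j, k) ∈ H then 1 else 0

theorem cubic_ten {α β γ : Type} [Fintype α] [Fintype β] [Fintype γ] (H : Finset (α × β × γ))
    (K : Type) [Field K] : cubicCount H K = triC (ten H) K := by
  classical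
  unfold cubicCount triC
  refine Nat.card_congr (Equiv.subtypeEquivRight fun v => ?_)
  have h1 : ∑ i, ∑ j, ∑ k, ((ten H i j k : ℤ) : K) * v.1 i * v.2.1 j * v.2.2 k =
      ∑ e ∈ H, v.1 e.1 * v.2.1 e.2.1 * v.2.2 e.2.2 := by
    have h2 : ∑ e ∈ H, v.1 e.1 * v.2.1 e.2.1 * v.2.2 e.2.2 =
        ∑ e : α × β × γ, if e ∈ H then v.1 e.1 * v.2.1 e.2.1 * v.2.2 e.2.2 else 0 := by
      rw [Finset.sum_ite_mem, Finset.univ_inter]
    rw [h2, Fintype.sum_prod_type]
    refine Finset.sum_congr rfl fun i _ => ?_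
    rw [Fintype.sum_prod_type]
    refine Finset.sum_congr rfl fun j _ => Finset.sum_congr rfl fun k _ => ?_
    unfold ten
    split_ifs <;> simp
  rw [h1]

theorem sum_ten {α β γ : Type} [Fintype α] [Fintype β] [Fintype γ] (H : Finset (α × β × γ))
    {K : Type} [Field K] (x : α → K) (y : β → K) (z : γ → K) :
    ∑ e ∈ H, x e.1 * y e.2.1 * z e.2.2 = ∑ j, y j * ∑ i, mat (ten H) z j i * x i := by
  classical
  have h2 : ∑ e ∈ H, x e.1 * y e.2.1 * z e.2.2 =
      ∑ e : α × β × γ, if e ∈ H then x e.1 * y e.2.1 * z e.2.2 else 0 := by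
    rw [Finset.sum_ite_mem, Finset.univ_inter]
  rw [h2, Fintype.sum_prod_type]
  simp_rw [Fintype.sum_prod_type]
  rw [Finset.sum_comm]
  refine Finset.sum_congr rfl fun j _ => ?_
  rw [Finset.mul_sum]
  refine Finset.sum_congr rfl fun i _ => ?_
  unfold mat ten
  rw [Finset.sum_mul, Finset.mul_sum]
  refine Finset.sum_congr rfl fun k _ => ?_
  split_ifs
  · push_cast; ring
  · push_cast; ring

/-- the linear equations of the `y`-vertices -/
theorem row_iff {α β γ : Type} [Fintype α] [Fintype β] [Fintype γ] (H : Finset (α × β × γ))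
    {K : Type} [Field K] (z : γ → K) (x : α → K) :
    (∀ j, ∑ i, mat (ten H) z j i * x i = 0) ↔
      ∀ y : β → K, ∑ e ∈ H, x e.1 * y e.2.1 * z e.2.2 = 0 := by
  classical
  constructor
  · intro h y
    rw [sum_ten, Finset.sum_eq_zero fun j _ => by rw [h j, mul_zero]]
  · intro h j
    have h1 := h (Pi.single j 1)
    rw [sum_ten, Finset.sum_eq_single j] at h1
    · simpa using h1
    · intro j' _ hj'
      rw [Pi.single_eq_of_ne hj', zero_mul]
    · intro h'
      exact absurd (Finset.mem_univ j) h'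

section

variable {Q : PF → Prop} (hQ : Admissible Q) {d : ℕ}

theorem tr_xyDeg {α β γ α' β' γ' : Type} (a : α ≃ α') (b : β ≃ β') (c : γ ≃ γ') {d : ℕ}
    {H : Finset (α × β × γ)} (h : XYDeg d H) : XYDeg d (NZAux.tr a b c H) := by
  refine ⟨fun i => ?_, fun j => ?_⟩
  · refine le_trans (le_of_eq ?_) (h.1 (a.symm i))
    refine NZAux.tr_deg H _ fun x => ?_
    show a x.1 = i ↔ x.1 = a.symm i
    rw [Equiv.eq_symm_apply]
  · refine le_trans (le_of_eq ?_) (h.2 (b.symm j))
    refine NZAux.tr_deg H _ fun x => ?_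
    show b x.2.1 = j ↔ x.2.1 = b.symm j
    rw [Equiv.eq_symm_apply]

/-- transport to `Fin` -/
theorem cubic_fin2 {N : ℕ}
    (hH : ∀ (a b : ℕ) (H : Finset (Fin a × Fin b × Fin N)), XYDeg 3 H → Q (countPF (cubicCount H)))
    {α β : Type} [Fintype α] [Fintype β] (H : Finset (α × β × Fin N)) (h : XYDeg 3 H) :
    Q (countPF (cubicCount H)) := by
  have h1 := hH _ _ _ (tr_xyDeg (Fintype.equivFin α) (Fintype.equivFin β) (Equiv.refl _) h)
  rw [← NZAux.countPF_congr fun K _ => NZAux.tr_cubic (Fintype.equivFin α) (Fintype.equivFin β)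
    (Equiv.refl _) H K]
  exact h1

include hQ

/-- from the cubic form to the kernels -/
theorem rel_of_cubic {α β : Type} [Fintype α] [Fintype β] {N : ℕ} (T : α → β → Fin N → ℤ)
    (h : Q (countPF (triC T))) : Q (relPF (fun _ _ z => (kerN (mat T z) : ℕ) : RF N)) := by
  refine hQ.divq1 (NZAux.adm_divq_pow hQ (Fintype.card β) ?_)
  refine hQ.congr (fun p r hr => ?_) (hQ.add (hQ.mulq h)
    (hQ.neg (NZAux.adm_pow hQ (Fintype.card α + Fintype.card β + N))))
  have : Fact (p : ℕ).Prime := ⟨p.2⟩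
  have h1 := triC_eq T (GaloisField p r)
  rw [NZAux.card_gf p hr, Fintype.card_fin] at h1
  have h2 := congrArg (Int.cast : ℤ → ℂ) h1
  push_cast at h2
  simp only [countPF, relPF]
  linear_combination h2

/-- from the kernels to the cubic form -/
theorem cubic_of_rel {α β : Type} [Fintype α] [Fintype β] {N : ℕ} (T : α → β → Fin N → ℤ)
    (h : Q (relPF (fun _ _ z => (kerN (mat T z) : ℕ) : RF N))) : Q (countPF (triC T)) := by
  have hpow : ∀ (n : ℕ) {f : PF}, Q f → Q fun p r => (((p : ℕ) : ℂ) ^ r) ^ n * f p r := by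
    intro n f hf
    induction n with
    | zero => exact hQ.congr (fun p r _ => by ring) hf
    | succ n ih => exact hQ.congr (fun p r _ => by ring) (hQ.mulq ih)
  refine hQ.divq ?_
  have h3 : Q fun p r => (((p : ℕ) : ℂ) ^ r - 1) *
      relPF (fun _ _ z => (kerN (mat T z) : ℕ) : RF N) p r :=
    hQ.congr (fun p r _ => by ring) (hQ.add (hQ.mulq h) (hQ.neg h))
  refine hQ.congr (fun p r hr => ?_) (hQ.add
    (NZAux.adm_pow hQ (Fintype.card α + Fintype.card β + N)) (hpow (Fintype.card β) h3))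
  have : Fact (p : ℕ).Prime := ⟨p.2⟩
  have h1 := triC_eq T (GaloisField p r)
  rw [NZAux.card_gf p hr, Fintype.card_fin] at h1
  have h2 := congrArg (Int.cast : ℤ → ℂ) h1
  push_cast at h2
  simp only [countPF, relPF]
  linear_combination -h2

/-- the part `z_0 = 1` -/
theorem rel_affine {α β : Type} [Fintype α] [Fintype β]
    (hH : ∀ (a b : ℕ) (H : Finset (Fin a × Fin b × Fin (d + 1))), XYDeg 3 H →
      Q (countPF (cubicCount H)))
    (H : Finset (α × β × Fin (d + 1))) (h : XYDeg 3 H) :
    Q (relPF (fun _ _ t => (kerN (mat (ten H) (Fin.cons 1 t)) : ℕ) : RF d)) := by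
  classical
  set H0 : Finset (α × β × Fin (d + 1)) := H.filter fun e => e.2.2 ≠ 0 with hH0
  have hdeg0 : XYDeg 3 H0 := by
    have key : ∀ P : α × β × Fin (d + 1) → Prop,
        {e | e ∈ H0 ∧ P e}.ncard ≤ {e | e ∈ H ∧ P e}.ncard := by
      intro P
      refine Set.ncard_le_ncard ?_ ?_
      · rintro e ⟨he, hp⟩
        exact ⟨(Finset.mem_filter.1 he).1, hp⟩
      · exact (Finset.finite_toSet H).subset fun e he => he.1
    exact ⟨fun i => (key _).trans (h.1 i), fun j => (key _).trans (h.2 j)⟩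
  have r1 : ∀ H' : Finset (α × β × Fin (d + 1)), XYDeg 3 H' →
      Q (relPF (fun _ _ z => (kerN (mat (ten H') z) : ℕ) : RF (d + 1))) := by
    intro H' h'
    refine rel_of_cubic hQ (ten H') ?_
    rw [← NZAux.countPF_congr fun K _ => cubic_ten H' K]
    exact cubic_fin2 hH H' h'
  have hsc : ∀ (H' : Finset (α × β × Fin (d + 1))) (K : Type) [Field K] (c : K)
      (z : Fin (d + 1) → K), c ≠ 0 → (kerN (mat (ten H') (c • z)) : ℤ) = kerN (mat (ten H') z) := by
    intro H' K _ c z hc
    have : mat (ten H') (c • z) = fun j i => c * mat (ten H') z j i := by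
      funext j i
      exact mat_smul _ c z j i
    rw [this, kerN_smul _ hc]
  have hm : ∀ (K : Type) [Field K] (c : K) (t : Fin d → K),
      mat (ten H0) (Fin.cons c t : Fin (d + 1) → K) = mat (ten H) (Fin.cons 0 t) := by
    intro K _ c t
    funext j i
    unfold mat ten
    rw [Fin.sum_univ_succ, Fin.sum_univ_succ]
    simp [hH0]
  have r0 : Q (relPF (fun _ _ t => (kerN (mat (ten H) (Fin.cons 0 t)) : ℕ) : RF d)) := by
    refine hQ.divq (hQ.congr (fun p r hr => ?_) (r1 H0 hdeg0))
    have : Fact (p : ℕ).Prime := ⟨p.2⟩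
    simp only [relPF]
    rw [tot_cons _ (fun c z hc => hsc H0 _ c z hc), NZAux.card_gf p hr]
    simp only [hm]
    push_cast
    ring
  refine hQ.divq1 (hQ.congr (fun p r hr => ?_) (hQ.add (r1 H h) (hQ.neg r0)))
  have : Fact (p : ℕ).Prime := ⟨p.2⟩
  simp only [relPF]
  rw [tot_cons _ (fun c z hc => hsc H _ c z hc), NZAux.card_gf p hr]
  push_cast
  ring

end

/-! ### The hypergraph of a linear system -/

section

variable {V J I : Type} {d : ℕ}

/-- the `x`-vertices: copies of the unknowns and of their negatives -/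
abbrev LA (V I : Type) : Type := (V × I) × Bool

/-- the `y`-vertices: links and equations -/
abbrev LB (V J I : Type) : Type := LA V I ⊕ J

/-- the edges -/
abbrev LE (I : Type) (tm : J → Fin 3 → Option (Fin (d + 1) × V)) : Type :=
  (LA V I × Bool) ⊕ {s : J × Fin 3 // (tm s.1 s.2).isSome}

/-- the next copy -/
def nx (τ : Equiv.Perm I) : LA V I ≃ LA V I where
  toFun a := if a.2 then ((a.1.1, τ a.1.2), false) else (a.1, true)
  invFun a := if a.2 then (a.1, false) else ((a.1.1, τ.symm a.1.2), true)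
  left_inv a := by
    rcases a with ⟨⟨v, i⟩, _ | _⟩ <;> simp
  right_inv a := by
    rcases a with ⟨⟨v, i⟩, _ | _⟩ <;> simp

theorem nx_false (τ : Equiv.Perm I) (v : V) (i : I) : nx τ ((v, i), false) = ((v, i), true) := rfl

theorem nx_true (τ : Equiv.Perm I) (v : V) (i : I) : nx τ ((v, i), true) = ((v, τ i), false) := rfl

theorem nx_ne (τ : Equiv.Perm I) (a : LA V I) : nx τ a ≠ a := by
  rcases a with ⟨⟨v, i⟩, _ | _⟩
  · rw [nx_false]; simp
  · rw [nx_true]; simp

variable (tm : J → Fin 3 → Option (Fin (d + 1) × V)) (e : J × Fin 3 ≃ I) (τ : Equiv.Perm I)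

/-- the edges -/
def led : LE I tm → LA V I × LB V J I × Fin (d + 1)
  | Sum.inl (a, false) => (a, Sum.inl a, 0)
  | Sum.inl (a, true) => (nx τ a, Sum.inl a, 0)
  | Sum.inr s => ((((((tm s.1.1 s.1.2).get s.2).2, e s.1) : V × I), false), Sum.inr s.1.1,
      ((tm s.1.1 s.1.2).get s.2).1)

theorem led_injective : Function.Injective (led tm e τ) := by
  rintro (⟨a, _ | _⟩ | s) (⟨a', _ | _⟩ | s') h
  all_goals simp only [led, Prod.mk.injEq, Sum.inl.injEq, Sum.inr.injEq, reduceCtorEq,
    false_and, and_false] at h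
  · rw [h.1]
  · exact absurd (h.2.1 ▸ h.1 : a' = nx τ a').symm (nx_ne τ a')
  · exact absurd (h.2.1 ▸ h.1 : nx τ a' = a') (nx_ne τ a')
  · rw [h.2.1]
  · congr 1
    apply Subtype.ext
    exact e.injective h.1.1.2

variable [Fintype V] [Fintype J] [Fintype I]

instance : Fintype (LE I tm) := by
  unfold LE
  infer_instance

/-- the hypergraph -/
def lhg : Finset (LA V I × LB V J I × Fin (d + 1)) :=
  Finset.univ.map ⟨led tm e τ, led_injective tm e τ⟩

theorem ncard_le_three' {E X C : Type} (H : Set X) (f : E → X) (hH : ∀ x ∈ H, ∃ u, f u = x)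
    (pr : X → C) (cov : C → Fin 3 → Option E) (hcov : ∀ u, ∃ k, cov (pr (f u)) k = some u) (c : C) :
    {x | x ∈ H ∧ pr x = c}.ncard ≤ 3 := by
  have hsub : some '' {x | x ∈ H ∧ pr x = c} ⊆ Set.range fun k : Fin 3 => (cov c k).map f := by
    rintro _ ⟨x, ⟨hx, hxc⟩, rfl⟩
    obtain ⟨u, rfl⟩ := hH x hx
    obtain ⟨k, hk⟩ := hcov u
    exact ⟨k, by show (cov c k).map f = some (f u); rw [← hxc, hk]; rfl⟩
  calc {x | x ∈ H ∧ pr x = c}.ncard = (some '' {x | x ∈ H ∧ pr x = c}).ncard :=
        (Set.ncard_image_of_injective _ (Option.some_injective _)).symm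
    _ ≤ (Set.range fun k : Fin 3 => (cov c k).map f).ncard :=
        Set.ncard_le_ncard hsub (Set.finite_range _)
    _ ≤ Nat.card (Fin 3) := by
        rw [← Set.image_univ, ← Set.ncard_univ]
        exact Set.ncard_image_le
    _ = 3 := by simp

/-- the edge of a slot -/
def sle (s : J × Fin 3) : Option (LE I tm) :=
  if h : (tm s.1 s.2).isSome then some (Sum.inr ⟨s, h⟩) else none

omit [Fintype V] [Fintype J] [Fintype I] in
theorem sle_pos (s : {s : J × Fin 3 // (tm s.1 s.2).isSome}) :
    sle (I := I) tm s.1 = some (Sum.inr s) := by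
  unfold sle
  rw [dif_pos s.2]

theorem lhg_deg : XYDeg 3 (lhg tm e τ) := by
  have hH : ∀ x ∈ (lhg tm e τ : Set (LA V I × LB V J I × Fin (d + 1))), ∃ u, led tm e τ u = x := by
    intro x hx
    obtain ⟨u, -, hu⟩ := Finset.mem_map.1 (Finset.mem_coe.1 hx)
    exact ⟨u, hu⟩
  refine ⟨fun i => ncard_le_three' _ (led tm e τ) hH (fun x => x.1)
    (fun a k => ![some (Sum.inl (a, false)), some (Sum.inl ((nx τ).symm a, true)),
      sle tm (e.symm a.1.2)] k) ?_ i,
    fun j => ncard_le_three' _ (led tm e τ) hH (fun x => x.2.1)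
      (fun b k => match b with
        | Sum.inl a => ![some (Sum.inl (a, false)), some (Sum.inl (a, true)), none] k
        | Sum.inr j => sle tm (j, k)) ?_ j⟩
  · rintro (⟨a, _ | _⟩ | s)
    · exact ⟨0, rfl⟩
    · refine ⟨1, ?_⟩
      show some (Sum.inl ((nx τ).symm (nx τ a), true)) = _
      rw [Equiv.symm_apply_apply]
    · refine ⟨2, ?_⟩
      show sle tm (e.symm (e s.1)) = _
      rw [Equiv.symm_apply_apply]
      exact sle_pos tm s
  · rintro (⟨a, _ | _⟩ | s)
    · exact ⟨0, rfl⟩
    · exact ⟨1, rfl⟩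
    · exact ⟨s.1.2, sle_pos tm s⟩

/-- the value of a term -/
def val {K : Type} [Field K] (z : Fin (d + 1) → K) (u : V → K) : Option (Fin (d + 1) × V) → K
  | none => 0
  | some w => z w.1 * u w.2

/-- the value of a term in the copies -/
def val' {K : Type} [Field K] (z : Fin (d + 1) → K) (x : LA V I → K) (i : I) :
    Option (Fin (d + 1) × V) → K
  | none => 0
  | some w => z w.1 * x ((w.2, i), false)

theorem sum_lhg {K : Type} [Field K] (z : Fin (d + 1) → K) (x : LA V I → K)
    (y : LB V J I → K) :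
    ∑ u ∈ lhg tm e τ, x u.1 * y u.2.1 * z u.2.2 =
      (∑ a : LA V I, (x a + x (nx τ a)) * y (Sum.inl a) * z 0) +
        ∑ j, (∑ l, val' z x (e (j, l)) (tm j l)) * y (Sum.inr j) := by
  unfold lhg
  rw [Finset.sum_map, Fintype.sum_sum_type, Fintype.sum_prod_type]
  congr 1
  · refine Finset.sum_congr rfl fun a _ => ?_
    rw [Fintype.sum_bool]
    show x (nx τ a) * y (Sum.inl a) * z 0 + x a * y (Sum.inl a) * z 0 = _
    ring
  · have h1 : ∑ j, (∑ l, val' z x (e (j, l)) (tm j l)) * y (Sum.inr j) =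
        ∑ s : J × Fin 3, val' z x (e s) (tm s.1 s.2) * y (Sum.inr s.1) := by
      rw [Fintype.sum_prod_type]
      exact Finset.sum_congr rfl fun j _ => Finset.sum_mul ..
    rw [h1]
    refine Fintype.sum_of_injective (fun s : {s : J × Fin 3 // (tm s.1 s.2).isSome} => s.1)
      Subtype.val_injective _ _ ?_ ?_
    · intro s hs
      have h2 : tm s.1 s.2 = none := by
        rw [← Option.not_isSome_iff_eq_none]
        intro h
        exact hs ⟨⟨s, h⟩, rfl⟩
      rw [h2]
      exact zero_mul _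
    · intro s
      show x ((((tm s.1.1 s.1.2).get s.2).2, e s.1), false) * y (Sum.inr s.1.1) *
        z ((tm s.1.1 s.1.2).get s.2).1 = val' z x (e s.1) (tm s.1.1 s.1.2) * y (Sum.inr s.1.1)
      have h2 : tm s.1.1 s.1.2 = some ((tm s.1.1 s.1.2).get s.2) := by simp
      conv_rhs => rw [h2]
      simp only [val']
      ring

/-- the equations of the hypergraph for `z_0 = 1` -/
theorem lhg_iff {K : Type} [Field K] (z : Fin (d + 1) → K) (hz : z 0 = 1) (x : LA V I → K) :
    (∀ j, ∑ i, mat (ten (lhg tm e τ)) z j i * x i = 0) ↔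
      (∀ a, x (nx τ a) = -x a) ∧ ∀ j, ∑ l, val' z x (e (j, l)) (tm j l) = 0 := by
  classical
  rw [row_iff]
  constructor
  · intro h
    refine ⟨fun a => ?_, fun j => ?_⟩
    · have h1 := h (Pi.single (Sum.inl a) 1)
      rw [sum_lhg, Finset.sum_eq_single a] at h1
      · rw [Finset.sum_eq_zero, add_zero, Pi.single_eq_same, hz, mul_one, mul_one] at h1
        · exact eq_neg_of_add_eq_zero_right h1
        · intro j _
          rw [Pi.single_eq_of_ne (by simp), mul_zero]
      · intro a' _ ha'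
        rw [Pi.single_eq_of_ne (by simpa using ha'), mul_zero, zero_mul]
      · intro h'
        exact absurd (Finset.mem_univ a) h'
    · have h1 := h (Pi.single (Sum.inr j) 1)
      rw [sum_lhg, Finset.sum_eq_zero (s := (Finset.univ : Finset (LA V I))),
        Finset.sum_eq_single j] at h1
      · simpa using h1
      · intro j' _ hj'
        rw [Pi.single_eq_of_ne (by simpa using hj'), mul_zero]
      · intro h'
        exact absurd (Finset.mem_univ j) h'
      · intro a _
        rw [Pi.single_eq_of_ne (by simp), mul_zero, zero_mul]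
  · rintro ⟨h1, h2⟩ y
    rw [sum_lhg]
    simp [h1, h2]

/-- the number of solutions for `z_0 = 1` -/
theorem lhg_card {K : Type} [Field K] (z : Fin (d + 1) → K) (hz : z 0 = 1)
    (hτ : ∀ f : I → K, (∀ i, f (τ i) = f i) → ∀ i j, f i = f j) (i₀ : I) :
    kerN (mat (ten (lhg tm e τ)) z) = Nat.card {u : V → K // ∀ j, ∑ l, val z u (tm j l) = 0} := by
  unfold kerN
  -- the copies have the same value
  have hcopy : ∀ x : LA V I → K, (∀ a, x (nx τ a) = -x a) → ∀ v i,
      x ((v, i), false) = x ((v, i₀), false) ∧ x ((v, i), true) = -x ((v, i₀), false) := by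
    intro x hx v i
    have h1 : x ((v, i), false) = x ((v, i₀), false) := by
      refine hτ (fun i => x ((v, i), false)) (fun i => ?_) i i₀
      have h2 := hx ((v, i), true)
      have h3 := hx ((v, i), false)
      rw [nx_true] at h2
      rw [nx_false] at h3
      show x ((v, τ i), false) = x ((v, i), false)
      rw [h2, h3, neg_neg]
    refine ⟨h1, ?_⟩
    have h3 := hx ((v, i), false)
    rw [nx_false] at h3
    rw [h3, h1]
  have hval : ∀ (x : LA V I → K), (∀ a, x (nx τ a) = -x a) → ∀ i w,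
      val' z x i w = val z (fun v => x ((v, i₀), false)) w := by
    intro x hx i w
    rcases w with _ | w
    · rfl
    · simp only [val', val]
      rw [(hcopy x hx w.2 i).1]
  refine Nat.card_congr
    { toFun := fun x => ⟨fun v => x.1 ((v, i₀), false), fun j => ?_⟩
      invFun := fun u => ⟨fun a => if a.2 then -u.1 a.1.1 else u.1 a.1.1, ?_⟩
      left_inv := ?_
      right_inv := ?_ }
  · obtain ⟨h1, h2⟩ := (lhg_iff tm e τ z hz x.1).1 x.2
    refine Eq.trans ?_ (h2 j)
    exact Finset.sum_congr rfl fun l _ => (hval x.1 h1 _ _).symm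
  · rw [lhg_iff tm e τ z hz]
    refine ⟨?_, fun j => ?_⟩
    · rintro ⟨⟨v, i⟩, _ | _⟩
      · rw [nx_false]; simp
      · rw [nx_true]; simp
    · refine Eq.trans ?_ (u.2 j)
      refine Finset.sum_congr rfl fun l _ => ?_
      rcases tm j l with _ | w
      · rfl
      · simp [val', val]
  · intro x
    obtain ⟨h1, h2⟩ := (lhg_iff tm e τ z hz x.1).1 x.2
    apply Subtype.ext
    funext a
    obtain ⟨⟨v, i⟩, _ | _⟩ := a
    · exact ((hcopy x.1 h1 v i).1).symm
    · exact ((hcopy x.1 h1 v i).2).symm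
  · intro u
    apply Subtype.ext
    funext v
    simp

end

/-- every linear system with at most three terms per equation comes from a hypergraph -/
theorem exists_lhg {V J : Type} [Fintype V] [Fintype J] [Nonempty J] {d : ℕ}
    (tm : J → Fin 3 → Option (Fin (d + 1) × V)) :
    ∃ (α β : Type) (_ : Fintype α) (_ : Fintype β) (H : Finset (α × β × Fin (d + 1))),
      XYDeg 3 H ∧ ∀ (K : Type) [Field K] (z : Fin (d + 1) → K), z 0 = 1 →
        kerN (mat (ten H) z) = Nat.card {u : V → K // ∀ j, ∑ l, val z u (tm j l) = 0} := by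
  classical
  obtain ⟨N, hN⟩ : ∃ N, Fintype.card (J × Fin 3) = N + 1 :=
    Nat.exists_eq_succ_of_ne_zero Fintype.card_ne_zero
  let e : J × Fin 3 ≃ Fin (N + 1) := Fintype.equivFinOfCardEq hN
  let τ : Equiv.Perm (Fin (N + 1)) := Equiv.addRight 1
  refine ⟨LA V (Fin (N + 1)), LB V J (Fin (N + 1)), inferInstance, inferInstance, lhg tm e τ,
    lhg_deg tm e τ, fun K _ z hz => ?_⟩
  exact lhg_card tm e τ z hz (fun f hf => CompileAux.fin_invariant f hf) 0

end Pool.Agent.HGD
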