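import Pool.Agent.HGD.Dbl
import Pool.Agent.HGC.Torus
import Pool.Agent.HGC.DirSpan

/-!
# Removing the prime 2
-/

set_option autoImplicit false

open scoped BigOperators

namespace Pool.Agent.HGD

open Pool.Agent.HGC MvPolynomial

/-- removal of the Euler factor at `2` -/
noncomputable def away2 (f : PF) : PF := fun p r => if (p : ℕ) = 2 then 0 else f p r

/-- The number of points over `K` of the double cover `w ^ 2 = f` of the closed subscheme
`g_1 = … = g_m = 0` of affine `d`-space. -/
noncomputable def dblSys {d m : ℕ} (f : MvPolynomial (Fin d) ℤ) (g : Fin m → MvPolynomial (Fin d) ℤ)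
    (K : Type) [Field K] : ℕ :=
  Nat.card {v : K × (Fin d → K) // v.1 ^ 2 = aeval v.2 f ∧ ∀ i, aeval v.2 (g i) = 0}

theorem dblCount_eq {d : ℕ} (f : MvPolynomial (Fin d) ℤ) (g : Fin 0 → MvPolynomial (Fin d) ℤ)
    (K : Type) [Field K] : dblCount f K = dblSys f g K := by
  unfold dblCount dblSys
  exact Nat.card_congr (Equiv.subtypeEquivRight fun v => ⟨fun h => ⟨h, fun i => i.elim0⟩,
    fun h => h.1⟩)

theorem ctrlBy_away_one (B : Set PF) : CtrlBy B (away2 fun _ _ => 1) := by
  have h1 : DirSpan (away2 fun _ _ => 1) :=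
    DirSpan.congr (fun p r _ => rfl) TO.dirSpan_chi
  obtain ⟨h2, μ, h3, h4⟩ := dirSpan_continues h1
  exact ⟨[], by simp, fun _ => h2, fun _ => locW_of_weights ⟨μ, h3, h4⟩⟩

theorem admissible_away {Q : PF → Prop} (hQ : Admissible Q) (h1 : Q (away2 fun _ _ => 1)) :
    AdmOdd fun f => Q (away2 f) where
  adm :=
    { one := h1
      add := fun {f g} hf hg => hQ.congr (fun p r _ => by
        simp only [away2]
        split_ifs <;> simp) (hQ.add hf hg)
      neg := fun {f} hf => hQ.congr (fun p r _ => by
        simp only [away2]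
        split_ifs <;> simp) (hQ.neg hf)
      mulq := fun {f} hf => hQ.congr (fun p r _ => by
        simp only [away2]
        split_ifs <;> simp) (hQ.mulq hf)
      divq := fun {f} hf => hQ.divq (hQ.congr (fun p r _ => by
        simp only [away2]
        split_ifs <;> simp) hf)
      divq1 := fun {f} hf => hQ.divq1 (hQ.congr (fun p r _ => by
        simp only [away2]
        split_ifs <;> simp) hf)
      congr := fun {f g} h hf => hQ.congr (fun p r hr => by
        simp only [away2, h p r hr]) hf }
  odd := fun {f g} h hf => hQ.congr (fun p r hr => by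
    simp only [away2]
    split_ifs with h2
    · rfl
    · exact h p r h2 hr) hf

/-- from `CtrlBy` to `Controlled` -/
theorem controlled_away {B : Set PF} {N : (K : Type) → [Field K] → ℕ} (n : ℕ)
    (h : ∀ (K : Type) [Field K] [Finite K], N K ≤ Nat.card K ^ n)
    (hc : CtrlBy B (away2 (countPF N))) : Controlled B (away2 (countPF N)) := by
  obtain ⟨L, h1, h2, h3⟩ := hc
  refine ⟨L, h1, h2, fun hw μ hμ w =>
    locW_final_of admissible_continues n (fun p r hr => ?_) (h3 hw) μ hμ w⟩
  simp only [away2]
  split_ifs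
  · rw [norm_zero]
    positivity
  · exact norm_countPF_le n h p r hr

theorem dblSys_le {d m : ℕ} (f : MvPolynomial (Fin d) ℤ) (g : Fin m → MvPolynomial (Fin d) ℤ)
    (K : Type) [Field K] [Finite K] : dblSys f g K ≤ Nat.card K ^ (1 + d) := by
  unfold dblSys
  calc _ ≤ Nat.card (K × (Fin d → K)) :=
        Nat.card_le_card_of_injective _ Subtype.val_injective
    _ = _ := by
        rw [Nat.card_prod, Nat.card_fun, pow_add]
        simp

/-- double covers of closed subschemes, from double covers of the affine space -/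
theorem dblSys_of_dbl {Q : PF → Prop} (hQ : AdmOdd Q) {d : ℕ}
    (h : ∀ f : MvPolynomial (Fin d) ℤ, Q (countPF (dblCount f))) {m : ℕ}
    (f : MvPolynomial (Fin d) ℤ) (g : Fin m → MvPolynomial (Fin d) ℤ) :
    Q (countPF (dblSys f g)) := by
  classical
  have h1 : Rel2 Q (fun _ _ _ => 1 : RF d) := rel2_one_of_dbl hQ h
  have key : ∀ (m : ℕ) (P : Fin m → MvPolynomial (Fin d) ℤ),
      Rel2 Q (fun _ _ t => if ∀ i, aeval t (P i) = 0 then 1 else 0 : RF d) := by
    intro m
    induction m with
    | zero =>
      intro P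
      exact rel2_congr hQ (fun K _ _ _ t => by simp) h1
    | succ m ih =>
      intro P
      refine rel2_cases hQ (P 0) (Φ₁ := fun _ _ _ => 0) ?_ (ih fun i => P i.succ) ?_ ?_
      · exact rel2_congr hQ (fun K _ _ _ t => by ring) (rel2_add hQ h1 (rel2_neg hQ h1))
      · intro K _ _ _ t ht
        rw [if_neg]
        intro h1
        exact ht (h1 0)
      · intro K _ _ _ t ht
        simp only [Fin.forall_fin_succ, ht, true_and]
  have h2 := of_rel2 hQ (rel2_add hQ (key m g) (rel2_twist hQ (key m g) f))
  refine hQ.adm.congr (fun p r hr => ?_) h2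
  have : Fact (p : ℕ).Prime := ⟨p.2⟩
  have : Fintype (GaloisField p r) := Fintype.ofFinite _
  simp only [relPF, countPF, tot_eq, twist]
  have h3 : dblSys f g (GaloisField p r) = ∑ t : Fin d → GaloisField p r,
      Nat.card {w : GaloisField p r // w ^ 2 = aeval t f ∧ ∀ i, aeval t (g i) = 0} := by
    unfold dblSys
    rw [← Nat.card_sigma]
    exact Nat.card_congr
      { toFun := fun v => ⟨v.1.2, ⟨v.1.1, v.2⟩⟩
        invFun := fun v => ⟨(v.2.1, v.1), v.2.2⟩
        left_inv := fun v => rfl
        right_inv := fun v => rfl }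
  have h4 : ∀ t : Fin d → GaloisField p r,
      (Nat.card {w : GaloisField p r // w ^ 2 = aeval t f ∧ ∀ i, aeval t (g i) = 0} : ℤ) =
      (if ∀ i, aeval t (g i) = 0 then 1 else 0) +
        chi (aeval t f) * if ∀ i, aeval t (g i) = 0 then 1 else 0 := by
    intro t
    split_ifs with ht
    · have h5 : Nat.card {w : GaloisField p r // w ^ 2 = aeval t f ∧ ∀ i, aeval t (g i) = 0} =
          Nat.card {w : GaloisField p r // w ^ 2 = aeval t f} :=
        Nat.card_congr (Equiv.subtypeEquivRight fun w => ⟨fun h => h.1, fun h => ⟨h, ht⟩⟩)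
      rw [h5]
      unfold chi
      ring
    · have h5 : IsEmpty {w : GaloisField p r // w ^ 2 = aeval t f ∧ ∀ i, aeval t (g i) = 0} :=
        ⟨fun w => ht w.2.2⟩
      have h6 : Nat.card {w : GaloisField p r // w ^ 2 = aeval t f ∧
          ∀ i, aeval t (g i) = 0} = 0 := Nat.card_of_isEmpty
      rw [h6]
      simp
  have h7 : (dblSys f g (GaloisField p r) : ℂ) = ((dblSys f g (GaloisField p r) : ℤ) : ℂ) := by
    push_cast
    rfl
  rw [h7, h3]
  push_cast
  refine Finset.sum_congr rfl fun t _ => ?_
  have h8 := congrArg (Int.cast : ℤ → ℂ) (h4 t)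
  push_cast at h8
  exact h8.symm

end Pool.Agent.HGD
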