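import Pool.Agent.HGD.Lin

/-!
# Polynomial equations as linear systems with few terms

For polynomials `P i` in `t_1, …, t_d` there is a linear system with at most three terms in each
equation, all coefficients in `{1, t_1, …, t_d}`, whose solution space at `t` is a line if all
`P i` vanish at `t` and zero otherwise.
-/

set_option autoImplicit false

open scoped BigOperators

namespace Pool.Agent.HGD

open Pool.Agent.HGC MvPolynomial

namespace PL

variable {n : ℕ}

/-- polynomials obtained step by step inside `F` -/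
inductive Der (F : Set (MvPolynomial (Fin n) ℤ)) : MvPolynomial (Fin n) ℤ → Prop
  | one : Der F 1
  | zero : Der F 0
  | add (a b : MvPolynomial (Fin n) ℤ) : a ∈ F → b ∈ F → Der F a → Der F b → Der F (-a - b)
  | mul (i : Fin n) (a : MvPolynomial (Fin n) ℤ) : a ∈ F → Der F a → Der F (-(X i * a))

theorem Der.mono {F F' : Set (MvPolynomial (Fin n) ℤ)} (h : F ⊆ F')
    {g : MvPolynomial (Fin n) ℤ} (hg : Der F g) : Der F' g := by
  induction hg with
  | one => exact Der.one
  | zero => exact Der.zero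
  | add a b ha hb _ _ ia ib => exact Der.add a b (h ha) (h hb) ia ib
  | mul i a ha _ ia => exact Der.mul i a (h ha) ia

/-- sets closed under the derivation of their members -/
def Good (F : Finset (MvPolynomial (Fin n) ℤ)) : Prop :=
  (1 : MvPolynomial (Fin n) ℤ) ∈ F ∧ (0 : MvPolynomial (Fin n) ℤ) ∈ F ∧
    ∀ g ∈ F, Der (F : Set (MvPolynomial (Fin n) ℤ)) g

/-- members of finite good sets -/
def Reach (g : MvPolynomial (Fin n) ℤ) : Prop := ∃ F, Good F ∧ g ∈ F

open Classical in
theorem Good.union {F F' : Finset (MvPolynomial (Fin n) ℤ)} (h : Good F) (h' : Good F') :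
    Good (F ∪ F') := by
  refine ⟨Finset.mem_union_left _ h.1, Finset.mem_union_left _ h.2.1, ?_⟩
  intro g hg
  rcases Finset.mem_union.1 hg with hg | hg
  · exact (h.2.2 g hg).mono (by intro x hx; exact Finset.mem_coe.2 (Finset.mem_union_left _ hx))
  · exact (h'.2.2 g hg).mono (by intro x hx; exact Finset.mem_coe.2 (Finset.mem_union_right _ hx))

open Classical in
theorem exists_good_base : ∃ F : Finset (MvPolynomial (Fin n) ℤ), Good F := by
  refine ⟨{1, 0}, by simp, by simp, ?_⟩
  intro g hg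
  simp only [Finset.mem_insert, Finset.mem_singleton] at hg
  rcases hg with rfl | rfl
  · exact Der.one
  · exact Der.zero

theorem reach_one : Reach (1 : MvPolynomial (Fin n) ℤ) := by
  obtain ⟨F, hF⟩ := exists_good_base (n := n)
  exact ⟨F, hF, hF.1⟩

theorem reach_zero : Reach (0 : MvPolynomial (Fin n) ℤ) := by
  obtain ⟨F, hF⟩ := exists_good_base (n := n)
  exact ⟨F, hF, hF.2.1⟩

open Classical in
theorem good_insert {F : Finset (MvPolynomial (Fin n) ℤ)} (hF : Good F)
    {g : MvPolynomial (Fin n) ℤ} (hg : Der (F : Set (MvPolynomial (Fin n) ℤ)) g) :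
    Good (insert g F) := by
  have hsub : (F : Set (MvPolynomial (Fin n) ℤ)) ⊆
      ((insert g F : Finset (MvPolynomial (Fin n) ℤ)) : Set (MvPolynomial (Fin n) ℤ)) := by
    intro x hx
    exact Finset.mem_coe.2 (Finset.mem_insert_of_mem hx)
  refine ⟨Finset.mem_insert_of_mem hF.1, Finset.mem_insert_of_mem hF.2.1, ?_⟩
  intro x hx
  rcases Finset.mem_insert.1 hx with rfl | hx
  · exact hg.mono hsub
  · exact (hF.2.2 x hx).mono hsub

open Classical in
theorem reach_add' {a b : MvPolynomial (Fin n) ℤ} (ha : Reach a) (hb : Reach b) :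
    Reach (-a - b) := by
  obtain ⟨A, hA, haA⟩ := ha
  obtain ⟨B, hB, hbB⟩ := hb
  have hU := hA.union hB
  have h1 : a ∈ A ∪ B := Finset.mem_union_left _ haA
  have h2 : b ∈ A ∪ B := Finset.mem_union_right _ hbB
  exact ⟨_, good_insert hU (Der.add a b h1 h2 (hU.2.2 a h1) (hU.2.2 b h2)),
    Finset.mem_insert_self _ _⟩

open Classical in
theorem reach_mul' (i : Fin n) {a : MvPolynomial (Fin n) ℤ} (ha : Reach a) :
    Reach (-(X i * a)) := by
  obtain ⟨A, hA, haA⟩ := ha
  exact ⟨_, good_insert hA (Der.mul i a haA (hA.2.2 a haA)), Finset.mem_insert_self _ _⟩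

theorem reach_neg {a : MvPolynomial (Fin n) ℤ} (ha : Reach a) : Reach (-a) := by
  have h := reach_add' ha (reach_zero (n := n))
  simpa using h

theorem reach_add {a b : MvPolynomial (Fin n) ℤ} (ha : Reach a) (hb : Reach b) :
    Reach (a + b) := by
  have h := reach_neg (reach_add' ha hb)
  have e : -(-a - b) = a + b := by ring
  rwa [e] at h

theorem reach_mulX (i : Fin n) {a : MvPolynomial (Fin n) ℤ} (ha : Reach a) :
    Reach (a * X i) := by
  have h := reach_neg (reach_mul' i ha)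
  rw [neg_neg, mul_comm] at h
  exact h

theorem reach_nat (k : ℕ) : Reach (n := n) (C (k : ℤ)) := by
  induction k with
  | zero => simpa using reach_zero (n := n)
  | succ k ih =>
    have := reach_add (n := n) ih reach_one
    simpa using this

theorem reach_int (k : ℤ) : Reach (n := n) (C k) := by
  obtain ⟨m, rfl | rfl⟩ := k.eq_nat_or_neg
  · exact reach_nat m
  · rw [map_neg]
    exact reach_neg (reach_nat m)

theorem reach_all (g : MvPolynomial (Fin n) ℤ) : Reach g := by
  induction g using MvPolynomial.induction_on with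
  | C a => exact reach_int a
  | add p q hp hq => exact reach_add hp hq
  | mul_X p i hp => exact reach_mulX i hp

open Classical in
theorem exists_good {m : ℕ} (P : Fin m → MvPolynomial (Fin n) ℤ) :
    ∃ F : Finset (MvPolynomial (Fin n) ℤ), Good F ∧ ∀ i, P i ∈ F := by
  induction m with
  | zero =>
    obtain ⟨F, hF⟩ := exists_good_base (n := n)
    exact ⟨F, hF, fun i => i.elim0⟩
  | succ m ih =>
    obtain ⟨F, hF, hP⟩ := ih (fun i => P i.castSucc)
    obtain ⟨F', hF', hP'⟩ := reach_all (P (Fin.last m))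
    refine ⟨F ∪ F', hF.union hF', fun i => ?_⟩
    induction i using Fin.lastCases with
    | last => exact Finset.mem_union_right _ hP'
    | cast i => exact Finset.mem_union_left _ (hP i)

/-- triples with sum zero -/
abbrev Tri (F : Finset (MvPolynomial (Fin n) ℤ)) : Type :=
  {q : F × F × F // q.1.1 + q.2.1.1 + q.2.2.1 = 0}

/-- pairs with `X i * a + c = 0` -/
abbrev Dou (F : Finset (MvPolynomial (Fin n) ℤ)) : Type :=
  {q : Fin n × F × F // X q.1 * q.2.1.1 + q.2.2.1 = 0}

/-- the equations -/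
abbrev Jt (F : Finset (MvPolynomial (Fin n) ℤ)) (m : ℕ) : Type := (Tri F ⊕ Dou F) ⊕ (Unit ⊕ Fin m)

/-- the terms of the equations -/
noncomputable def tm {m : ℕ} (P : Fin m → MvPolynomial (Fin n) ℤ)
    (F : Finset (MvPolynomial (Fin n) ℤ)) (h0 : (0 : MvPolynomial (Fin n) ℤ) ∈ F)
    (hP : ∀ i, P i ∈ F) : Jt F m → Fin 3 → Option (Fin (n + 1) × F)
  | Sum.inl (Sum.inl q) => ![some (0, q.1.1), some (0, q.1.2.1), some (0, q.1.2.2)]
  | Sum.inl (Sum.inr q) => ![some (q.1.1.succ, q.1.2.1), some (0, q.1.2.2), none]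
  | Sum.inr (Sum.inl _) => ![some (0, ⟨0, h0⟩), none, none]
  | Sum.inr (Sum.inr i) => ![some (0, ⟨P i, hP i⟩), none, none]

variable {m : ℕ} (P : Fin m → MvPolynomial (Fin n) ℤ)
    (F : Finset (MvPolynomial (Fin n) ℤ)) (h0 : (0 : MvPolynomial (Fin n) ℤ) ∈ F)
    (hP : ∀ i, P i ∈ F)

theorem sys_iff {K : Type} [Field K] (t : Fin n → K) (u : F → K) :
    (∀ j, ∑ l, val (Fin.cons 1 t : Fin (n + 1) → K) u (tm P F h0 hP j l) = 0) ↔
      (∀ q : Tri F, u q.1.1 + u q.1.2.1 + u q.1.2.2 = 0) ∧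
      (∀ q : Dou F, t q.1.1 * u q.1.2.1 + u q.1.2.2 = 0) ∧
      u ⟨0, h0⟩ = 0 ∧ ∀ i, u ⟨P i, hP i⟩ = 0 := by
  constructor
  · intro h
    refine ⟨fun q => ?_, fun q => ?_, ?_, fun i => ?_⟩
    · have h1 := h (Sum.inl (Sum.inl q))
      rw [Fin.sum_univ_three] at h1
      simpa [tm, val] using h1
    · have h1 := h (Sum.inl (Sum.inr q))
      rw [Fin.sum_univ_three] at h1
      simpa [tm, val] using h1
    · have h1 := h (Sum.inr (Sum.inl ()))
      rw [Fin.sum_univ_three] at h1
      simpa [tm, val] using h1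
    · have h1 := h (Sum.inr (Sum.inr i))
      rw [Fin.sum_univ_three] at h1
      simpa [tm, val] using h1
  · rintro ⟨h1, h2, h3, h4⟩
    rintro ((q | q) | (_ | i))
    · rw [Fin.sum_univ_three]
      simpa [tm, val] using h1 q
    · rw [Fin.sum_univ_three]
      simpa [tm, val] using h2 q
    · rw [Fin.sum_univ_three]
      simpa [tm, val] using h3
    · rw [Fin.sum_univ_three]
      simpa [tm, val] using h4 i

theorem value_eq (hF : Good F) {K : Type} [Field K] (t : Fin n → K) (u : F → K)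
    (hu : ∀ j, ∑ l, val (Fin.cons 1 t : Fin (n + 1) → K) u (tm P F h0 hP j l) = 0)
    (g : MvPolynomial (Fin n) ℤ) (hd : Der (F : Set (MvPolynomial (Fin n) ℤ)) g) (hg : g ∈ F) :
    u ⟨g, hg⟩ = aeval t g * u ⟨1, hF.1⟩ := by
  obtain ⟨h1, h2, h3, h4⟩ := (sys_iff P F h0 hP t u).1 hu
  induction hd with
  | one => rw [map_one, one_mul]
  | zero => rw [map_zero, zero_mul]; exact h3
  | add a b ha hb _ _ ia ib =>
    have ha' : a ∈ F := ha
    have hb' : b ∈ F := hb
    have h : u ⟨a, ha'⟩ + u ⟨b, hb'⟩ + u ⟨-a - b, hg⟩ = 0 :=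
      h1 ⟨(⟨a, ha'⟩, ⟨b, hb'⟩, ⟨-a - b, hg⟩), by show a + b + (-a - b) = 0; ring⟩
    rw [ia ha', ib hb'] at h
    rw [map_sub, map_neg]
    linear_combination h
  | mul i a ha _ ia =>
    have ha' : a ∈ F := ha
    have h : t i * u ⟨a, ha'⟩ + u ⟨-(X i * a), hg⟩ = 0 :=
      h2 ⟨(i, ⟨a, ha'⟩, ⟨-(X i * a), hg⟩), by show X i * a + -(X i * a) = 0; ring⟩
    rw [ia ha'] at h
    rw [map_neg, map_mul, aeval_X]
    linear_combination h

/-- the solutions -/
theorem card_sol (hF : Good F) {K : Type} [Field K] (t : Fin n → K) :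
    Nat.card {u : F → K // ∀ j, ∑ l, val (Fin.cons 1 t : Fin (n + 1) → K) u
      (tm P F h0 hP j l) = 0} = Nat.card {c : K // ∀ i, aeval t (P i) * c = 0} := by
  refine Nat.card_congr
    { toFun := fun u => ⟨u.1 ⟨1, hF.1⟩, fun i => ?_⟩
      invFun := fun c => ⟨fun g => aeval t (g : MvPolynomial (Fin n) ℤ) * c.1, ?_⟩
      left_inv := ?_
      right_inv := ?_ }
  · rw [← value_eq P F h0 hP hF t u.1 u.2 (P i) (hF.2.2 _ (hP i)) (hP i)]
    exact ((sys_iff P F h0 hP t u.1).1 u.2).2.2.2 i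
  · rw [sys_iff]
    refine ⟨fun q => ?_, fun q => ?_, ?_, fun i => c.2 i⟩
    · have h1 : aeval t q.1.1.1 + aeval t q.1.2.1.1 + aeval t q.1.2.2.1 = (0 : K) := by
        rw [← map_add, ← map_add, q.2, map_zero]
      linear_combination c.1 * h1
    · have h1 : t q.1.1 * aeval t q.1.2.1.1 + aeval t q.1.2.2.1 = (0 : K) := by
        have h5 : aeval t (X q.1.1 * q.1.2.1.1 + q.1.2.2.1) = (0 : K) := by rw [q.2, map_zero]
        rwa [map_add, map_mul, aeval_X] at h5
      linear_combination c.1 * h1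
    · simp
  · intro u
    apply Subtype.ext
    funext g
    exact (value_eq P F h0 hP hF t u.1 u.2 g.1 (hF.2.2 _ g.2) g.2).symm
  · intro c
    apply Subtype.ext
    simp

end PL

open PL

/-- a polynomial system as a hypergraph -/
theorem exists_hg {d m : ℕ} (P : Fin m → MvPolynomial (Fin d) ℤ) :
    ∃ (α β : Type) (_ : Fintype α) (_ : Fintype β) (H : Finset (α × β × Fin (d + 1))),
      XYDeg 3 H ∧ ∀ (K : Type) [Field K] (t : Fin d → K),
        kerN (mat (ten H) (Fin.cons 1 t)) = Nat.card {c : K // ∀ i, aeval t (P i) * c = 0} := by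
  classical
  obtain ⟨F, hF, hP⟩ := exists_good P
  have : Nonempty (Jt F m) := ⟨Sum.inr (Sum.inl ())⟩
  obtain ⟨α, β, i1, i2, H, h1, h2⟩ := exists_lhg (tm P F hF.2.1 hP)
  refine ⟨α, β, i1, i2, H, h1, fun K _ t => ?_⟩
  rw [h2 K (Fin.cons 1 t) (Fin.cons_zero ..)]
  exact card_sol P F hF.2.1 hP hF t

theorem card_line {m : ℕ} {K : Type} [Field K] [Finite K] (a : Fin m → K) [Decidable (∀ i, a i = 0)] :
    Nat.card {c : K // ∀ i, a i * c = 0} = if ∀ i, a i = 0 then Nat.card K else 1 := by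
  split_ifs with h
  · exact Nat.card_congr (Equiv.subtypeUnivEquiv fun c i => by rw [h i, zero_mul])
  · push Not at h
    obtain ⟨i, hi⟩ := h
    rw [Nat.card_eq_one_iff_unique]
    refine ⟨⟨fun x y => ?_⟩, ⟨⟨0, fun i => mul_zero _⟩⟩⟩
    have hx := (mul_eq_zero.1 (x.2 i)).resolve_left hi
    have hy := (mul_eq_zero.1 (y.2 i)).resolve_left hi
    exact Subtype.ext (hx.trans hy.symm)

/-- affine schemes in `A^d` from forms with `d + 1` variables `z` -/
theorem aff_of_cubic {Q : PF → Prop} (hQ : Admissible Q) {d : ℕ}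
    (hH : ∀ (a b : ℕ) (H : Finset (Fin a × Fin b × Fin (d + 1))), XYDeg 3 H →
      Q (countPF (cubicCount H)))
    {m : ℕ} (P : Fin m → MvPolynomial (Fin d) ℤ) : Q (countPF (affCount P)) := by
  classical
  obtain ⟨α, β, i1, i2, H, h1, h2⟩ := exists_hg P
  have h3 := rel_affine hQ hH H h1
  refine hQ.divq1 (hQ.congr (fun p r hr => ?_) (hQ.add h3 (hQ.neg (NZAux.adm_pow hQ d))))
  have : Fact (p : ℕ).Prime := ⟨p.2⟩
  have : Fintype (GaloisField p r) := Fintype.ofFinite _
  simp only [relPF, countPF, tot_eq]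
  have h4 : ∀ t : Fin d → GaloisField p r, (kerN (mat (ten H) (Fin.cons 1 t)) : ℤ) =
      1 + ((p : ℕ) ^ r - 1) * if ∀ i, aeval t (P i) = 0 then 1 else 0 := by
    intro t
    rw [h2, card_line, NZAux.card_gf p hr]
    split_ifs <;> simp
  have h5 : (affCount P (GaloisField p r) : ℤ) =
      ∑ t : Fin d → GaloisField p r, if ∀ i, aeval t (P i) = 0 then (1 : ℤ) else 0 := by
    unfold affCount
    rw [Nat.card_eq_fintype_card, Fintype.card_subtype, Finset.card_filter]
    push_cast
    rfl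
  have h6 : ∑ t : Fin d → GaloisField p r, (kerN (mat (ten H) (Fin.cons 1 t)) : ℤ) =
      ((p : ℕ) ^ r) ^ d + ((p : ℕ) ^ r - 1) * affCount P (GaloisField p r) := by
    rw [Finset.sum_congr rfl fun t _ => h4 t, Finset.sum_add_distrib, ← Finset.mul_sum, ← h5]
    congr 1
    rw [Finset.sum_const, Finset.card_univ, Fintype.card_fun, Fintype.card_fin,
      ← Nat.card_eq_fintype_card, NZAux.card_gf p hr]
    simp
  rw [h6]
  push_cast
  ring

end Pool.Agent.HGD
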