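import Pool.Agent.HGD.Chi

/-!
# Completing the square and counting zeros
-/

set_option autoImplicit false

open scoped BigOperators

namespace Pool.Agent.HGD

open Pool.Agent.HGC

/-- the change of variables that completes the square -/
noncomputable def shear {n : ℕ} {K : Type} [Field K] (c : K) (hc : c ≠ 0) (k : Fin (n + 1))
    (L : Fin n → K) : (Fin (n + 1) → K) ≃ K × (Fin n → K) where
  toFun x := (c * x k + ∑ i, L i * x (k.succAbove i), fun i => x (k.succAbove i))
  invFun y := k.insertNth ((y.1 - ∑ i, L i * y.2 i) / c) y.2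
  left_inv x := by
    funext j
    refine Fin.succAboveCases k ?_ (fun i => ?_) j
    · simp only [Fin.insertNth_apply_same]
      field_simp
      ring
    · simp only [Fin.insertNth_apply_succAbove]
  right_inv y := by
    refine Prod.ext ?_ ?_
    · simp only [Fin.insertNth_apply_same, Fin.insertNth_apply_succAbove]
      field_simp
      ring
    · funext i
      simp only [Fin.insertNth_apply_succAbove]

theorem shear_fst {n : ℕ} {K : Type} [Field K] (c : K) (hc : c ≠ 0) (k : Fin (n + 1))
    (L : Fin n → K) (x : Fin (n + 1) → K) :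
    (shear c hc k L x).1 = c * x k + ∑ i, L i * x (k.succAbove i) := rfl

theorem shear_snd {n : ℕ} {K : Type} [Field K] (c : K) (hc : c ≠ 0) (k : Fin (n + 1))
    (L : Fin n → K) (x : Fin (n + 1) → K) :
    (shear c hc k L x).2 = fun i => x (k.succAbove i) := rfl

theorem N0_red {n : ℕ} {K : Type} [Field K] (h2 : (2 : K) ≠ 0) (A : Fin (n + 1) → Fin (n + 1) → K)
    (k : Fin (n + 1)) (hk : A k k ≠ 0) : N0 A = N1 (red A k) 1 := by
  unfold N0 N1
  have hc : 2 * A k k ≠ 0 := mul_ne_zero h2 hk
  have h4 : 4 * A k k ≠ 0 := by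
    have : (4 : K) = 2 * 2 := by norm_num
    rw [this]
    exact mul_ne_zero (mul_ne_zero h2 h2) hk
  refine Nat.card_congr (Equiv.subtypeEquiv (shear (2 * A k k) hc k
    (fun i => A k (k.succAbove i) + A (k.succAbove i) k)) fun x => ?_)
  rw [shear_fst, shear_snd, one_mul, ← qv_red A k x, mul_eq_zero, or_iff_right h4]

theorem N1_red {n : ℕ} {K : Type} [Field K] (h2 : (2 : K) ≠ 0) (A : Fin (n + 1) → Fin (n + 1) → K)
    (k : Fin (n + 1)) (hk : A k k ≠ 0) (b : K) : N1 A b = N2 (red A k) 1 (4 * A k k * b) := by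
  unfold N1 N2
  have hc : 2 * A k k ≠ 0 := mul_ne_zero h2 hk
  have h4 : 4 * A k k ≠ 0 := by
    have : (4 : K) = 2 * 2 := by norm_num
    rw [this]
    exact mul_ne_zero (mul_ne_zero h2 h2) hk
  let e : K × (Fin (n + 1) → K) ≃ (K × K) × (Fin n → K) :=
    { toFun := fun x => (((shear (2 * A k k) hc k
        (fun i => A k (k.succAbove i) + A (k.succAbove i) k) x.2).1, x.1), (shear (2 * A k k) hc k
        (fun i => A k (k.succAbove i) + A (k.succAbove i) k) x.2).2)
      invFun := fun y => (y.1.2, (shear (2 * A k k) hc k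
        (fun i => A k (k.succAbove i) + A (k.succAbove i) k)).symm (y.1.1, y.2))
      left_inv := fun x => by simp
      right_inv := fun y => by simp }
  refine Nat.card_congr (Equiv.subtypeEquiv e fun x => ?_)
  have h5 : 1 * (shear (2 * A k k) hc k
        (fun i => A k (k.succAbove i) + A (k.succAbove i) k) x.2).1 ^ 2 + 4 * A k k * b * x.1 ^ 2 +
        qv (red A k) (shear (2 * A k k) hc k
        (fun i => A k (k.succAbove i) + A (k.succAbove i) k) x.2).2 =
      4 * A k k * (b * x.1 ^ 2 + qv A x.2) := by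
    have h6 := qv_red A k x.2
    rw [shear_fst, shear_snd]
    linear_combination -h6
  show b * x.1 ^ 2 + qv A x.2 = 0 ↔ 1 * (shear (2 * A k k) hc k
        (fun i => A k (k.succAbove i) + A (k.succAbove i) k) x.2).1 ^ 2 + 4 * A k k * b * x.1 ^ 2 +
        qv (red A k) (shear (2 * A k k) hc k
        (fun i => A k (k.succAbove i) + A (k.succAbove i) k) x.2).2 = 0
  rw [h5, mul_eq_zero, or_iff_right h4]

theorem N2_eq {n : ℕ} {K : Type} [Field K] [Finite K] (h2 : ringChar K ≠ 2)
    (A : Fin n → Fin n → K) (b b' : K) (hb : b ≠ 0) (hb' : b' ≠ 0) :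
    (N2 A b b' : ℤ) = (Nat.card K : ℤ) ^ n * (Nat.card K - chi (-(b * b'))) +
      Nat.card K * chi (-(b * b')) * N0 A := by
  classical
  have : Fintype K := Fintype.ofFinite K
  have e1 : N2 A b b' = ∑ x : Fin n → K,
      Nat.card {w : K × K // b * w.1 ^ 2 + b' * w.2 ^ 2 = -qv A x} := by
    unfold N2
    rw [← Nat.card_sigma]
    refine Nat.card_congr
      { toFun := fun w => ⟨w.1.2, ⟨w.1.1, by linear_combination w.2⟩⟩
        invFun := fun w => ⟨(w.2.1, w.1), by linear_combination w.2.2⟩
        left_inv := fun w => rfl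
        right_inv := fun w => rfl }
  have e2 : (N0 A : ℤ) = ∑ x : Fin n → K, if qv A x = 0 then 1 else 0 := by
    unfold N0
    rw [Nat.card_eq_fintype_card, Fintype.card_subtype, Finset.card_filter]
    push_cast
    rfl
  rw [e1, e2]
  push_cast
  rw [Finset.sum_congr rfl fun x _ => two_squares h2 b b' (-qv A x) hb hb', Finset.sum_add_distrib,
    Finset.mul_sum, Finset.sum_const, Finset.card_univ, Fintype.card_fun, Fintype.card_fin]
  congr 1
  · rw [Nat.card_eq_fintype_card]
    simp
  · refine Finset.sum_congr rfl fun x _ => ?_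
    simp only [neg_eq_zero]
    split_ifs <;> simp

theorem N1_zero {n : ℕ} {K : Type} [Field K] (A : Fin n → Fin n → K) :
    N1 A 0 = Nat.card K * N0 A := by
  unfold N1 N0
  rw [← Nat.card_prod]
  exact Nat.card_congr
    { toFun := fun w => (w.1.1, ⟨w.1.2, by simpa using w.2⟩)
      invFun := fun w => ⟨(w.1, w.2.1), by simpa using w.2.2⟩
      left_inv := fun w => rfl
      right_inv := fun w => rfl }

/-- adding one variable to another -/
def mixv {n : ℕ} {R : Type} [CommRing R] (A : Fin n → Fin n → R) (k l : Fin n) :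
    Fin n → Fin n → R := fun i j =>
  A i j + (if i = k then A l j else 0) + (if j = k then A i l else 0) +
    if i = k ∧ j = k then A l l else 0

theorem qv_mixv {n : ℕ} {K : Type} [Field K] (A : Fin n → Fin n → K) (k l : Fin n)
    (x : Fin n → K) : qv (mixv A k l) x = qv A (x + x k • Pi.single l 1) := by
  unfold qv mixv
  have e1 : ∀ i j : Fin n, A i j * (x + x k • Pi.single l 1 : Fin n → K) i *
      (x + x k • Pi.single l 1 : Fin n → K) j =
      A i j * x i * x j + A i j * (x k * (Pi.single l 1 : Fin n → K) i) * x j +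
        A i j * x i * (x k * (Pi.single l 1 : Fin n → K) j) +
        A i j * (x k * (Pi.single l 1 : Fin n → K) i) * (x k * (Pi.single l 1 : Fin n → K) j) := by
    intro i j
    simp only [Pi.add_apply, Pi.smul_apply, smul_eq_mul]
    ring
  have s1 : ∑ i, ∑ j, (if i = k then A l j else 0) * x i * x j = ∑ j, A l j * x k * x j := by
    refine (Finset.sum_eq_single k (fun i _ hi => ?_) (fun h => absurd (Finset.mem_univ k) h)).trans
      (Finset.sum_congr rfl fun j _ => by rw [if_pos rfl])
    exact Finset.sum_eq_zero fun j _ => by rw [if_neg hi]; ring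
  have s1' : ∑ i, ∑ j, A i j * (x k * (Pi.single l 1 : Fin n → K) i) * x j =
      ∑ j, A l j * x k * x j := by
    refine (Finset.sum_eq_single l (fun i _ hi => ?_) (fun h => absurd (Finset.mem_univ l) h)).trans
      (Finset.sum_congr rfl fun j _ => by rw [Pi.single_eq_same, mul_one])
    exact Finset.sum_eq_zero fun j _ => by rw [Pi.single_eq_of_ne hi]; ring
  have s2 : ∑ i, ∑ j, (if j = k then A i l else 0) * x i * x j = ∑ i, A i l * x i * x k := by
    refine Finset.sum_congr rfl fun i _ => ?_
    refine (Finset.sum_eq_single k (fun j _ hj => ?_) (fun h => absurd (Finset.mem_univ k) h)).trans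
      (by rw [if_pos rfl])
    rw [if_neg hj]
    ring
  have s2' : ∑ i, ∑ j, A i j * x i * (x k * (Pi.single l 1 : Fin n → K) j) =
      ∑ i, A i l * x i * x k := by
    refine Finset.sum_congr rfl fun i _ => ?_
    refine (Finset.sum_eq_single l (fun j _ hj => ?_) (fun h => absurd (Finset.mem_univ l) h)).trans
      (by rw [Pi.single_eq_same, mul_one])
    rw [Pi.single_eq_of_ne hj]
    ring
  have s3 : ∑ i, ∑ j, (if i = k ∧ j = k then A l l else 0) * x i * x j = A l l * x k * x k := by
    refine (Finset.sum_eq_single k (fun i _ hi => ?_)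
      (fun h => absurd (Finset.mem_univ k) h)).trans ?_
    · exact Finset.sum_eq_zero fun j _ => by rw [if_neg (fun h => hi h.1)]; ring
    · refine (Finset.sum_eq_single k (fun j _ hj => ?_)
        (fun h => absurd (Finset.mem_univ k) h)).trans (by rw [if_pos ⟨rfl, rfl⟩])
      rw [if_neg (fun h => hj h.2)]
      ring
  have s3' : ∑ i, ∑ j, A i j * (x k * (Pi.single l 1 : Fin n → K) i) *
      (x k * (Pi.single l 1 : Fin n → K) j) = A l l * x k * x k := by
    refine (Finset.sum_eq_single l (fun i _ hi => ?_)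
      (fun h => absurd (Finset.mem_univ l) h)).trans ?_
    · exact Finset.sum_eq_zero fun j _ => by rw [Pi.single_eq_of_ne hi]; ring
    · refine (Finset.sum_eq_single l (fun j _ hj => ?_)
        (fun h => absurd (Finset.mem_univ l) h)).trans (by rw [Pi.single_eq_same]; ring)
      rw [Pi.single_eq_of_ne hj]
      ring
  simp_rw [e1]
  simp only [add_mul, Finset.sum_add_distrib]
  rw [s1, s1', s2, s2', s3, s3']

/-- the substitution `x_l := x_l + x_k` -/
def mixe {n : ℕ} {K : Type} [Field K] (k l : Fin n) (h : k ≠ l) : (Fin n → K) ≃ (Fin n → K) where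
  toFun x := x + x k • Pi.single l 1
  invFun x := x - x k • Pi.single l 1
  left_inv x := by
    funext i
    simp [Pi.single_eq_of_ne h]
  right_inv x := by
    funext i
    simp [Pi.single_eq_of_ne h]

theorem N0_mixv {n : ℕ} {K : Type} [Field K] (A : Fin n → Fin n → K) (k l : Fin n) (h : k ≠ l) :
    N0 (mixv A k l) = N0 A := by
  unfold N0
  refine Nat.card_congr (Equiv.subtypeEquiv (mixe k l h) fun x => ?_)
  rw [qv_mixv]
  rfl

theorem N1_mixv {n : ℕ} {K : Type} [Field K] (A : Fin n → Fin n → K) (k l : Fin n) (h : k ≠ l)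
    (b : K) : N1 (mixv A k l) b = N1 A b := by
  unfold N1
  refine Nat.card_congr (Equiv.subtypeEquiv (Equiv.prodCongr (Equiv.refl K) (mixe k l h))
    fun x => ?_)
  rw [qv_mixv]
  rfl

theorem mixv_diag {n : ℕ} {R : Type} [CommRing R] (A : Fin n → Fin n → R) (k l : Fin n) :
    mixv A k l k k = A k k + A l k + A k l + A l l := by
  simp [mixv]

theorem qv_zero {n : ℕ} {K : Type} [Field K] (A : Fin n → Fin n → K) (h1 : ∀ k, A k k = 0)
    (h2 : ∀ k l, k ≠ l → mixv A k l k k = 0) (x : Fin n → K) : qv A x = 0 := by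
  have h3 : ∀ k l, A k l + A l k = 0 := by
    intro k l
    by_cases h : k = l
    · subst h
      rw [h1, add_zero]
    · have h4 := h2 k l h
      rw [mixv_diag, h1, h1] at h4
      linear_combination h4
  -- the sum is antisymmetric
  unfold qv
  have h4 : ∀ i j, A i j * x i * x j = (if i < j then A i j * x i * x j else 0) +
      (if j < i then A i j * x i * x j else 0) := by
    intro i j
    rcases lt_trichotomy i j with h | h | h
    · rw [if_pos h, if_neg (lt_asymm h), add_zero]
    · subst h
      rw [if_neg (lt_irrefl _), h1]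
      ring
    · rw [if_pos h, if_neg (lt_asymm h), zero_add]
  rw [Finset.sum_congr rfl fun i _ => Finset.sum_congr rfl fun j _ => h4 i j]
  simp only [Finset.sum_add_distrib]
  have h5 : ∑ i, ∑ j, (if j < i then A i j * x i * x j else 0) =
      ∑ i, ∑ j, (if i < j then A j i * x j * x i else 0) := Finset.sum_comm
  rw [h5, ← Finset.sum_add_distrib]
  refine Finset.sum_eq_zero fun i _ => ?_
  rw [← Finset.sum_add_distrib]
  refine Finset.sum_eq_zero fun j _ => ?_
  split_ifs
  · linear_combination (x i * x j) * h3 i j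
  · ring

end Pool.Agent.HGD
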