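import Pool.Agent.HGD.Basic

/-!
# Functions of the points of affine space over finite fields

`Rel Q Φ`: for every polynomial `f` the sum of `Φ` over the points where `f` does not vanish
satisfies `Q`.  The number of solutions of a system of linear equations whose coefficients are
polynomials in the point is such a function.
-/

set_option autoImplicit false

open scoped BigOperators

namespace Pool.Agent.HGD

open Pool.Agent.HGC

/-- functions of the points of affine `D`-space over all fields -/
abbrev RF (D : ℕ) : Type 1 := (K : Type) → [Field K] → (Fin D → K) → ℤ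

/-- the sum over all points, as a function of prime powers -/
noncomputable def relPF {D : ℕ} (Φ : RF D) : PF := fun p r =>
  haveI : Fact (p : ℕ).Prime := ⟨p.2⟩
  ((tot (Φ (GaloisField p r)) : ℤ) : ℂ)

open Classical in
/-- the function that is `Φ` where `f ≠ 0` and `0` elsewhere -/
noncomputable def cut {D : ℕ} (f : MvPolynomial (Fin D) ℤ) (Φ : RF D) : RF D := fun K _ t =>
  if MvPolynomial.aeval t f = 0 then 0 else Φ K t

/-- all sums over the nonvanishing loci of polynomials satisfy `Q` -/
def Rel (Q : PF → Prop) {D : ℕ} (Φ : RF D) : Prop := ∀ f, Q (relPF (cut f Φ))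

theorem relPF_congr {D : ℕ} {Φ Ψ : RF D}
    (h : ∀ (K : Type) [Field K] [Finite K] (t : Fin D → K), Φ K t = Ψ K t) : relPF Φ = relPF Ψ := by
  funext p r
  have : Fact (p : ℕ).Prime := ⟨p.2⟩
  simp only [relPF]
  congr 2
  funext t
  exact h _ t

theorem relPF_add {D : ℕ} (Φ Ψ : RF D) (p : Nat.Primes) (r : ℕ) :
    relPF (fun K _ t => Φ K t + Ψ K t) p r = relPF Φ p r + relPF Ψ p r := by
  have : Fact (p : ℕ).Prime := ⟨p.2⟩
  have : Fintype (GaloisField p r) := Fintype.ofFinite _
  classical
  simp only [relPF, tot_eq]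
  rw [Finset.sum_add_distrib]
  push_cast
  rfl

theorem relPF_neg {D : ℕ} (Φ : RF D) (p : Nat.Primes) (r : ℕ) :
    relPF (fun K _ t => -Φ K t) p r = -relPF Φ p r := by
  have : Fact (p : ℕ).Prime := ⟨p.2⟩
  have : Fintype (GaloisField p r) := Fintype.ofFinite _
  classical
  simp only [relPF, tot_eq]
  rw [Finset.sum_neg_distrib]
  push_cast
  rfl

theorem relPF_mulq {D : ℕ} (Φ : RF D) (p : Nat.Primes) (r : ℕ) (hr : 1 ≤ r) :
    relPF (fun K _ t => (Nat.card K : ℤ) * Φ K t) p r = ((p : ℕ) : ℂ) ^ r * relPF Φ p r := by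
  have : Fact (p : ℕ).Prime := ⟨p.2⟩
  have : Fintype (GaloisField p r) := Fintype.ofFinite _
  classical
  simp only [relPF, tot_eq]
  rw [← Finset.mul_sum, NZAux.card_gf p hr]
  push_cast
  rfl

section

variable {Q : PF → Prop} (hQ : Admissible Q) {D : ℕ}

include hQ

theorem rel_congr {Φ Ψ : RF D}
    (h : ∀ (K : Type) [Field K] [Finite K] (t : Fin D → K), Φ K t = Ψ K t) (hΦ : Rel Q Φ) :
    Rel Q Ψ := by
  intro f
  refine hQ.congr (fun p r _ => ?_) (hΦ f)
  have h1 : relPF (cut f Φ) = relPF (cut f Ψ) := by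
    refine relPF_congr fun K _ _ t => ?_
    simp only [cut, h K t]
  rw [h1]

theorem rel_add {Φ Ψ : RF D} (hΦ : Rel Q Φ) (hΨ : Rel Q Ψ) :
    Rel Q (fun K _ t => Φ K t + Ψ K t : RF D) := by
  intro f
  refine hQ.congr (fun p r _ => ?_) (hQ.add (hΦ f) (hΨ f))
  rw [← relPF_add]
  refine congrFun (congrFun (relPF_congr fun K _ _ t => ?_) p) r
  simp only [cut]
  split_ifs <;> simp

theorem rel_neg {Φ : RF D} (hΦ : Rel Q Φ) : Rel Q (fun K _ t => -Φ K t : RF D) := by
  intro f
  refine hQ.congr (fun p r _ => ?_) (hQ.neg (hΦ f))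
  rw [← relPF_neg]
  refine congrFun (congrFun (relPF_congr fun K _ _ t => ?_) p) r
  simp only [cut]
  split_ifs <;> simp

theorem rel_mulq {Φ : RF D} (hΦ : Rel Q Φ) :
    Rel Q (fun K _ t => (Nat.card K : ℤ) * Φ K t : RF D) := by
  intro f
  refine hQ.congr (fun p r hr => ?_) (hQ.mulq (hΦ f))
  rw [← relPF_mulq _ p r hr]
  refine congrFun (congrFun (relPF_congr fun K _ _ t => ?_) p) r
  simp only [cut]
  split_ifs <;> simp

theorem rel_divq {Φ : RF D}
    (hΦ : Rel Q (fun K _ t => (Nat.card K : ℤ) * Φ K t : RF D)) : Rel Q Φ := by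
  intro f
  refine hQ.divq (hQ.congr (fun p r hr => ?_) (hΦ f))
  rw [← relPF_mulq _ p r hr]
  refine congrFun (congrFun (relPF_congr fun K _ _ t => ?_) p) r
  simp only [cut]
  split_ifs <;> simp

theorem rel_cut {Φ : RF D} (hΦ : Rel Q Φ) (g : MvPolynomial (Fin D) ℤ) : Rel Q (cut g Φ) := by
  intro f
  refine hQ.congr (fun p r _ => ?_) (hΦ (f * g))
  refine congrFun (congrFun (relPF_congr fun K _ _ t => ?_) p) r
  simp only [cut, map_mul, mul_eq_zero]
  split_ifs <;> simp_all

/-- case distinction -/
theorem rel_cases (g : MvPolynomial (Fin D) ℤ) {Φ Φ₁ Φ₂ : RF D} (h₁ : Rel Q Φ₁) (h₂ : Rel Q Φ₂)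
    (e₁ : ∀ (K : Type) [Field K] [Finite K] (t : Fin D → K), MvPolynomial.aeval t g ≠ 0 →
      Φ K t = Φ₁ K t)
    (e₂ : ∀ (K : Type) [Field K] [Finite K] (t : Fin D → K), MvPolynomial.aeval t g = 0 →
      Φ K t = Φ₂ K t) : Rel Q Φ := by
  refine rel_congr hQ (fun K _ _ t => ?_)
    (rel_add hQ (rel_cut hQ h₁ g) (rel_add hQ h₂ (rel_neg hQ (rel_cut hQ h₂ g))))
  simp only [cut]
  split_ifs with h
  · rw [e₂ K t h]; ring
  · rw [e₁ K t h]; ring

theorem rel_qpow (h1 : Rel Q (fun _ _ _ => 1 : RF D)) (n : ℕ) :
    Rel Q (fun K _ _ => (Nat.card K : ℤ) ^ n : RF D) := by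
  induction n with
  | zero => exact rel_congr hQ (fun K _ _ t => by simp) h1
  | succ n ih => exact rel_congr hQ (fun K _ _ t => by ring) (rel_mulq hQ ih)

end

theorem kerN_congr {α β K : Type} [Fintype α] [Field K] {M N : β → α → K}
    (h : ∀ j i, M j i = N j i) : kerN M = kerN N := by
  have : M = N := by
    funext j i
    exact h j i
  rw [this]

/-- elimination of one equation -/
theorem kerN_elim {α K : Type} [Fintype α] [DecidableEq α] [Field K] {b : ℕ}
    (l : α → K) (m : Fin b → α → K) (k : α) (hk : l k ≠ 0) :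
    kerN (fun j i => l k * m j i - m j k * l i) = Nat.card K * kerN (Fin.cons l m : Fin (b + 1) → α → K) := by
  unfold kerN
  rw [← Nat.card_prod]
  have key : ∀ (c : K) (x : α → K) (u : α → K),
      ∑ i, u i * (x i + c * (Pi.single k 1 : α → K) i) = ∑ i, u i * x i + c * u k := by
    intro c x u
    simp only [mul_add, Finset.sum_add_distrib]
    congr 1
    rw [Finset.sum_eq_single k]
    · simp; ring
    · intro i _ hi
      rw [Pi.single_eq_of_ne hi]; ring
    · intro h
      exact absurd (Finset.mem_univ k) h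
  have hrow : ∀ (x : α → K) (j : Fin b), ∑ i, (l k * m j i - m j k * l i) * x i =
      l k * ∑ i, m j i * x i - m j k * ∑ i, l i * x i := by
    intro x j
    rw [Finset.mul_sum, Finset.mul_sum, ← Finset.sum_sub_distrib]
    exact Finset.sum_congr rfl fun i _ => by ring
  have hker : ∀ x : α → K, (∀ j, ∑ i, (Fin.cons l m : Fin (b + 1) → α → K) j i * x i = 0) ↔
      ∑ i, l i * x i = 0 ∧ ∀ j, ∑ i, m j i * x i = 0 := by
    intro x
    rw [Fin.forall_fin_succ]
    simp
  refine Nat.card_congr
    { toFun := fun x => (∑ i, l i * x.1 i,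
        ⟨fun i => x.1 i + (-(∑ i, l i * x.1 i) / l k) * (Pi.single k 1 : α → K) i, ?_⟩)
      invFun := fun y => ⟨fun i => y.2.1 i + (y.1 / l k) * (Pi.single k 1 : α → K) i, ?_⟩
      left_inv := ?_
      right_inv := ?_ }
  · rw [hker]
    refine ⟨?_, fun j => ?_⟩
    · rw [key]
      field_simp
      ring
    · rw [key]
      have h1 := x.2 j
      rw [hrow] at h1
      field_simp
      linear_combination h1
  · intro j
    obtain ⟨h1, h2⟩ := (hker y.2.1).1 y.2.2
    rw [hrow, key, key, h1, h2 j]
    field_simp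
    ring
  · intro x
    apply Subtype.ext
    funext i
    show x.1 i + (-(∑ i, l i * x.1 i) / l k) * (Pi.single k 1 : α → K) i +
      ((∑ i, l i * x.1 i) / l k) * (Pi.single k 1 : α → K) i = x.1 i
    ring
  · rintro ⟨c, y⟩
    obtain ⟨h1, h2⟩ := (hker y.1).1 y.2
    have h3 : ∑ i, l i * (y.1 i + c / l k * (Pi.single k 1 : α → K) i) = c := by
      rw [key, h1]
      field_simp
      ring
    refine Prod.ext h3 (Subtype.ext (funext fun i => ?_))
    show y.1 i + c / l k * (Pi.single k 1 : α → K) i +
      (-(∑ i, l i * (y.1 i + c / l k * (Pi.single k 1 : α → K) i)) / l k) *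
        (Pi.single k 1 : α → K) i = y.1 i
    rw [h3]
    ring

/-- the size of the kernel of a matrix of polynomials -/
theorem rel_kerN {Q : PF → Prop} (hQ : Admissible Q) {D : ℕ}
    (h1 : Rel Q (fun _ _ _ => 1 : RF D)) {α : Type} [Fintype α] :
    ∀ (b : ℕ) (M : Fin b → α → MvPolynomial (Fin D) ℤ),
      Rel Q (fun _ _ t => (kerN fun j i => MvPolynomial.aeval t (M j i) : ℕ) : RF D) := by
  classical
  intro b
  induction b with
  | zero =>
    intro M
    refine rel_congr hQ (fun K _ _ t => ?_) (rel_qpow hQ h1 (Fintype.card α))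
    unfold kerN
    have h2 : Nat.card {x : α → K // ∀ j : Fin 0, ∑ i, MvPolynomial.aeval t (M j i) * x i = 0} =
        Nat.card K ^ Fintype.card α := by
      rw [Nat.card_congr (Equiv.subtypeUnivEquiv fun x j => j.elim0), Nat.card_fun,
        Nat.card_eq_fintype_card (α := α)]
    rw [h2]
    push_cast
    rfl
  | succ b ih =>
    have key : ∀ (s : Finset α) (L : α → MvPolynomial (Fin D) ℤ), (∀ i, i ∉ s → L i = 0) →
        ∀ M : Fin b → α → MvPolynomial (Fin D) ℤ,
          Rel Q (fun K _ t => (kerN (Fin.cons (fun i => MvPolynomial.aeval t (L i))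
            (fun j i => MvPolynomial.aeval t (M j i)) : Fin (b + 1) → α → K) : ℕ) : RF D) := by
      intro s
      induction s using Finset.induction_on with
      | empty =>
        intro L hL M
        refine rel_congr hQ (fun K _ _ t => ?_) (ih M)
        congr 1
        unfold kerN
        refine Nat.card_congr (Equiv.subtypeEquivRight fun x => ?_)
        rw [Fin.forall_fin_succ]
        have h2 : ∀ i, L i = 0 := fun i => hL i (by simp)
        simp [h2]
      | insert k s hk ihs =>
        intro L hL M
        refine rel_divq hQ (rel_cases hQ (L k)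
          (ih fun j i => L k * M j i - M j k * L i)
          (rel_mulq hQ (ihs (Function.update L k 0) (fun i hi => ?_) M)) ?_ ?_)
        · by_cases hik : i = k
          · subst hik
            exact Function.update_self ..
          · rw [Function.update_of_ne hik]
            exact hL i (by simp [hik, hi])
        · intro K _ _ t ht
          have h2 := kerN_elim (fun i => MvPolynomial.aeval t (L i))
            (fun j i => MvPolynomial.aeval t (M j i)) k ht
          rw [← Nat.cast_mul, ← h2]
          congr 1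
          exact kerN_congr fun j i => by simp
        · intro K _ _ t ht
          congr 2
          refine kerN_congr fun j i => ?_
          refine Fin.cases ?_ (fun j => ?_) j
          · simp only [Fin.cons_zero]
            by_cases hik : i = k
            · subst hik
              rw [Function.update_self, ht, map_zero]
            · rw [Function.update_of_ne hik]
          · simp only [Fin.cons_succ]
    intro M
    refine rel_congr hQ (fun K _ _ t => ?_) (key Finset.univ (M 0) (fun i hi =>
      absurd (Finset.mem_univ i) hi) (fun j => M j.succ))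
    congr 1
    refine kerN_congr fun j i => ?_
    refine Fin.cases ?_ (fun j => ?_) j
    · simp only [Fin.cons_zero]
    · simp only [Fin.cons_succ]

/-- from dimension `n + 1` to dimension `n` -/
theorem rel_one_pred {Q : PF → Prop} (hQ : Admissible Q) {n : ℕ}
    (h : Rel Q (fun _ _ _ => 1 : RF (n + 1))) : Rel Q (fun _ _ _ => 1 : RF n) := by
  intro f
  refine hQ.divq (hQ.congr (fun p r hr => ?_) (h (MvPolynomial.rename Fin.succ f)))
  rw [← relPF_mulq _ p r hr]
  have : Fact (p : ℕ).Prime := ⟨p.2⟩
  have : Fintype (GaloisField p r) := Fintype.ofFinite _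
  classical
  simp only [relPF, tot_eq]
  congr 1
  rw [← (Fin.consEquiv fun _ => GaloisField p r).sum_comp, Fintype.sum_prod_type,
    ← Finset.mul_sum]
  have h1 : ∀ c : GaloisField p r, ∑ t : Fin n → GaloisField p r,
      cut (MvPolynomial.rename Fin.succ f) (fun _ _ _ => 1) (GaloisField p r)
        ((Fin.consEquiv fun _ => GaloisField p r) (c, t)) =
      ∑ t : Fin n → GaloisField p r, cut f (fun _ _ _ => 1) (GaloisField p r) t := by
    intro c
    refine Finset.sum_congr rfl fun t _ => ?_
    simp only [cut, MvPolynomial.aeval_rename]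
    have h2 : ((Fin.consEquiv fun _ => GaloisField p r) (c, t)) ∘ Fin.succ = t := by
      funext i
      simp [Fin.consEquiv]
    rw [h2]
  rw [Finset.sum_congr rfl fun c _ => h1 c, Finset.sum_const, Finset.card_univ, nsmul_eq_mul,
    Nat.card_eq_fintype_card]

/-- trilinear forms with `n + 1` variables `z` -/
theorem tri_of_rel {Q : PF → Prop} (hQ : Admissible Q) :
    ∀ (n : ℕ), (0 < n → Rel Q (fun _ _ _ => 1 : RF (n - 1))) →
      ∀ (a b : ℕ) (T : Fin a → Fin b → Fin n → ℤ),
        Q (relPF (fun _ _ z => (kerN (mat T z) : ℕ) : RF n)) := by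
  intro n
  induction n with
  | zero =>
    intro _ a b T
    refine hQ.congr (fun p r hr => ?_) (NZAux.adm_pow hQ a)
    have : Fact (p : ℕ).Prime := ⟨p.2⟩
    have : Fintype (GaloisField p r) := Fintype.ofFinite _
    classical
    simp only [relPF, tot_eq]
    have h2 : ∀ z : Fin 0 → GaloisField p r, (kerN (mat T z) : ℤ) = ((p : ℕ) ^ r : ℤ) ^ a := by
      intro z
      have h3 : kerN (mat T z) = ((p : ℕ) ^ r) ^ a := by
        unfold kerN
        rw [Nat.card_congr (Equiv.subtypeUnivEquiv fun x j => ?_), Nat.card_fun,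
          NZAux.card_gf p hr]
        · simp
        · simp [mat]
      rw [h3]
      push_cast
      rfl
    rw [Finset.sum_congr rfl fun z _ => h2 z]
    simp
  | succ n ih =>
    intro h a b T
    have h1 : Rel Q (fun _ _ _ => 1 : RF n) := h (Nat.succ_pos n)
    have h2 := ih (fun hn => by
      obtain ⟨k, rfl⟩ := Nat.exists_eq_succ_of_ne_zero hn.ne'
      exact rel_one_pred hQ h1) a b (fun i j k => T i j k.succ)
    have h3 := rel_kerN hQ h1 b (fun j i => MvPolynomial.C (T i j 0) +
      ∑ k : Fin n, MvPolynomial.C (T i j k.succ) * MvPolynomial.X k) 1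
    have h4 : Q fun p r => (((p : ℕ) : ℂ) ^ r - 1) * relPF (fun _ _ t => (kerN fun j i =>
        MvPolynomial.aeval t (MvPolynomial.C (T i j 0) +
          ∑ k : Fin n, MvPolynomial.C (T i j k.succ) * MvPolynomial.X k) : ℕ) : RF n) p r := by
      have h5 : Q (relPF (fun _ _ t => (kerN fun j i =>
        MvPolynomial.aeval t (MvPolynomial.C (T i j 0) +
          ∑ k : Fin n, MvPolynomial.C (T i j k.succ) * MvPolynomial.X k) : ℕ) : RF n)) := by
        refine hQ.congr (fun p r _ => ?_) h3
        refine congrFun (congrFun (relPF_congr fun K _ _ t => ?_) p) r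
        simp [cut]
      exact hQ.congr (fun p r _ => by ring) (hQ.add (hQ.mulq h5) (hQ.neg h5))
    refine hQ.congr (fun p r hr => ?_) (hQ.add h4 h2)
    have : Fact (p : ℕ).Prime := ⟨p.2⟩
    have h6 := tot_cons (K := GaloisField p r)
      (fun z : Fin (n + 1) → GaloisField p r => (kerN (mat T z) : ℤ)) (fun c z hc => by
        have : mat T (c • z) = fun j i => c * mat T z j i := by
          funext j i
          exact mat_smul T c z j i
        rw [this, kerN_smul _ hc])
    simp only [relPF]
    rw [h6, NZAux.card_gf p hr]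
    have e1 : (fun t : Fin n → GaloisField p r => (kerN fun j i =>
          MvPolynomial.aeval t (MvPolynomial.C (T i j 0) +
            ∑ k : Fin n, MvPolynomial.C (T i j k.succ) * MvPolynomial.X k) : ℤ)) =
        fun t => (kerN (mat T (Fin.cons 1 t)) : ℤ) := by
      funext t
      congr 1
      refine kerN_congr fun j i => ?_
      simp [mat, Fin.sum_univ_succ]
    have e2 : (fun t : Fin n → GaloisField p r => (kerN (mat (fun i j k => T i j k.succ) t) : ℤ)) =
        fun t => (kerN (mat T (Fin.cons 0 t)) : ℤ) := by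
      funext t
      congr 1
      refine kerN_congr fun j i => ?_
      simp [mat, Fin.sum_univ_succ]
    rw [e1, e2]
    push_cast
    rfl

end Pool.Agent.HGD
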