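import Pool.Agent.HGD.Quad
import Pool.Agent.HGD.Rel

/-!
# Functions of the points of affine space, with quadratic twists

`Rel2 Q Φ`: for every polynomial `f` the sum of `chi (f t) Φ t` over all points `t` satisfies `Q`,
where `chi` is the quadratic character; the prime `2` is disregarded.  The number of zeros of a
quadratic form whose coefficients are polynomials in the point is such a function.
-/

set_option autoImplicit false

open scoped BigOperators

namespace Pool.Agent.HGD

open Pool.Agent.HGC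

/-- admissible and insensitive to the values at the prime `2` -/
structure AdmOdd (Q : PF → Prop) : Prop where
  adm : Admissible Q
  odd : ∀ {f g : PF}, (∀ (p : Nat.Primes) (r : ℕ), (p : ℕ) ≠ 2 → 1 ≤ r → f p r = g p r) →
    Q f → Q g

/-- multiplication with the quadratic character of a polynomial -/
noncomputable def twist {D : ℕ} (f : MvPolynomial (Fin D) ℤ) (Φ : RF D) : RF D := fun K _ t =>
  chi (MvPolynomial.aeval t f) * Φ K t

/-- all twisted sums satisfy `Q` -/
def Rel2 (Q : PF → Prop) {D : ℕ} (Φ : RF D) : Prop := ∀ f, Q (relPF (twist f Φ))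

theorem ringChar_gf (p : Nat.Primes) (r : ℕ) (hp : (p : ℕ) ≠ 2) :
    haveI : Fact (p : ℕ).Prime := ⟨p.2⟩
    ringChar (GaloisField p r) ≠ 2 := by
  have : Fact (p : ℕ).Prime := ⟨p.2⟩
  have h := ringChar.eq (GaloisField p r) (p : ℕ)
  intro h'
  exact hp (h.symm.trans h')

theorem relPF_odd {D : ℕ} {Φ Ψ : RF D}
    (h : ∀ (K : Type) [Field K] [Finite K], ringChar K ≠ 2 → ∀ t : Fin D → K, Φ K t = Ψ K t)
    (p : Nat.Primes) (r : ℕ) (hp : (p : ℕ) ≠ 2) : relPF Φ p r = relPF Ψ p r := by
  have : Fact (p : ℕ).Prime := ⟨p.2⟩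
  simp only [relPF]
  congr 2
  funext t
  exact h _ (ringChar_gf p r hp) t

section

variable {Q : PF → Prop} (hQ : AdmOdd Q) {D : ℕ}

include hQ

theorem rel2_congr {Φ Ψ : RF D}
    (h : ∀ (K : Type) [Field K] [Finite K], ringChar K ≠ 2 → ∀ t : Fin D → K, Φ K t = Ψ K t)
    (hΦ : Rel2 Q Φ) : Rel2 Q Ψ := by
  intro f
  refine hQ.odd (fun p r hp _ => ?_) (hΦ f)
  refine relPF_odd (fun K _ _ h2 t => ?_) p r hp
  simp only [twist, h K h2 t]

theorem rel2_add {Φ Ψ : RF D} (hΦ : Rel2 Q Φ) (hΨ : Rel2 Q Ψ) :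
    Rel2 Q (fun K _ t => Φ K t + Ψ K t : RF D) := by
  intro f
  refine hQ.adm.congr (fun p r _ => ?_) (hQ.adm.add (hΦ f) (hΨ f))
  rw [← relPF_add]
  refine congrFun (congrFun (relPF_congr fun K _ _ t => ?_) p) r
  simp only [twist]
  ring

theorem rel2_neg {Φ : RF D} (hΦ : Rel2 Q Φ) : Rel2 Q (fun K _ t => -Φ K t : RF D) := by
  intro f
  refine hQ.adm.congr (fun p r _ => ?_) (hQ.adm.neg (hΦ f))
  rw [← relPF_neg]
  refine congrFun (congrFun (relPF_congr fun K _ _ t => ?_) p) r
  simp only [twist]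
  ring

theorem rel2_mulq {Φ : RF D} (hΦ : Rel2 Q Φ) :
    Rel2 Q (fun K _ t => (Nat.card K : ℤ) * Φ K t : RF D) := by
  intro f
  refine hQ.adm.congr (fun p r hr => ?_) (hQ.adm.mulq (hΦ f))
  rw [← relPF_mulq _ p r hr]
  refine congrFun (congrFun (relPF_congr fun K _ _ t => ?_) p) r
  simp only [twist]
  ring

theorem rel2_twist {Φ : RF D} (hΦ : Rel2 Q Φ) (g : MvPolynomial (Fin D) ℤ) :
    Rel2 Q (twist g Φ) := by
  intro f
  refine hQ.odd (fun p r hp _ => ?_) (hΦ (f * g))
  refine relPF_odd (fun K _ _ h2 t => ?_) p r hp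
  simp only [twist, map_mul, chi_mul h2]
  ring

theorem rel2_cut {Φ : RF D} (hΦ : Rel2 Q Φ) (g : MvPolynomial (Fin D) ℤ) :
    Rel2 Q (cut g Φ) := by
  intro f
  refine hQ.odd (fun p r hp _ => ?_) (hΦ (f * (g * g)))
  refine relPF_odd (fun K _ _ h2 t => ?_) p r hp
  classical
  simp only [twist, cut, map_mul]
  rw [chi_mul h2]
  split_ifs with h
  · rw [h, mul_zero, chi_zero]
    ring
  · rw [chi_sq h2 h]
    ring

/-- case distinction -/
theorem rel2_cases (g : MvPolynomial (Fin D) ℤ) {Φ Φ₁ Φ₂ : RF D} (h₁ : Rel2 Q Φ₁)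
    (h₂ : Rel2 Q Φ₂)
    (e₁ : ∀ (K : Type) [Field K] [Finite K], ringChar K ≠ 2 → ∀ t : Fin D → K,
      MvPolynomial.aeval t g ≠ 0 → Φ K t = Φ₁ K t)
    (e₂ : ∀ (K : Type) [Field K] [Finite K], ringChar K ≠ 2 → ∀ t : Fin D → K,
      MvPolynomial.aeval t g = 0 → Φ K t = Φ₂ K t) : Rel2 Q Φ := by
  refine rel2_congr hQ (fun K _ _ hc t => ?_)
    (rel2_add hQ (rel2_cut hQ h₁ g) (rel2_add hQ h₂ (rel2_neg hQ (rel2_cut hQ h₂ g))))
  simp only [cut]
  split_ifs with h
  · rw [e₂ K hc t h]; ring
  · rw [e₁ K hc t h]; ring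

/-- many cases -/
theorem rel2_cover {ι : Type} (g : ι → MvPolynomial (Fin D) ℤ) (s : Finset ι) :
    ∀ (Φ Φ₀ : RF D), (∀ i ∈ s, Rel2 Q (cut (g i) Φ)) → Rel2 Q Φ₀ →
      (∀ (K : Type) [Field K] [Finite K], ringChar K ≠ 2 → ∀ t : Fin D → K,
        (∀ i ∈ s, MvPolynomial.aeval t (g i) = 0) → Φ K t = Φ₀ K t) → Rel2 Q Φ := by
  classical
  induction s using Finset.induction_on with
  | empty =>
    intro Φ Φ₀ _ h0 h
    exact rel2_congr hQ (fun K _ _ hc t => (h K hc t (by simp)).symm) h0
  | insert i s _ ih =>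
    intro Φ Φ₀ h1 h0 h
    have hi := h1 i (Finset.mem_insert_self i s)
    have key : Rel2 Q (fun K _ t => Φ K t + -cut (g i) Φ K t : RF D) := by
      refine ih _ (fun K _ t => Φ₀ K t + -cut (g i) Φ₀ K t) (fun j hj => ?_)
        (rel2_add hQ h0 (rel2_neg hQ (rel2_cut hQ h0 (g i)))) ?_
      · refine rel2_congr hQ (fun K _ _ hc t => ?_) (rel2_add hQ
          (h1 j (Finset.mem_insert_of_mem hj)) (rel2_neg hQ (rel2_cut hQ hi (g j))))
        simp only [cut]
        split_ifs <;> simp
      · intro K _ _ hc t ht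
        simp only [cut]
        split_ifs with h3
        · rw [h K hc t (fun j hj => ?_)]
          rcases Finset.mem_insert.1 hj with rfl | hj
          · exact h3
          · exact ht j hj
        · ring
    exact rel2_congr hQ (fun K _ _ hc t => by ring) (rel2_add hQ key hi)

theorem rel2_qpow (h1 : Rel2 Q (fun _ _ _ => 1 : RF D)) (n : ℕ) :
    Rel2 Q (fun K _ _ => (Nat.card K : ℤ) ^ n : RF D) := by
  induction n with
  | zero => exact rel2_congr hQ (fun K _ _ _ t => by simp) h1
  | succ n ih => exact rel2_congr hQ (fun K _ _ _ t => by ring) (rel2_mulq hQ ih)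

theorem rel2_mulqpow {Φ : RF D} (h1 : Rel2 Q Φ) (n : ℕ) :
    Rel2 Q (fun K _ t => (Nat.card K : ℤ) ^ n * Φ K t : RF D) := by
  induction n with
  | zero => exact rel2_congr hQ (fun K _ _ _ t => by simp) h1
  | succ n ih => exact rel2_congr hQ (fun K _ _ _ t => by ring) (rel2_mulq hQ ih)

omit hQ in
theorem red_map {n D : ℕ} (A : Fin (n + 1) → Fin (n + 1) → MvPolynomial (Fin D) ℤ)
    (k : Fin (n + 1)) {K : Type} [Field K] (t : Fin D → K) :
    red (fun i j => MvPolynomial.aeval t (A i j)) k =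
      fun i j => MvPolynomial.aeval t (red A k i j) := by
  funext i j
  simp only [red, map_sub, map_mul, map_add, map_ofNat]

omit hQ in
theorem mixv_map {n D : ℕ} (A : Fin n → Fin n → MvPolynomial (Fin D) ℤ)
    (k l : Fin n) {K : Type} [Field K] (t : Fin D → K) :
    mixv (fun i j => MvPolynomial.aeval t (A i j)) k l =
      fun i j => MvPolynomial.aeval t (mixv A k l i j) := by
  funext i j
  simp only [mixv, map_add]
  congr 1
  · congr 1
    · congr 1
      split_ifs <;> simp
    · split_ifs <;> simp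
  · split_ifs <;> simp

omit hQ in
theorem card_sqz {K : Type} [Field K] (b : K) [Decidable (b = 0)] :
    Nat.card {u : K // b * u ^ 2 = 0} = if b = 0 then Nat.card K else 1 := by
  split_ifs with h
  · exact Nat.card_congr (Equiv.subtypeUnivEquiv fun u => by rw [h, zero_mul])
  · rw [Nat.card_eq_one_iff_unique]
    refine ⟨⟨fun x y => ?_⟩, ⟨⟨0, by simp⟩⟩⟩
    have hx := pow_eq_zero_iff (two_ne_zero) |>.1 ((mul_eq_zero.1 x.2).resolve_left h)
    have hy := pow_eq_zero_iff (two_ne_zero) |>.1 ((mul_eq_zero.1 y.2).resolve_left h)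
    exact Subtype.ext (hx.trans hy.symm)

omit hQ in
theorem N1_of_zero {n : ℕ} {K : Type} [Field K] (A : Fin n → Fin n → K)
    (h : ∀ x, qv A x = 0) (b : K) [Decidable (b = 0)] :
    N1 A b = Nat.card K ^ n * if b = 0 then Nat.card K else 1 := by
  rw [← card_sqz b, mul_comm]
  unfold N1
  have h1 : Nat.card K ^ n = Nat.card (Fin n → K) := by rw [Nat.card_fun]; simp
  rw [h1, ← Nat.card_prod]
  exact Nat.card_congr
    { toFun := fun w => (⟨w.1.1, by simpa [h] using w.2⟩, w.1.2)
      invFun := fun w => ⟨(w.1.1, w.2), by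
        have := w.1.2
        rw [h, add_zero]
        exact this⟩
      left_inv := fun w => rfl
      right_inv := fun w => rfl }

omit hQ in
theorem N0_of_zero {n : ℕ} {K : Type} [Field K] (A : Fin n → Fin n → K)
    (h : ∀ x, qv A x = 0) : N0 A = Nat.card K ^ n := by
  unfold N0
  rw [Nat.card_congr (Equiv.subtypeUnivEquiv h), Nat.card_fun]
  simp

/-- zeros of quadratic forms whose coefficients are polynomials -/
theorem rel2_N (h1 : Rel2 Q (fun _ _ _ => 1 : RF D)) : ∀ n : ℕ,
    (∀ A : Fin n → Fin n → MvPolynomial (Fin D) ℤ,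
      Rel2 Q (fun _ _ t => (N0 fun i j => MvPolynomial.aeval t (A i j) : ℕ) : RF D)) ∧
    ∀ (A : Fin n → Fin n → MvPolynomial (Fin D) ℤ) (b : MvPolynomial (Fin D) ℤ),
      Rel2 Q (fun _ _ t => (N1 (fun i j => MvPolynomial.aeval t (A i j))
        (MvPolynomial.aeval t b) : ℕ) : RF D) := by
  classical
  intro n
  induction n with
  | zero =>
    refine ⟨fun A => ?_, fun A b => ?_⟩
    · refine rel2_congr hQ (fun K _ _ _ t => ?_) h1
      rw [N0_of_zero _ (fun x => by simp [qv])]
      simp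
    · refine rel2_cases hQ b h1 (rel2_qpow hQ h1 1) (fun K _ _ _ t ht => ?_)
        (fun K _ _ _ t ht => ?_)
      · rw [N1_of_zero _ (fun x => by simp [qv]), if_neg ht]
        simp
      · rw [N1_of_zero _ (fun x => by simp [qv]), if_pos ht]
        simp
  | succ n ih =>
    obtain ⟨ih0, ih1⟩ := ih
    -- completing the square
    have c0 : ∀ (A : Fin (n + 1) → Fin (n + 1) → MvPolynomial (Fin D) ℤ) (k : Fin (n + 1)),
        Rel2 Q (cut (A k k)
          (fun _ _ t => (N0 fun i j => MvPolynomial.aeval t (A i j) : ℕ) : RF D)) := by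
      intro A k
      refine rel2_congr hQ (fun K _ _ hc t => ?_) (rel2_cut hQ (ih1 (red A k) 1) (A k k))
      simp only [cut]
      split_ifs with h
      · rfl
      · rw [N0_red (Ring.two_ne_zero hc) _ k h, red_map, map_one]
    have c1 : ∀ (A : Fin (n + 1) → Fin (n + 1) → MvPolynomial (Fin D) ℤ)
        (b : MvPolynomial (Fin D) ℤ) (k : Fin (n + 1)),
        Rel2 Q (fun _ _ t => (N0 fun i j => MvPolynomial.aeval t (A i j) : ℕ) : RF D) →
        Rel2 Q (cut (A k k) (fun _ _ t => (N1 (fun i j => MvPolynomial.aeval t (A i j))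
          (MvPolynomial.aeval t b) : ℕ) : RF D)) := by
      intro A b k hA
      set g : MvPolynomial (Fin D) ℤ := -(1 * (4 * A k k * b)) with hg
      have r1 := rel2_add hQ (rel2_add hQ (rel2_qpow hQ h1 (n + 1))
        (rel2_neg hQ (rel2_mulqpow hQ (rel2_twist hQ h1 g) n)))
        (rel2_mulq hQ (rel2_twist hQ (ih0 (red A k)) g))
      refine rel2_cases hQ b (rel2_cut hQ r1 (A k k)) (rel2_cut hQ (rel2_mulq hQ hA) (A k k))
        (fun K _ _ hc t ht => ?_) (fun K _ _ hc t ht => ?_)
      · simp only [cut]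
        split_ifs with h
        · rfl
        · have h2 : (2 : K) ≠ 0 := Ring.two_ne_zero hc
          have h4 : (4 : K) ≠ 0 := by
            have : (4 : K) = 2 * 2 := by norm_num
            rw [this]
            exact mul_ne_zero h2 h2
          rw [N1_red h2 _ k h, N2_eq hc _ _ _ one_ne_zero (mul_ne_zero (mul_ne_zero h4 h) ht),
            red_map]
          simp only [twist, hg, map_neg, map_mul, map_one, map_ofNat]
          ring
      · simp only [cut]
        split_ifs with h
        · rfl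
        · rw [ht, N1_zero]
          push_cast
          rfl
    -- all cases
    let g : (Fin (n + 1) → Fin (n + 1) → MvPolynomial (Fin D) ℤ) → Fin (n + 1) × Fin (n + 1) →
        MvPolynomial (Fin D) ℤ := fun A u => if u.1 = u.2 then A u.1 u.1 else mixv A u.1 u.2 u.1 u.1
    have hz : ∀ (A : Fin (n + 1) → Fin (n + 1) → MvPolynomial (Fin D) ℤ) (K : Type) [Field K]
        (t : Fin D → K), (∀ u ∈ Finset.univ, MvPolynomial.aeval t (g A u) = 0) →
        ∀ x, qv (fun i j => MvPolynomial.aeval t (A i j)) x = 0 := by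
      intro A K _ t ht x
      refine qv_zero _ (fun k => ?_) (fun k l hkl => ?_) x
      · have := ht (k, k) (Finset.mem_univ _)
        simpa [g] using this
      · have := ht (k, l) (Finset.mem_univ _)
        rw [mixv_map]
        simpa [g, hkl] using this
    have m0 : ∀ A : Fin (n + 1) → Fin (n + 1) → MvPolynomial (Fin D) ℤ,
        Rel2 Q (fun _ _ t => (N0 fun i j => MvPolynomial.aeval t (A i j) : ℕ) : RF D) := by
      intro A
      refine rel2_cover hQ (g A) Finset.univ _ _ (fun u _ => ?_) (rel2_qpow hQ h1 (n + 1))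
        (fun K _ _ hc t ht => ?_)
      · obtain ⟨k, l⟩ := u
        by_cases hkl : k = l
        · subst hkl
          simpa [g] using c0 A k
        · have h3 := c0 (mixv A k l) k
          simp only [g, if_neg hkl]
          refine rel2_congr hQ (fun K _ _ hc t => ?_) h3
          simp only [cut]
          rw [← mixv_map, N0_mixv _ _ _ hkl]
      · rw [N0_of_zero _ (hz A K t ht)]
        push_cast
        rfl
    refine ⟨m0, fun A b => ?_⟩
    refine rel2_cover hQ (g A) Finset.univ _
      (fun K _ t => (Nat.card K : ℤ) ^ (n + 1) * N1 (fun i j : Fin 0 => (0 : K))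
        (MvPolynomial.aeval t b)) (fun u _ => ?_) (rel2_mulqpow hQ ?_ (n + 1))
      (fun K _ _ hc t ht => ?_)
    · obtain ⟨k, l⟩ := u
      by_cases hkl : k = l
      · subst hkl
        simpa [g] using c1 A b k (m0 A)
      · have h3 := c1 (mixv A k l) b k (m0 _)
        simp only [g, if_neg hkl]
        refine rel2_congr hQ (fun K _ _ hc t => ?_) h3
        simp only [cut]
        rw [← mixv_map, N1_mixv _ _ _ hkl]
    · refine rel2_cases hQ b h1 (rel2_qpow hQ h1 1) (fun K _ _ _ t ht => ?_)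
        (fun K _ _ _ t ht => ?_)
      · rw [N1_of_zero _ (fun x => by simp [qv]), if_neg ht]
        simp
      · rw [N1_of_zero _ (fun x => by simp [qv]), if_pos ht]
        simp
    · rw [N1_of_zero _ (hz A K t ht), N1_of_zero _ (fun x => by simp [qv])]
      push_cast
      simp

end

end Pool.Agent.HGD
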