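import Pool.Agent.HGD.Rel2
import Pool.Agent.HGD.Ctl

/-!
# Systems of quadrics and double covers
-/

set_option autoImplicit false

open scoped BigOperators

namespace Pool.Agent.HGD

open Pool.Agent.HGC MvPolynomial

/-- The number of points over `K` of the double cover `w ^ 2 = f (t_1, …, t_d)` of affine space. -/
noncomputable def dblCount {d : ℕ} (f : MvPolynomial (Fin d) ℤ) (K : Type) [Field K] : ℕ :=
  Nat.card {v : K × (Fin d → K) // v.1 ^ 2 = aeval v.2 f}

/-- common zeros, with a general index type for the variables -/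
noncomputable def affC {ι : Type} {c : ℕ} (P : Fin c → MvPolynomial ι ℤ) (K : Type) [Field K] : ℕ :=
  Nat.card {x : ι → K // ∀ k, aeval x (P k) = 0}

/-- zeros of a linear combination -/
noncomputable def zc {ι : Type} {c : ℕ} (P : Fin c → MvPolynomial ι ℤ) {K : Type} [Field K]
    (z : Fin c → K) : ℕ :=
  Nat.card {x : ι → K // ∑ k, z k * aeval x (P k) = 0}

theorem zc_smul {ι : Type} {c : ℕ} (P : Fin c → MvPolynomial ι ℤ) {K : Type} [Field K]
    (a : K) (ha : a ≠ 0) (z : Fin c → K) : zc P (a • z) = zc P z := by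
  unfold zc
  refine Nat.card_congr (Equiv.subtypeEquivRight fun x => ?_)
  simp only [Pi.smul_apply, smul_eq_mul, mul_assoc, ← Finset.mul_sum]
  rw [mul_eq_zero]
  simp [ha]

/-- the Cayley trick -/
theorem cayley {ι : Type} [Fintype ι] {c : ℕ} (P : Fin c → MvPolynomial ι ℤ) (K : Type) [Field K]
    [Finite K] : (Nat.card K : ℤ) * tot (fun z : Fin c → K => (zc P z : ℤ)) =
      (Nat.card K : ℤ) ^ (Fintype.card ι + c) +
        (Nat.card K : ℤ) ^ c * ((Nat.card K : ℤ) - 1) * affC P K := by
  classical
  have : Fintype K := Fintype.ofFinite K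
  let φ : (ι → K) → ((Fin c → K) →ₗ[K] K) := fun x => ∑ k, (aeval x (P k)) • LinearMap.proj k
  have hφ : ∀ x z, φ x z = ∑ k, z k * aeval x (P k) := by
    intro x z
    simp only [φ, LinearMap.sum_apply, LinearMap.smul_apply, LinearMap.proj_apply, smul_eq_mul]
    exact Finset.sum_congr rfl fun k _ => mul_comm _ _
  have hφ0 : ∀ x, φ x = 0 ↔ ∀ k, aeval x (P k) = 0 := by
    intro x
    constructor
    · intro h k
      have h1 := congrArg (fun ψ : (Fin c → K) →ₗ[K] K => ψ (Pi.single k 1)) h
      simp only [hφ, LinearMap.zero_apply] at h1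
      rw [Finset.sum_eq_single k] at h1
      · simpa using h1
      · intro j _ hj
        rw [Pi.single_eq_of_ne hj, zero_mul]
      · intro h'
        exact absurd (Finset.mem_univ k) h'
    · intro h
      simp only [φ, h, zero_smul, Finset.sum_const_zero]
  have e1 : tot (fun z : Fin c → K => (zc P z : ℤ)) =
      ∑ x : ι → K, (Nat.card {z : Fin c → K // φ x z = 0} : ℤ) := by
    have h1 : ∀ z : Fin c → K, (zc P z : ℤ) =
        ∑ x : ι → K, if φ x z = 0 then (1 : ℤ) else 0 := by
      intro z
      unfold zc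
      rw [Nat.card_eq_fintype_card, Fintype.card_subtype, Finset.card_filter]
      push_cast
      exact Finset.sum_congr rfl fun x _ => by rw [hφ]
    rw [tot_eq, Finset.sum_congr rfl fun z _ => h1 z, Finset.sum_comm]
    refine Finset.sum_congr rfl fun x _ => ?_
    rw [Nat.card_eq_fintype_card, Fintype.card_subtype, Finset.card_filter]
    push_cast
    rfl
  have e2 : (affC P K : ℤ) = ∑ x : ι → K, if φ x = 0 then (1 : ℤ) else 0 := by
    unfold affC
    rw [Nat.card_eq_fintype_card, Fintype.card_subtype, Finset.card_filter]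
    push_cast
    exact Finset.sum_congr rfl fun x _ => by simp only [hφ0]
  rw [e1, e2, Finset.mul_sum]
  simp_rw [card_ker_form, Finset.sum_add_distrib]
  rw [Finset.sum_const, Finset.card_univ, Finset.mul_sum]
  have hcard : (Nat.card (Fin c → K) : ℤ) = (Nat.card K : ℤ) ^ c := by
    rw [Nat.card_fun]
    simp
  rw [hcard]
  simp only [Fintype.card_fun, Nat.card_eq_fintype_card]
  congr 1
  · simp only [nsmul_eq_mul]
    push_cast
    ring
  · refine Finset.sum_congr rfl fun x _ => ?_
    split_ifs <;> ring

/-- a quadratic form as a matrix -/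
theorem exists_matrix {n : ℕ} (P : MvPolynomial (Fin n) ℤ) (hP : P.IsHomogeneous 2) :
    ∃ A : Fin n → Fin n → ℤ, ∀ (K : Type) [Field K] (x : Fin n → K),
      aeval x P = qv (fun i j => (A i j : K)) x := by
  classical
  have hmono : ∀ (m : Fin n →₀ ℕ) (c : ℤ), m.degree = 2 → ∃ A : Fin n → Fin n → ℤ,
      ∀ (K : Type) [Field K] (x : Fin n → K),
        aeval x (monomial m c) = qv (fun i j => (A i j : K)) x := by
    intro m c hm
    obtain ⟨k, l, rfl⟩ : ∃ k l, m = Finsupp.single k 1 + Finsupp.single l 1 := by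
      have h0 : m ≠ 0 := by
        rintro rfl
        simp at hm
      obtain ⟨k, hk⟩ := Finsupp.ne_iff.1 h0
      have hk' : Finsupp.single k 1 ≤ m := by
        rw [Finsupp.single_le_iff]
        exact Nat.one_le_iff_ne_zero.2 hk
      obtain ⟨m', rfl⟩ := exists_add_of_le hk'
      rw [map_add, Finsupp.degree_single] at hm
      have hm' : m'.degree = 1 := by omega
      have h1 : m' ≠ 0 := by
        rintro rfl
        simp at hm'
      obtain ⟨l, hl⟩ := Finsupp.ne_iff.1 h1
      have hl' : Finsupp.single l 1 ≤ m' := by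
        rw [Finsupp.single_le_iff]
        exact Nat.one_le_iff_ne_zero.2 hl
      obtain ⟨m'', rfl⟩ := exists_add_of_le hl'
      rw [map_add, Finsupp.degree_single] at hm'
      have h2 : m'' = 0 := by
        rw [← Finsupp.degree_eq_zero_iff]
        omega
      exact ⟨k, l, by rw [h2, add_zero]⟩
    refine ⟨fun i j => if i = k ∧ j = l then c else 0, fun K _ x => ?_⟩
    rw [aeval_monomial]
    unfold qv
    have e1 : ∀ i j : Fin n, ((if i = k ∧ j = l then c else 0 : ℤ) : K) * x i * x j =
        if i = k then (if j = l then (c : K) * x k * x l else 0) else 0 := by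
      intro i j
      by_cases hi : i = k
      · by_cases hj : j = l
        · subst hi hj
          simp
        · simp [hj]
      · simp [hi]
    simp only [e1]
    rw [Finsupp.prod_add_index' (by simp) (by intros; rw [pow_add]),
      Finsupp.prod_single_index (by simp), Finsupp.prod_single_index (by simp)]
    simp
    ring
  have hsum : ∀ (s : Finset (Fin n →₀ ℕ)) (c : (Fin n →₀ ℕ) → ℤ), (∀ m ∈ s, m.degree = 2) →
      ∃ A : Fin n → Fin n → ℤ, ∀ (K : Type) [Field K] (x : Fin n → K),
        aeval x (∑ m ∈ s, monomial m (c m)) = qv (fun i j => (A i j : K)) x := by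
    intro s c
    induction s using Finset.induction_on with
    | empty =>
      intro _
      exact ⟨fun _ _ => 0, fun K _ x => by simp [qv]⟩
    | insert m s hm ih =>
      intro hs
      obtain ⟨A, hA⟩ := ih fun m' hm' => hs m' (Finset.mem_insert_of_mem hm')
      obtain ⟨B, hB⟩ := hmono m (c m) (hs m (Finset.mem_insert_self m s))
      refine ⟨fun i j => B i j + A i j, fun K _ x => ?_⟩
      rw [Finset.sum_insert hm, map_add, hA, hB]
      unfold qv
      rw [← Finset.sum_add_distrib]
      refine Finset.sum_congr rfl fun i _ => ?_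
      rw [← Finset.sum_add_distrib]
      refine Finset.sum_congr rfl fun j _ => ?_
      push_cast
      ring
  obtain ⟨A, hA⟩ := hsum P.support (fun m => coeff m P) fun m hm => by
    have := hP (mem_support_iff.1 hm)
    rw [Finsupp.degree_eq_weight_one]
    exact this
  exact ⟨A, fun K _ x => by
    rw [← hA K x]
    congr 1
    exact (support_sum_monomial_coeff P).symm⟩

theorem N0_smul {n : ℕ} {K : Type} [Field K] (A : Fin n → Fin n → K) {c : K} (hc : c ≠ 0) :
    N0 (fun i j => c * A i j) = N0 A := by
  unfold N0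
  refine Nat.card_congr (Equiv.subtypeEquivRight fun x => ?_)
  have : qv (fun i j => c * A i j) x = c * qv A x := by
    unfold qv
    rw [Finset.mul_sum]
    refine Finset.sum_congr rfl fun i _ => ?_
    rw [Finset.mul_sum]
    exact Finset.sum_congr rfl fun j _ => by ring
  rw [this, mul_eq_zero]
  simp [hc]

/-- from dimension `n + 1` to dimension `n` -/
theorem rel2_one_pred {Q : PF → Prop} (hQ : AdmOdd Q) {n : ℕ}
    (h : Rel2 Q (fun _ _ _ => 1 : RF (n + 1))) : Rel2 Q (fun _ _ _ => 1 : RF n) := by
  intro f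
  refine hQ.adm.divq (hQ.adm.congr (fun p r hr => ?_) (h (rename Fin.succ f)))
  rw [← relPF_mulq _ p r hr]
  have : Fact (p : ℕ).Prime := ⟨p.2⟩
  have : Fintype (GaloisField p r) := Fintype.ofFinite _
  classical
  simp only [relPF, tot_eq]
  congr 1
  rw [← (Fin.consEquiv fun _ => GaloisField p r).sum_comp, Fintype.sum_prod_type,
    ← Finset.mul_sum]
  have h1 : ∀ c : GaloisField p r, ∑ t : Fin n → GaloisField p r,
      twist (rename Fin.succ f) (fun _ _ _ => 1) (GaloisField p r)
        ((Fin.consEquiv fun _ => GaloisField p r) (c, t)) =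
      ∑ t : Fin n → GaloisField p r, twist f (fun _ _ _ => 1) (GaloisField p r) t := by
    intro c
    refine Finset.sum_congr rfl fun t _ => ?_
    simp only [twist, aeval_rename]
    have h2 : ((Fin.consEquiv fun _ => GaloisField p r) (c, t)) ∘ Fin.succ = t := by
      funext i
      simp [Fin.consEquiv]
    rw [h2]
  rw [Finset.sum_congr rfl fun c _ => h1 c, Finset.sum_const, Finset.card_univ, nsmul_eq_mul,
    Nat.card_eq_fintype_card]

theorem chi_one {K : Type} [Field K] [Finite K] (h2 : ringChar K ≠ 2) : chi (1 : K) = 1 := by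
  have h := chi_sq h2 (one_ne_zero (α := K))
  rwa [mul_one] at h

theorem of_rel2 {Q : PF → Prop} (hQ : AdmOdd Q) {n : ℕ} {Φ : RF n} (h : Rel2 Q Φ) :
    Q (relPF Φ) := by
  refine hQ.odd (fun p r hp _ => ?_) (h 1)
  refine relPF_odd (fun K _ _ h2 t => ?_) p r hp
  simp only [twist, map_one, chi_one h2, one_mul]

/-- quadratic forms with coefficients linear in `z` -/
theorem quad_of_rel2 {Q : PF → Prop} (hQ : AdmOdd Q) :
    ∀ (c : ℕ), (0 < c → Rel2 Q (fun _ _ _ => 1 : RF (c - 1))) →
      ∀ (n : ℕ) (A : Fin c → Fin n → Fin n → ℤ),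
        Q (relPF (fun K _ z => (N0 (fun i j => ∑ k, (A k i j : K) * z k) : ℕ) : RF c)) := by
  intro c
  induction c with
  | zero =>
    intro _ n A
    refine hQ.adm.congr (fun p r hr => ?_) (NZAux.adm_pow hQ.adm n)
    have : Fact (p : ℕ).Prime := ⟨p.2⟩
    have : Fintype (GaloisField p r) := Fintype.ofFinite _
    classical
    simp only [relPF, tot_eq]
    have h2 : ∀ z : Fin 0 → GaloisField p r,
        (N0 (fun i j => ∑ k, (A k i j : GaloisField p r) * z k) : ℤ) = ((p : ℕ) ^ r : ℤ) ^ n := by
      intro z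
      rw [N0_of_zero _ (fun x => by simp [qv]), NZAux.card_gf p hr]
      push_cast
      rfl
    rw [Finset.sum_congr rfl fun z _ => h2 z]
    simp
  | succ c ih =>
    intro h n A
    have h1 : Rel2 Q (fun _ _ _ => 1 : RF c) := h (Nat.succ_pos c)
    have h2 := ih (fun hc => by
      obtain ⟨k, rfl⟩ := Nat.exists_eq_succ_of_ne_zero hc.ne'
      exact rel2_one_pred hQ h1) n (fun k => A k.succ)
    have h5 := of_rel2 hQ ((rel2_N hQ h1 n).1 fun i j => C (A 0 i j) +
      ∑ k : Fin c, C (A k.succ i j) * X k)
    have h4 := hQ.adm.congr (g := fun p r => (((p : ℕ) : ℂ) ^ r - 1) *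
      relPF (fun _ _ t => (N0 fun i j => aeval t (C (A 0 i j) +
        ∑ k : Fin c, C (A k.succ i j) * X k) : ℕ) : RF c) p r)
      (fun p r _ => by ring) (hQ.adm.add (hQ.adm.mulq h5) (hQ.adm.neg h5))
    refine hQ.adm.congr (fun p r hr => ?_) (hQ.adm.add h4 h2)
    have : Fact (p : ℕ).Prime := ⟨p.2⟩
    have h6 := tot_cons (K := GaloisField p r) (fun z : Fin (c + 1) → GaloisField p r =>
      (N0 (fun i j => ∑ k, (A k i j : GaloisField p r) * z k) : ℤ)) (fun a z ha => by
        have : (fun i j => ∑ k, (A k i j : GaloisField p r) * (a • z) k) =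
            fun i j => a * ∑ k, (A k i j : GaloisField p r) * z k := by
          funext i j
          rw [Finset.mul_sum]
          refine Finset.sum_congr rfl fun k _ => ?_
          simp only [Pi.smul_apply, smul_eq_mul]
          ring
        rw [this, N0_smul _ ha])
    simp only [relPF]
    rw [h6, NZAux.card_gf p hr]
    have e1 : (fun t : Fin c → GaloisField p r => (N0 (fun i j => aeval t (C (A 0 i j) +
        ∑ k : Fin c, C (A k.succ i j) * X k)) : ℤ)) = fun t => (N0 (fun i j =>
          ∑ k, (A k i j : GaloisField p r) * (Fin.cons 1 t : Fin (c + 1) → GaloisField p r) k) : ℤ) := by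
      funext t
      congr 2
      funext i j
      simp [Fin.sum_univ_succ]
    have e2 : (fun t : Fin c → GaloisField p r => (N0 (fun i j =>
        ∑ k, (A k.succ i j : GaloisField p r) * t k) : ℤ)) = fun t => (N0 (fun i j =>
          ∑ k, (A k i j : GaloisField p r) * (Fin.cons 0 t : Fin (c + 1) → GaloisField p r) k) : ℤ) := by
      funext t
      congr 2
      funext i j
      simp [Fin.sum_univ_succ]
    rw [e1, e2]
    push_cast
    rfl

/-- the sums of the quadratic character, from double covers -/
theorem rel2_one_of_dbl {Q : PF → Prop} (hQ : AdmOdd Q) {d : ℕ}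
    (h : ∀ f : MvPolynomial (Fin d) ℤ, Q (countPF (dblCount f))) :
    Rel2 Q (fun _ _ _ => 1 : RF d) := by
  classical
  intro f
  refine hQ.adm.congr (fun p r hr => ?_)
    (hQ.adm.add (h f) (hQ.adm.neg (NZAux.adm_pow hQ.adm d)))
  have : Fact (p : ℕ).Prime := ⟨p.2⟩
  have : Fintype (GaloisField p r) := Fintype.ofFinite _
  simp only [relPF, countPF, tot_eq, twist]
  have h2 : (dblCount f (GaloisField p r) : ℤ) =
      ∑ t : Fin d → GaloisField p r, (1 + chi (aeval t f)) := by
    have h3 : dblCount f (GaloisField p r) = ∑ t : Fin d → GaloisField p r,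
        Nat.card {w : GaloisField p r // w ^ 2 = aeval t f} := by
      unfold dblCount
      rw [← Nat.card_sigma]
      exact Nat.card_congr
        { toFun := fun v => ⟨v.1.2, ⟨v.1.1, v.2⟩⟩
          invFun := fun v => ⟨(v.2.1, v.1), v.2.2⟩
          left_inv := fun v => rfl
          right_inv := fun v => rfl }
    rw [h3]
    push_cast
    exact Finset.sum_congr rfl fun t _ => by unfold chi; ring
  have h4 : (dblCount f (GaloisField p r) : ℂ) = ((dblCount f (GaloisField p r) : ℤ) : ℂ) := by
    push_cast
    rfl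
  rw [h4, h2, Finset.sum_add_distrib, Finset.sum_const, Finset.card_univ, Fintype.card_fun,
    Fintype.card_fin, ← Nat.card_eq_fintype_card, NZAux.card_gf p hr]
  push_cast
  simp

/-- systems of `d + 1` quadrics from double covers of affine `d`-space -/
theorem quad_of_dbl {Q : PF → Prop} (hQ : AdmOdd Q) {d : ℕ}
    (h : ∀ f : MvPolynomial (Fin d) ℤ, Q (countPF (dblCount f))) {n : ℕ}
    (P : Fin (d + 1) → MvPolynomial (Fin n) ℤ) (hP : ∀ k, (P k).IsHomogeneous 2) :
    Q (countPF (projCount P)) := by
  classical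
  have h1 : Rel2 Q (fun _ _ _ => 1 : RF d) := rel2_one_of_dbl hQ h
  choose A hA using fun k => exists_matrix (P k) (hP k)
  have h2 := quad_of_rel2 hQ (d + 1) (fun _ => h1) n A
  -- from the forms to the system
  have h3 : Q (countPF (affCount P)) := by
    refine hQ.adm.divq1 (NZAux.adm_divq_pow hQ.adm (d + 1) ?_)
    refine hQ.adm.congr (fun p r hr => ?_) (hQ.adm.add (hQ.adm.mulq h2)
      (hQ.adm.neg (NZAux.adm_pow hQ.adm (n + (d + 1)))))
    have : Fact (p : ℕ).Prime := ⟨p.2⟩
    have h5 := cayley P (GaloisField p r)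
    have h6 : (fun z : Fin (d + 1) → GaloisField p r => (zc P z : ℤ)) = fun z =>
        (N0 (fun i j => ∑ k, (A k i j : GaloisField p r) * z k) : ℤ) := by
      funext z
      congr 1
      unfold zc N0
      refine Nat.card_congr (Equiv.subtypeEquivRight fun x => ?_)
      have h7 : ∑ k, z k * aeval x (P k) =
          qv (fun i j => ∑ k, (A k i j : GaloisField p r) * z k) x := by
        simp only [hA]
        unfold qv
        simp only [Finset.mul_sum, Finset.sum_mul]
        rw [Finset.sum_comm]
        refine Finset.sum_congr rfl fun i _ => ?_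
        rw [Finset.sum_comm]
        refine Finset.sum_congr rfl fun j _ => Finset.sum_congr rfl fun k _ => ?_
        ring
      rw [h7]
    rw [h6, NZAux.card_gf p hr, Fintype.card_fin] at h5
    have h8 := congrArg (Int.cast : ℤ → ℂ) h5
    have h9 : (affC P (GaloisField p r) : ℂ) = (affCount P (GaloisField p r) : ℂ) := rfl
    push_cast at h8
    rw [h9] at h8
    simp only [countPF, relPF]
    linear_combination h8
  refine hQ.adm.divq1 (hQ.adm.congr (fun p r hr => ?_) (hQ.adm.add h3 (hQ.adm.neg hQ.adm.one)))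
  have : Fact (p : ℕ).Prime := ⟨p.2⟩
  have h1 := aff_proj P (fun _ => 2) (fun _ => by norm_num) hP (GaloisField p r)
  rw [NZAux.card_gf p hr] at h1
  have h2 := congrArg (Int.cast : ℤ → ℂ) h1
  push_cast at h2
  simp only [countPF]
  linear_combination h2

end Pool.Agent.HGD
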